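import Pool.Agent.V8H26.XL.Rev

/-!
# The limit law is a probability distribution
-/

set_option autoImplicit false
set_option linter.all false

namespace Pool.Agent.V8H26.XL

open Finset Filter Topology

theorem gg_par (n : ℕ) : ∀ e r, Odd (n + e + r) → gg (Fe e) n r = 0 := by
  induction n with
  | zero =>
    intro e r h
    rw [gg_zero, Fe, if_neg]
    rintro rfl
    rw [zero_add] at h
    exact (Nat.not_odd_iff_even.2 ⟨r, rfl⟩) h
  | succ n ih =>
    intro e r h
    rw [gg_succ, ih e (r + 1) (by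
      have h1 : n + e + (r + 1) = n + 1 + e + r := by ring
      rwa [h1]), mul_zero, add_zero]
    rcases Nat.eq_zero_or_pos r with rfl | hr
    · rw [pow_zero, sub_self, zero_mul]
    · obtain ⟨s, rfl⟩ : ∃ s, r = s + 1 := ⟨r - 1, by omega⟩
      have e1 : s + 1 - 1 = s := by omega
      rw [e1, ih e s, mul_zero]
      have h1 : n + 1 + e + (s + 1) = n + e + s + 2 := by ring
      rw [h1, Nat.odd_add] at h
      exact h.2 (by decide)

theorem gg_far (n : ℕ) : ∀ e r, n + r < e → gg (Fe e) n r = 0 := by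
  induction n with
  | zero =>
    intro e r h
    rw [gg_zero, Fe, if_neg (by omega)]
  | succ n ih =>
    intro e r h
    rw [gg_succ, ih e (r + 1) (by omega), ih e (r - 1) (by omega), mul_zero, mul_zero, add_zero]

theorem gg_one (F : ℕ → ℝ) (n : ℕ) : ∀ r, (∀ x, x ≤ n + r → F x = 1) → gg F n r = 1 := by
  induction n with
  | zero => exact fun r h => h r (by omega)
  | succ n ih =>
    intro r h
    rw [gg_succ, ih (r - 1) (fun x hx => h x (by omega)), ih (r + 1) (fun x hx => h x (by omega))]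
    ring

theorem gg_fs (M : ℕ) (n r : ℕ) :
    ∑ e ∈ range M, gg (Fe e) n r = gg (fun x => ∑ e ∈ range M, Fe e x) n r := by
  induction M with
  | zero =>
    simp only [range_zero, sum_empty]
    have h := gg_lin (fun _ => 0) (fun _ => 0) 0 0 n r
    simp only [mul_zero, add_zero, zero_mul] at h
    exact h.symm
  | succ M ih =>
    rw [sum_range_succ, ih]
    have h := gg_lin (fun x => ∑ e ∈ range M, Fe e x) (Fe M) 1 1 n r
    rw [one_mul, one_mul] at h
    rw [← h]
    congr 1
    funext x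
    rw [sum_range_succ, one_mul, one_mul]

theorem gg_tot (n : ℕ) : HasSum (fun e => gg (Fe e) n 0) 1 := by
  have h1 : ∑ e ∈ range (n + 1), gg (Fe e) n 0 = 1 := by
    rw [gg_fs]
    apply gg_one
    intro x hx
    rw [sum_eq_single x]
    · rw [Fe, if_pos rfl]
    · intro e _ he
      rw [Fe, if_neg (fun h => he h.symm)]
    · intro h
      exact absurd (mem_range.2 (by omega)) h
  rw [← h1]
  apply hasSum_sum_of_ne_finset_zero
  intro e he
  rw [mem_range] at he
  exact gg_far n e 0 (by omega)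

theorem gg_tot2 (t : ℕ) : HasSum (fun d => gg (Fe (2 * d)) (2 * t) 0) 1 := by
  have hi : Function.Injective (fun d : ℕ => 2 * d) := fun x y h => by
    have : 2 * x = 2 * y := h
    omega
  refine (hi.hasSum_iff (f := fun e => gg (Fe e) (2 * t) 0) ?_).2 (gg_tot (2 * t))
  intro e he
  apply gg_par
  rw [add_zero]
  by_contra h
  rw [Nat.not_odd_iff_even, Nat.even_add] at h
  obtain ⟨d, hd⟩ := h.1 ⟨t, by ring⟩
  exact he ⟨d, by show 2 * d = e; omega⟩

theorem pi'_sum : Summable pi' := by
  apply summable_of_ratio_norm_eventually_le (r := 2 / 3) (by norm_num)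
  filter_upwards [eventually_ge_atTop 1] with r hr
  rw [Real.norm_of_nonneg (pi'_pos _).le, Real.norm_of_nonneg (pi'_pos _).le]
  show pi' r * (2 / (2 ^ (r + 1) - 1)) ≤ _
  rw [mul_comm]
  apply mul_le_mul_of_nonneg_right _ (pi'_pos _).le
  have h1 : (4 : ℝ) ≤ 2 ^ (r + 1) := by
    calc (4 : ℝ) = 2 ^ 2 := by norm_num
      _ ≤ 2 ^ (r + 1) := pow_le_pow_right₀ (by norm_num) (by omega)
  rw [div_le_div_iff₀ (by linarith) (by norm_num)]
  linarith

/-- the limit law is a probability distribution -/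
theorem al_sum : HasSum al 1 := by
  have hi : Function.Injective (fun d : ℕ => 2 * d) := fun x y h => by
    have : 2 * x = 2 * y := h
    omega
  have hs : Summable (fun d : ℕ => pi' (2 * d)) := pi'_sum.comp_injective hi
  have hal : Summable al := by
    refine Summable.of_nonneg_of_le (fun d => (al_mem d).1) (fun d => ?_) hs
    rw [al]
    have h1 := (al_mem 0).2
    rw [al_zero] at h1
    have := mul_le_mul_of_nonneg_left h1 (pi'_pos (2 * d)).le
    linarith
  have h1 : Tendsto (fun t : ℕ => ∑' d, gg (Fe (2 * d)) (2 * t) 0) atTop (𝓝 (∑' d, al d)) := by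
    apply tendsto_tsum_of_dominated_convergence hs
    · intro d
      rw [Metric.tendsto_atTop]
      intro ε hε
      obtain ⟨k₀, hk⟩ := start0 d (half_pos hε)
      refine ⟨k₀, fun t ht => ?_⟩
      rw [Real.dist_eq]
      exact (hk t ht).trans_lt (half_lt_self hε)
    · filter_upwards with t d
      rw [gg_rev]
      have h2 := gg_bd (Fe_nonneg 0) (Fe_le 0) (2 * t) (2 * d)
      rw [Real.norm_of_nonneg (mul_nonneg (pi'_pos _).le h2.1)]
      have := mul_le_mul_of_nonneg_left h2.2 (pi'_pos (2 * d)).le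
      linarith
  have h2 : (fun t : ℕ => ∑' d, gg (Fe (2 * d)) (2 * t) 0) = fun _ => (1 : ℝ) :=
    funext fun t => (gg_tot2 t).tsum_eq
  rw [h2] at h1
  have h3 := tendsto_nhds_unique h1 tendsto_const_nhds
  rw [← h3]
  exact hal.hasSum

theorem pi'_prod (r : ℕ) : pi' r = ∏ j ∈ range r, 2 / ((2 : ℝ) ^ (j + 1) - 1) := by
  induction r with
  | zero => rfl
  | succ r ih => rw [prod_range_succ, ← ih]; rfl

theorem al_prod (d : ℕ) : al d = (∏' i : ℕ, (1 - (1 / 2 : ℝ) ^ (2 * i + 1))) *
    ∏ j ∈ range (2 * d), 2 / ((2 : ℝ) ^ (j + 1) - 1) := by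
  rw [al, pi'_prod, mul_comm]
  rfl

theorem PP_pos (k : ℕ) : 0 < PP k := by
  induction k with
  | zero => rw [PP, prod_range_zero]; exact one_pos
  | succ k ih =>
    rw [PP_succ]
    apply mul_pos ih
    have : (1 / 2 : ℝ) ^ (2 * k + 1) ≤ (1 / 2) ^ 1 :=
      pow_le_pow_of_le_one (by norm_num) (by norm_num) (by omega)
    linarith

theorem PP_low (k m : ℕ) : PP k * (1 - 4 / 3 * (1 / 2) ^ (2 * k + 1) +
    4 / 3 * (1 / 2) ^ (2 * (k + m) + 1)) ≤ PP (k + m) := by
  induction m with
  | zero =>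
    have e0 : k + 0 = k := rfl
    rw [e0, sub_add_cancel, mul_one]
  | succ m ih =>
    have e1 : k + (m + 1) = k + m + 1 := rfl
    rw [e1, PP_succ]
    set x : ℝ := (1 / 2) ^ (2 * (k + m) + 1) with hx
    have e2 : (1 / 2 : ℝ) ^ (2 * (k + m + 1) + 1) = x / 4 := by
      have e3 : 2 * (k + m + 1) + 1 = 2 * (k + m) + 1 + 2 := by omega
      rw [hx, e3, pow_add]
      norm_num [div_eq_mul_inv]
    have hx0 : 0 ≤ x := half_pow_nonneg _
    have hx1 : x ≤ 1 := half_pow_le _
    rw [e2]
    have hp := (PP_pos k).le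
    have h2 : x ≤ (1 / 2) ^ (2 * k + 1) :=
      pow_le_pow_of_le_one (by norm_num) (by norm_num) (by omega)
    have h3 := mul_le_mul_of_nonneg_right ih (sub_nonneg.2 hx1)
    refine le_trans ?_ h3
    rw [mul_assoc]
    apply mul_le_mul_of_nonneg_left _ hp
    nlinarith

/-- numerical bounds -/
theorem cc_num : (0.4194 : ℝ) < cc ∧ cc < 0.4195 := by
  constructor
  · have h1 : ∀ m : ℕ, PP 7 * (1 - 4 / 3 * (1 / 2) ^ 15) ≤ PP (7 + m) := by
      intro m
      refine le_trans ?_ (PP_low 7 m)
      apply mul_le_mul_of_nonneg_left _ (PP_pos 7).le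
      have h5 := half_pow_nonneg (2 * (7 + m) + 1)
      have h6 : (1 / 2 : ℝ) ^ (2 * 7 + 1) = (1 / 2) ^ 15 := rfl
      rw [h6]
      linarith
    have h2 : Tendsto (fun m : ℕ => PP (7 + m)) atTop (𝓝 cc) := by
      have h3 := (tendsto_add_atTop_iff_nat 7).2 tendsto_PP
      refine h3.congr fun m => ?_
      rw [Nat.add_comm]
    have h3 := ge_of_tendsto' h2 h1
    refine lt_of_lt_of_le ?_ h3
    simp only [PP, prod_range_succ, prod_range_zero]
    norm_num
  · have h1 : ∀ m : ℕ, PP (7 + m) ≤ PP 7 := by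
      intro m
      induction m with
      | zero => rfl
      | succ m ih =>
        rw [← Nat.add_assoc, PP_succ]
        have h2 := half_pow_nonneg (2 * (7 + m) + 1)
        have h3 := (PP_pos (7 + m)).le
        nlinarith
    have h2 : Tendsto (fun m : ℕ => PP (7 + m)) atTop (𝓝 cc) := by
      have h3 := (tendsto_add_atTop_iff_nat 7).2 tendsto_PP
      refine h3.congr fun m => ?_
      rw [Nat.add_comm]
    have h3 := le_of_tendsto' h2 h1
    refine lt_of_le_of_lt h3 ?_
    simp only [PP, prod_range_succ, prod_range_zero]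
    norm_num

end Pool.Agent.V8H26.XL
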