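import Pool.Agent.V8H26.XL.Bil

/-!
# Symmetric bilinear forms over the field with two elements: two more vectors
-/

set_option autoImplicit false
set_option linter.all false

namespace Pool.Agent.V8H26.XL

open Module
open scoped Classical

section
variable {X : Type} [AddCommGroup X] [Module (ZMod 2) X]

theorem kr_congr {B B' : LinearMap.BilinForm (ZMod 2) X} {U : Submodule (ZMod 2) X}
    (h : ∀ u ∈ U, ∀ v ∈ U, B u v = B' u v) : kr B U = kr B' U := by
  ext x
  constructor
  · rintro ⟨h1, h2⟩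
    exact ⟨h1, fun v hv => by rw [← h x h1 v hv]; exact h2 v hv⟩
  · rintro ⟨h1, h2⟩
    exact ⟨h1, fun v hv => by rw [h x h1 v hv]; exact h2 v hv⟩

theorem rho_congr {B B' : LinearMap.BilinForm (ZMod 2) X} {U : Submodule (ZMod 2) X}
    (h : ∀ u ∈ U, ∀ v ∈ U, B u v = B' u v) : rho B U = rho B' U := by
  rw [rho, rho, kr_congr h]

variable [FiniteDimensional (ZMod 2) X]

variable {B B' : LinearMap.BilinForm (ZMod 2) X} (hs : ∀ u v, B u v = B v u)
  (hs' : ∀ u v, B' u v = B' v u)
  {U : Submodule (ZMod 2) X} {e f : X} {φ ψ : X →ₗ[ZMod 2] ZMod 2} (hU : ∀ u ∈ U, φ u = 0)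
  (he : φ e = 1) (hU' : ∀ u ∈ U, ψ u = 0) (he' : ψ e = 0) (hf : ψ f = 1)
  {z : X} (hz : z ∈ U) (hd : ∀ u, B u u = B u z) (hd' : ∀ u, B' u u = B' u z)

include hU' he' in
theorem psi_ex : ∀ u ∈ ex U e, ψ u = 0 := by
  intro u hu
  rcases mem_ex.1 hu with h | h
  · exact hU' u h
  · have := hU' _ h
    rw [map_add, he', add_zero] at this
    exact this

include hs hU he hU' he' hf hz hd in
/-- the rank is two -/
theorem two_none (h1 : ¬ ∀ κ ∈ kr B U, B κ e = 0) (h2 : ¬ ∀ κ ∈ kr B U, B κ f = 0)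
    (h3 : ¬ ∀ κ ∈ kr B U, B κ (e + f) = 0) : rho B (ex (ex U e) f) + 2 = rho B U := by
  push Not at h1 h2 h3
  obtain ⟨κ, hκ, hκe⟩ := h1
  have r1 := rho_down hs hκ hκe
  have hex : ∃ x ∈ kr B (ex U e), B x f ≠ 0 := by
    by_contra hno
    push Not at hno
    -- then `B · f` is `0` or `B · e` on the kernel
    have hκe1 : B κ e = 1 := F2n hκe
    have key : ∀ x ∈ kr B U, B x f = B x e * B κ f := by
      intro x hx
      rcases F2c (B x e) with h | h
      · rw [h, zero_mul]
        exact hno x ((kr_down hs hκ hκe x).2 ⟨hx, h⟩)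
      · rw [h, one_mul]
        have h4 := hno (x + κ) ((kr_down hs hκ hκe _).2 ⟨(kr B U).add_mem hx hκ, by
          rw [map_add, LinearMap.add_apply, h, hκe1, F2s]⟩)
        rw [map_add, LinearMap.add_apply] at h4
        calc B x f = B x f + (B κ f + B κ f) := by rw [F2s, add_zero]
          _ = B κ f := by rw [← add_assoc, h4, zero_add]
    rcases F2c (B κ f) with h | h
    · obtain ⟨x, hx, hne⟩ := h2
      rw [key x hx, h, mul_zero] at hne
      exact hne rfl
    · obtain ⟨x, hx, hne⟩ := h3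
      rw [map_add, key x hx, h, mul_one, F2s] at hne
      exact hne rfl
  obtain ⟨x, hx, hne⟩ := hex
  have r2 := rho_down hs hx hne
  omega

include hs hU he hU' he' hf hz hd in
/-- the rank is one -/
theorem two_one (h1 : ¬ ∀ κ ∈ kr B U, B κ e = 0) (h2 : (∀ κ ∈ kr B U, B κ f = 0) ∨
    (∀ κ ∈ kr B U, B κ (e + f) = 0)) : rho B (ex (ex U e) f) = rho B U := by
  push Not at h1
  obtain ⟨κ, hκ, hκe⟩ := h1
  have r1 := rho_down hs hκ hκe
  have h3 : ∀ x ∈ kr B (ex U e), B x f = 0 := by
    intro x hx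
    obtain ⟨h4, h5⟩ := (kr_down hs hκ hκe x).1 hx
    rcases h2 with h | h
    · exact h x h4
    · have := h x h4
      rw [map_add, h5, zero_add] at this
      exact this
  have r2 := rho_up hs (psi_ex hU' he') hf (ex_le hz) hd h3
  omega

include hs hU he hU' he' hf hz hd in
theorem two_one' (h1 : ∀ κ ∈ kr B U, B κ e = 0) (h2 : ¬ ∀ κ ∈ kr B U, B κ f = 0) :
    rho B (ex (ex U e) f) = rho B U := by
  have r1 := rho_up hs hU he hz hd h1
  obtain ⟨w, hw, hk, hiff⟩ := kr_up hs hU he hz hd h1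
  push Not at h2
  obtain ⟨κ, hκ, hκf⟩ := h2
  have r2 := rho_down hs ((hiff κ).1 hκ).1 hκf
  omega

include hs hs' hU he hU' he' hf hz hd hd' in
/-- the rank is zero -/
theorem two_all (h1 : ∀ κ ∈ kr B U, B κ e = 0) (h2 : ∀ κ ∈ kr B U, B κ f = 0)
    (c1 : ∀ u ∈ U, ∀ v ∈ U, B u v = B' u v) (c2 : ∀ u ∈ U, B u e = B' u e)
    (c3 : ∀ u ∈ U, B u f = B' u f) (c4 : B e e = B' e e) (c5 : B' e f = B e f + 1)
    (F : ℕ → ℝ) : F (rho B (ex (ex U e) f)) + F (rho B' (ex (ex U e) f)) =
      F (rho B U) + F (rho B U + 2) := by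
  have ce : ∀ u ∈ ex U e, ∀ v ∈ ex U e, B u v = B' u v := by
    have c6 : ∀ u ∈ U, ∀ v ∈ ex U e, B u v = B' u v := by
      intro u hu v hv
      rcases mem_ex.1 hv with h | h
      · exact c1 u hu v h
      · have h4 := c1 u hu _ h
        rw [map_add, map_add, c2 u hu] at h4
        exact add_right_cancel h4
    have c7 : ∀ v ∈ ex U e, B e v = B' e v := by
      intro v hv
      rcases mem_ex.1 hv with h | h
      · rw [hs, hs']
        exact c2 v h
      · have h4 : B e (v + e) = B' e (v + e) := by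
          rw [hs, hs']
          exact c2 _ h
        rw [map_add, map_add, c4] at h4
        exact add_right_cancel h4
    intro u hu v hv
    rcases mem_ex.1 hu with h | h
    · exact c6 u h v hv
    · have h4 := c6 _ h v hv
      rw [map_add, map_add, LinearMap.add_apply, LinearMap.add_apply, c7 v hv] at h4
      exact add_right_cancel h4
  have r1 := rho_up hs hU he hz hd h1
  obtain ⟨w, hw, hk, hiff⟩ := kr_up hs hU he hz hd h1
  have r1' : rho B' (ex U e) = rho B U + 1 := by rw [← rho_congr ce, r1]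
  have hk' : w + e ∈ kr B' (ex U e) := by rw [← kr_congr ce]; exact hk
  -- the kernel over `ex U e`
  have hform : ∀ x ∈ kr B (ex U e), x ∈ kr B U ∨ x + (w + e) ∈ kr B U := by
    intro x hx
    rcases F2c (φ x) with h | h
    · exact Or.inl ((hiff x).2 ⟨hx, h⟩)
    · refine Or.inr ((hiff _).2 ⟨(kr B (ex U e)).add_mem hx hk, ?_⟩)
      rw [map_add, map_add, h, hU w hw, he, zero_add, F2s]
  have hB' : B' (w + e) f = B (w + e) f + 1 := by
    rw [map_add, map_add, LinearMap.add_apply, LinearMap.add_apply, c5, c3 w hw, add_assoc]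
  have main : ∀ (C : LinearMap.BilinForm (ZMod 2) X), (∀ u v, C u v = C v u) →
      (∀ u, C u u = C u z) → kr C (ex U e) = kr B (ex U e) →
      (∀ u ∈ U, C u f = B u f) → rho C (ex U e) = rho B U + 1 →
      rho C (ex (ex U e) f) = if C (w + e) f = 0 then rho B U + 2 else rho B U := by
    intro C hCs hCd hCk hCf hCr
    split_ifs with h
    · have h3 : ∀ x ∈ kr C (ex U e), C x f = 0 := by
        intro x hx
        rw [hCk] at hx
        rcases hform x hx with h4 | h4
        · rw [hCf x h4.1]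
          exact h2 x h4
        · have h5 := h2 _ h4
          rw [← hCf _ h4.1, map_add, LinearMap.add_apply, h, add_zero] at h5
          exact h5
      have r2 := rho_up hCs (psi_ex hU' he') hf (ex_le hz) hCd h3
      omega
    · have r2 := rho_down hCs (κ := w + e) (by rw [hCk]; exact hk) h
      omega
  rw [main B hs hd rfl (fun u _ => rfl) r1,
    main B' hs' hd' (kr_congr ce).symm (fun u hu => (c3 u hu).symm) r1', hB']
  rcases F2c (B (w + e) f) with h | h
  · rw [h, if_pos rfl, zero_add, if_neg one_ne_zero, add_comm]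
  · rw [h, if_neg one_ne_zero, F2s, if_pos rfl]

include hs hs' hU he hU' he' hf hz hd hd' in
/-- **two more vectors** -/
theorem two_sum
    (c1 : ∀ u ∈ U, ∀ v ∈ U, B u v = B' u v) (c2 : ∀ u ∈ U, B u e = B' u e)
    (c3 : ∀ u ∈ U, B u f = B' u f) (c4 : B e e = B' e e) (c5 : B' e f = B e f + 1)
    (F : ℕ → ℝ) : F (rho B (ex (ex U e) f)) + F (rho B' (ex (ex U e) f)) =
      2 * F (rho B U - 2) +
      ind (∀ κ ∈ kr B U, B κ e = 0) * (2 * F (rho B U) - 2 * F (rho B U - 2)) +
      ind (∀ κ ∈ kr B U, B κ f = 0) * (2 * F (rho B U) - 2 * F (rho B U - 2)) +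
      ind (∀ κ ∈ kr B U, B κ (e + f) = 0) *
        (2 * F (rho B U) - 2 * F (rho B U - 2)) +
      ind ((∀ κ ∈ kr B U, B κ e = 0) ∧ (∀ κ ∈ kr B U, B κ f = 0)) *
        (F (rho B U + 2) - 5 * F (rho B U) + 4 * F (rho B U - 2)) := by
  have k1 : kr B' U = kr B U := (kr_congr c1).symm
  have rr : rho B' U = rho B U := by rw [rho, rho, k1]
  have q1 : (∀ κ ∈ kr B' U, B' κ e = 0) ↔ ∀ κ ∈ kr B U, B κ e = 0 := by
    rw [k1]
    exact ⟨fun h κ hκ => by rw [c2 κ hκ.1]; exact h κ hκ,
      fun h κ hκ => by rw [← c2 κ hκ.1]; exact h κ hκ⟩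
  have q2 : (∀ κ ∈ kr B' U, B' κ f = 0) ↔ ∀ κ ∈ kr B U, B κ f = 0 := by
    rw [k1]
    exact ⟨fun h κ hκ => by rw [c3 κ hκ.1]; exact h κ hκ,
      fun h κ hκ => by rw [← c3 κ hκ.1]; exact h κ hκ⟩
  have q3 : (∀ κ ∈ kr B' U, B' κ (e + f) = 0) ↔ ∀ κ ∈ kr B U, B κ (e + f) = 0 := by
    rw [k1]
    refine ⟨fun h κ hκ => ?_, fun h κ hκ => ?_⟩
    · have := h κ hκ
      rw [map_add, ← c2 κ hκ.1, ← c3 κ hκ.1] at this
      rw [map_add]
      exact this
    · have := h κ hκ
      rw [map_add, c2 κ hκ.1, c3 κ hκ.1] at this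
      rw [map_add]
      exact this
  have s3 : ∀ κ, B κ (e + f) = B κ e + B κ f := fun κ => map_add _ _ _
  by_cases h1 : ∀ κ ∈ kr B U, B κ e = 0
  · by_cases h2 : ∀ κ ∈ kr B U, B κ f = 0
    · have h3 : ∀ κ ∈ kr B U, B κ (e + f) = 0 := fun κ hκ => by
        rw [s3, h1 κ hκ, h2 κ hκ, add_zero]
      rw [two_all hs hs' hU he hU' he' hf hz hd hd' h1 h2 c1 c2 c3 c4 c5, ind_pos h1, ind_pos h2,
        ind_pos h3, ind_pos ⟨h1, h2⟩]
      ring
    · have h3 : ¬ ∀ κ ∈ kr B U, B κ (e + f) = 0 := by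
        intro h
        apply h2
        intro κ hκ
        have := h κ hκ
        rw [s3, h1 κ hκ, zero_add] at this
        exact this
      rw [two_one' hs hU he hU' he' hf hz hd h1 h2,
        two_one' hs' hU he hU' he' hf hz hd' (q1.2 h1) (fun h => h2 (q2.1 h)), rr, ind_pos h1,
        ind_neg h2, ind_neg h3, ind_neg (fun h => h2 h.2)]
      ring
  · by_cases h2 : ∀ κ ∈ kr B U, B κ f = 0
    · have h3 : ¬ ∀ κ ∈ kr B U, B κ (e + f) = 0 := by
        intro h
        apply h1
        intro κ hκ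
        have := h κ hκ
        rw [s3, h2 κ hκ, add_zero] at this
        exact this
      rw [two_one hs hU he hU' he' hf hz hd h1 (Or.inl h2),
        two_one hs' hU he hU' he' hf hz hd' (fun h => h1 (q1.1 h)) (Or.inl (q2.2 h2)), rr,
        ind_neg h1, ind_pos h2, ind_neg h3, ind_neg (fun h => h1 h.1)]
      ring
    · by_cases h3 : ∀ κ ∈ kr B U, B κ (e + f) = 0
      · rw [two_one hs hU he hU' he' hf hz hd h1 (Or.inr h3),
          two_one hs' hU he hU' he' hf hz hd' (fun h => h1 (q1.1 h)) (Or.inr (q3.2 h3)), rr,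
          ind_neg h1, ind_neg h2, ind_pos h3, ind_neg (fun h => h1 h.1)]
        ring
      · have r1 := two_none hs hU he hU' he' hf hz hd h1 h2 h3
        have r2 := two_none hs' hU he hU' he' hf hz hd' (fun h => h1 (q1.1 h))
          (fun h => h2 (q2.1 h)) (fun h => h3 (q3.1 h))
        rw [rr] at r2
        have e1 : rho B (ex (ex U e) f) = rho B U - 2 := by omega
        have e2 : rho B' (ex (ex U e) f) = rho B U - 2 := by omega
        rw [e1, e2, ind_neg h1, ind_neg h2, ind_neg h3, ind_neg (fun h => h1 h.1)]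
        ring

/-! ### Parity -/

include hs in
/-- a functional which separates a vector from a subspace -/
theorem exists_sep {U : Submodule (ZMod 2) X} {e : X} (h : e ∉ U) :
    ∃ φ : X →ₗ[ZMod 2] ZMod 2, (∀ u ∈ U, φ u = 0) ∧ φ e = 1 := by
  obtain ⟨φ, h1, h2⟩ := Submodule.exists_le_ker_of_notMem h
  exact ⟨φ, fun u hu => h2 hu, F2n h1⟩

theorem ex_of_mem {U : Submodule (ZMod 2) X} {e : X} (h : e ∈ U) : ex U e = U := by
  rw [ex, sup_eq_left, Submodule.span_singleton_le_iff_mem]
  exact h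

theorem finrank_ex {U : Submodule (ZMod 2) X} {e : X} (hU : ∀ u ∈ U, φ u = 0) (he : φ e = 1) :
    finrank (ZMod 2) (ex U e) = finrank (ZMod 2) U + 1 := by
  refine (fin_ker φ (K := ex U e) (K' := U) (fun x => ⟨fun h => ⟨ex_le h, hU x h⟩, ?_⟩)
    ⟨e, self_ex, by rw [he]; exact one_ne_zero⟩).symm
  rintro ⟨h1, h2⟩
  rcases mem_ex.1 h1 with h | h
  · exact h
  · exfalso
    have := hU _ h
    rw [map_add, h2, he, zero_add] at this
    exact one_ne_zero this

include hs hd in
/-- the parity of the rank -/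
theorem parity (hz0 : z ≠ 0) (U : Submodule (ZMod 2) X) (hzU : z ∈ U) :
    Even (finrank (ZMod 2) U + rho B U) ↔ B z z = 0 := by
  have base : Even (finrank (ZMod 2) (Submodule.span (ZMod 2) {z}) +
      rho B (Submodule.span (ZMod 2) {z})) ↔ B z z = 0 := by
    have h1 : finrank (ZMod 2) (Submodule.span (ZMod 2) {z}) = 1 := finrank_span_singleton hz0
    rcases F2c (B z z) with h | h
    · have h2 : kr B (Submodule.span (ZMod 2) {z}) = Submodule.span (ZMod 2) {z} := by
        ext x
        constructor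
        · intro hx
          exact hx.1
        · intro hx
          refine ⟨hx, fun v hv => ?_⟩
          obtain ⟨c, rfl⟩ := Submodule.mem_span_singleton.1 hx
          obtain ⟨c', rfl⟩ := Submodule.mem_span_singleton.1 hv
          rw [map_smul, map_smul, LinearMap.smul_apply, h, smul_zero, smul_zero]
      rw [rho, h2, h1, h]
      exact ⟨fun _ => rfl, fun _ => ⟨1, rfl⟩⟩
    · have h2 : kr B (Submodule.span (ZMod 2) {z}) = ⊥ := by
        rw [eq_bot_iff]
        intro x hx
        obtain ⟨c, rfl⟩ := Submodule.mem_span_singleton.1 hx.1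
        have h3 := hx.2 z (Submodule.mem_span_singleton_self z)
        rw [map_smul, LinearMap.smul_apply, h, smul_eq_mul, mul_one] at h3
        rw [h3, zero_smul]
        exact Submodule.zero_mem _
      rw [rho, h2, h1, finrank_bot, h]
      simp
  have step : ∀ (V : Submodule (ZMod 2) X) (e : X), z ∈ V →
      (Even (finrank (ZMod 2) V + rho B V) ↔ B z z = 0) →
      (Even (finrank (ZMod 2) (ex V e) + rho B (ex V e)) ↔ B z z = 0) := by
    intro V e hzV ih
    by_cases hV : e ∈ V
    · rw [ex_of_mem hV]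
      exact ih
    · obtain ⟨φ, h1, h2⟩ := exists_sep hs hV
      rw [finrank_ex h1 h2]
      by_cases h0 : ∀ κ ∈ kr B V, B κ e = 0
      · rw [rho_up hs h1 h2 hzV hd h0, ← ih]
        have : finrank (ZMod 2) V + 1 + (rho B V + 1) = finrank (ZMod 2) V + rho B V + 2 := by ring
        rw [this]
        exact ⟨fun h => by
          rcases h with ⟨r, hr⟩
          exact ⟨r - 1, by omega⟩, fun h => h.add (by decide)⟩
      · push Not at h0
        obtain ⟨κ, hκ, hne⟩ := h0
        have := rho_down hs hκ hne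
        rw [← ih, ← this]
        have h3 : finrank (ZMod 2) V + 1 + rho B (ex V e) =
          finrank (ZMod 2) V + (rho B (ex V e) + 1) := by ring
        rw [h3]
  have main : ∀ s : Finset X, z ∈ Submodule.span (ZMod 2) ({z} ∪ (s : Set X)) ∧
      (Even (finrank (ZMod 2) (Submodule.span (ZMod 2) ({z} ∪ (s : Set X))) +
        rho B (Submodule.span (ZMod 2) ({z} ∪ (s : Set X)))) ↔ B z z = 0) := by
    intro s
    induction s using Finset.induction_on with
    | empty =>
      rw [Finset.coe_empty, Set.union_empty]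
      exact ⟨Submodule.mem_span_singleton_self z, base⟩
    | insert a s ha ih =>
      have h1 : Submodule.span (ZMod 2) ({z} ∪ ((insert a s : Finset X) : Set X)) =
          ex (Submodule.span (ZMod 2) ({z} ∪ (s : Set X))) a := by
        rw [ex, ← Submodule.span_union, Finset.coe_insert]
        congr 1
        ext x
        simp only [Set.mem_union, Set.mem_singleton_iff, Set.mem_insert_iff]
        tauto
      rw [h1]
      exact ⟨ex_le ih.1, step _ _ ih.1 ih.2⟩
  haveI : Module.Finite (ZMod 2) X := inferInstance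
  haveI : Finite X := Module.finite_of_finite (ZMod 2)
  have h1 : Submodule.span (ZMod 2) ({z} ∪ ((Set.toFinite (U : Set X)).toFinset : Set X)) = U := by
    rw [Set.Finite.coe_toFinset, Set.union_eq_self_of_subset_left (by simpa using hzU),
      Submodule.span_eq]
  have h2 := (main (Set.toFinite (U : Set X)).toFinset).2
  rw [h1] at h2
  exact h2

end

end Pool.Agent.V8H26.XL
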