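import Pool.Agent.V8H64.FF.Frm
import Pool.Agent.Y164.PS.Avg
import Pool.Agent.V8H26.XL.Two

/-!
# Arrays of symbols and their forms
-/

set_option autoImplicit false
set_option linter.all false

namespace Pool.Agent.V8H26.XL

open Module Finset
open Pool.Agent.Y164.PS (W om om_add_left om_add_right om_comm om_self om_zero_left om_zero_right Oq ee
  om_smul_left om_smul_right eq_zero_of_om W_add_self Dat V ks dg ws dg_ws FF_diag lab FF_split ks_add
  dg_add FF_comm)
open Pool.Agent.V8H64.FF (Phi phi_comm phi_add_left phi_smul_left)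
open scoped Classical

/-- arrays of symbols -/
@[ext] structure Arr (ι τ : Type) where
  A : ι → ι → ZMod 2
  B : ι → τ → ZMod 2
  symm : ∀ i j, A i j = A j i

section
variable {ι τ : Type}

/-- the symbols of the index `j` are replaced -/
noncomputable def rep (j : ι) (v : ι ⊕ τ → ZMod 2) (a : Arr ι τ) : Arr ι τ where
  A i i' := if i = j then (if i' = j then 0 else v (Sum.inl i')) else
    if i' = j then v (Sum.inl i) else a.A i i'
  B i s := if i = j then v (Sum.inr s) else a.B i s
  symm i i' := by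
    by_cases h : i = j <;> by_cases h' : i' = j <;> simp [h, h', a.symm i i']

theorem rep_rep (j : ι) (v v' : ι ⊕ τ → ZMod 2) (a : Arr ι τ) : rep j v (rep j v' a) = rep j v a := by
  ext i i'
  · by_cases h : i = j <;> by_cases h' : i' = j <;> simp [rep, h, h']
  · by_cases h : i = j <;> simp [rep, h]

variable [Fintype ι] [Fintype τ] (D : Dat τ) (d : ι → ZMod 2)

/-- the form of an array -/
noncomputable def fm (a : Arr ι τ) (x : ι → ZMod 2) : LinearMap.BilinForm (ZMod 2) (V ι τ) :=
  LinearMap.mk₂ (ZMod 2) (Phi D a.A a.B d x) (phi_add_left D a.B d x) (phi_smul_left D a.B d x)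
    (fun u w w' => by
      rw [phi_comm D a.B d x a.symm, phi_add_left, phi_comm D a.B d x a.symm w,
        phi_comm D a.B d x a.symm w'])
    (fun c u w => by
      rw [phi_comm D a.B d x a.symm, phi_smul_left, phi_comm D a.B d x a.symm w]
      rfl)

theorem fm_apply (a : Arr ι τ) (x : ι → ZMod 2) (w w' : V ι τ) :
    fm D d a x w w' = Phi D a.A a.B d x w w' := rfl

theorem fm_symm (a : Arr ι τ) (x : ι → ZMod 2) (w w' : V ι τ) :
    fm D d a x w w' = fm D d a x w' w := phi_comm D a.B d x a.symm w w'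

/-- the coefficients of the symbols of the index `j` -/
noncomputable def co (j : ι) (w w' : V ι τ) : ι ⊕ τ → ZMod 2 :=
  Sum.elim (fun i => if i = j then 0 else Oq (lab w w' i + lab w w' j))
    (fun s => ee (D.t s) (w.2 s) (w'.2 s) (lab w w' j))

theorem fm_rep (j : ι) (v : ι ⊕ τ → ZMod 2) (a : Arr ι τ) (x : ι → ZMod 2) (w w' : V ι τ) :
    fm D d (rep j v a) x w w' = fm D d (rep j 0 a) x w w' + ∑ y, co D j w w' y * v y := by
  rw [fm_apply, fm_apply, Phi, Phi, FF_split D _ d (rep j v a).symm w w' j]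
  have e1 : (fun i i' => if i = j ∨ i' = j then (0 : ZMod 2) else (rep j v a).A i i') =
      (rep j 0 a).A := by
    funext i i'
    by_cases h : i = j <;> by_cases h' : i' = j <;> simp [rep, h, h']
  have e2 : (fun i s => if i = j then (0 : ZMod 2) else (rep j v a).B i s) = (rep j 0 a).B := by
    funext i s
    by_cases h : i = j <;> simp [rep, h]
  have e3 : ∑ i ∈ univ.erase j, (rep j v a).A i j * Oq (lab w w' i + lab w w' j) =
      ∑ i, (if i = j then 0 else Oq (lab w w' i + lab w w' j)) * v (Sum.inl i) := by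
    rw [← add_sum_erase univ _ (mem_univ j), if_pos rfl, zero_mul, zero_add]
    refine sum_congr rfl fun i hi => ?_
    have hij := ne_of_mem_erase hi
    rw [if_neg hij]
    simp only [rep, if_neg hij, if_pos]
    ring
  have e4 : ∑ s, (rep j v a).B j s * ee (D.t s) (w.2 s) (w'.2 s) (lab w w' j) =
      ∑ s, ee (D.t s) (w.2 s) (w'.2 s) (lab w w' j) * v (Sum.inr s) := by
    refine sum_congr rfl fun s _ => ?_
    simp only [rep, if_pos]
    ring
  rw [e1, e2, e3, e4, Fintype.sum_sum_type]
  simp only [co, Sum.elim_inl, Sum.elim_inr]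
  ring

theorem fm_x (a : Arr ι τ) (x x' : ι → ZMod 2) (w w' : V ι τ) :
    fm D d a (x + x') w w' = fm D d a x w w' + ∑ i, x' i * om (w.1 i) (w'.1 i) := by
  rw [fm_apply, fm_apply, Phi, Phi]
  have : ∑ i, (x + x') i * om (w.1 i) (w'.1 i) = ∑ i, x i * om (w.1 i) (w'.1 i) +
      ∑ i, x' i * om (w.1 i) (w'.1 i) := by
    rw [← sum_add_distrib]
    exact sum_congr rfl fun i _ => by rw [Pi.add_apply, add_mul]
  rw [this]
  ring

theorem fm_xj (a : Arr ι τ) (x : ι → ZMod 2) (j : ι) (w w' : V ι τ) :
    fm D d a (x + Pi.single j 1) w w' = fm D d a x w w' + om (w.1 j) (w'.1 j) := by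
  rw [fm_x, sum_eq_single j]
  · rw [Pi.single_eq_same, one_mul]
  · intro i _ hi
    rw [Pi.single_eq_of_ne hi, zero_mul]
  · intro h
    exact absurd (mem_univ _) h

/-- the shift of the diagonal -/
noncomputable def vh (j : ι) (v : ι ⊕ τ → ZMod 2) (i : ι) : ZMod 2 := if i = j then 0 else v (Sum.inl i)

/-- the form on the vectors without `j` -/
theorem fm_rest (j : ι) (v : ι ⊕ τ → ZMod 2) (a : Arr ι τ) (x : ι → ZMod 2) (w w' : V ι τ)
    (h : w.1 j = 0) (h' : w'.1 j = 0) :
    fm D d (rep j v a) (x + vh j v) w w' = fm D d (rep j 0 a) x w w' := by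
  have e1 : ∑ y, co D j w w' y * v y = ∑ i, vh j v i * om (w.1 i) (w'.1 i) := by
    rw [Fintype.sum_sum_type]
    have e2 : ∑ s, co D j w w' (Sum.inr s) * v (Sum.inr s) = 0 := by
      refine sum_eq_zero fun s _ => ?_
      have : co D j w w' (Sum.inr s) = 0 := by
        show ee (D.t s) (w.2 s) (w'.2 s) (w.1 j, w'.1 j) = 0
        rw [h, h', ee]
        simp only [om_zero_left, om_zero_right, mul_zero, add_zero, zero_mul]
      rw [this, zero_mul]
    rw [e2, add_zero]
    refine sum_congr rfl fun i _ => ?_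
    show (if i = j then 0 else Oq (lab w w' i + lab w w' j)) * v (Sum.inl i) = _
    by_cases hij : i = j
    · rw [if_pos hij, zero_mul, vh, if_pos hij, zero_mul]
    · rw [if_neg hij, vh, if_neg hij]
      have : lab w w' i + lab w w' j = (w.1 i, w'.1 i) := by
        show (w.1 i + w.1 j, w'.1 i + w'.1 j) = _
        rw [h, h', add_zero, add_zero]
      rw [this, mul_comm]
      rfl
  rw [fm_rep, fm_x, e1, add_assoc, F2s, add_zero]

/-- the vector with the component `y` at `j` -/
noncomputable def vj (j : ι) (y : W) : V ι τ := (Pi.single j y, 0)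

theorem vj_fst (j : ι) (y : W) (i : ι) : (vj (τ := τ) j y).1 i = if i = j then y else 0 := by
  show (Pi.single j y : ι → W) i = _
  by_cases h : i = j
  · subst h
    rw [Pi.single_eq_same, if_pos rfl]
  · rw [Pi.single_eq_of_ne h, if_neg h]

theorem vj_snd (j : ι) (y : W) (s : τ) : (vj (ι := ι) j y).2 s = 0 := rfl

/-- the value of the form at a new vector -/
theorem fm_new (j : ι) (v : ι ⊕ τ → ZMod 2) (a : Arr ι τ) (x : ι → ZMod 2) (w : V ι τ) (y : W)
    (h : w.1 j = 0) : fm D d (rep j v a) x w (vj j y) =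
      ∑ z, co D j w (vj j y) z * v z + d j * om (ks D.l (dg D d w)) y := by
  rw [fm_rep, add_comm]
  congr 1
  rw [fm_apply, Phi]
  have e0 : dg D d (vj j y) = d j • y := by
    unfold dg
    have : ∑ s, (D.e s * (vj (ι := ι) j y).2 s) • D.t s = 0 :=
      sum_eq_zero fun s _ => by rw [vj_snd, mul_zero, zero_smul]
    rw [this, add_zero, sum_eq_single j]
    · rw [vj_fst, if_pos rfl]
    · intro i _ hi
      rw [vj_fst, if_neg hi, smul_zero]
    · intro h
      exact absurd (mem_univ _) h
  have e1 : ∑ i, x i * om (w.1 i) ((vj (τ := τ) j y).1 i) = 0 := by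
    refine sum_eq_zero fun i _ => ?_
    rw [vj_fst]
    split_ifs with hi
    · rw [hi, h, om_zero_left, mul_zero]
    · rw [om_zero_right, mul_zero]
  have e2 : Pool.Agent.Y164.PS.FF D (rep j 0 a).A (rep j 0 a).B d w (vj j y) = 0 := by
    unfold Pool.Agent.Y164.PS.FF
    have a1 : ∑ i, ∑ i', (rep j 0 a).A i i' *
        (om (w.1 i') ((vj (τ := τ) j y).1 i) + om (w.1 i) ((vj (τ := τ) j y).1 i)) = 0 := by
      refine sum_eq_zero fun i _ => sum_eq_zero fun i' _ => ?_
      rw [vj_fst]
      split_ifs with hi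
      · subst hi
        have : (rep i 0 a).A i i' = 0 := by
          by_cases h' : i' = i <;> simp [rep, h']
        rw [this, zero_mul]
      · rw [om_zero_right, om_zero_right, add_zero, mul_zero]
    have a2 : ∑ i, ∑ s, (rep j 0 a).B i s * (om (w.1 i) (D.t s) *
        om ((vj (τ := τ) j y).1 i) (D.t s) + w.2 s * om (D.t s) ((vj (τ := τ) j y).1 i) +
        (vj (ι := ι) j y).2 s * om (w.1 i) (D.t s)) = 0 := by
      refine sum_eq_zero fun i _ => sum_eq_zero fun s _ => ?_
      rw [vj_fst, vj_snd]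
      split_ifs with hi
      · subst hi
        have : (rep i 0 a).B i s = 0 := by simp [rep]
        rw [this, zero_mul]
      · rw [om_zero_left, om_zero_right]
        ring
    have a3 : ∑ s, ∑ s', D.G s s' * (w.2 s' * (vj (ι := ι) j y).2 s * om (D.t s') (D.t s)) = 0 :=
      sum_eq_zero fun s _ => sum_eq_zero fun s' _ => by rw [vj_snd]; ring
    have a4 : ∑ s, w.2 s * (vj (ι := ι) j y).2 s = 0 :=
      sum_eq_zero fun s _ => by rw [vj_snd, mul_zero]
    have a5 : ∑ i, d i * om (ks D.l (w.1 i)) ((vj (τ := τ) j y).1 i) = 0 := by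
      refine sum_eq_zero fun i _ => ?_
      rw [vj_fst]
      split_ifs with hi
      · rw [hi, h]
        have : ks D.l 0 = 0 := by simp [ks]
        rw [this, om_zero_left, mul_zero]
      · rw [om_zero_right, mul_zero]
    rw [a1, a2, a3, a4, a5]
    ring
  rw [e0, e1, e2, om_smul_right, add_zero, zero_add]

/-- the characteristic vector -/
theorem fm_diag (a : Arr ι τ) (x : ι → ZMod 2) (w : V ι τ) :
    fm D d a x w w = fm D d a x w ws := by
  -- one more index
  set A' : Option ι → Option ι → ZMod 2 := fun o o' => o.elim 0 fun i => o'.elim 0 fun i' => a.A i i'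
    with hA'
  set B' : Option ι → τ → ZMod 2 := fun o s => o.elim 0 fun i => a.B i s with hB'
  set d' : Option ι → ZMod 2 := fun o => o.elim 1 d with hd'
  set w' : V (Option ι) τ := (fun o => o.elim (dg D d w) w.1, w.2) with hw'
  have hsy : ∀ o o', A' o o' = A' o' o := by
    rintro (_ | i) (_ | i')
    · rfl
    · rfl
    · rfl
    · exact a.symm i i'
  have hdg : dg D d' w' = 0 := by
    unfold dg
    rw [Fintype.sum_option]
    show 1 • dg D d w + ∑ i, d i • w.1 i + ∑ s, (D.e s * w.2 s) • D.t s = 0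
    rw [one_smul, add_assoc]
    exact W_add_self _
  have key := FF_diag D (A := A') B' d' hsy w' hdg
  have e1 : Pool.Agent.Y164.PS.FF D A' B' d' w' w' =
      Pool.Agent.Y164.PS.FF D a.A a.B d w w + om (ks D.l (dg D d w)) (dg D d w) := by
    unfold Pool.Agent.Y164.PS.FF
    simp only [Fintype.sum_option, hA', hB', hd', hw', Option.elim_none, Option.elim_some, zero_mul,
      zero_add, sum_const_zero, add_zero, one_mul]
    ring
  have e2 : Pool.Agent.Y164.PS.FF D A' B' d' w' ws =
      Pool.Agent.Y164.PS.FF D a.A a.B d w ws := by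
    unfold Pool.Agent.Y164.PS.FF
    simp only [Fintype.sum_option, hA', hB', hd', hw', Option.elim_none, Option.elim_some, zero_mul,
      zero_add, sum_const_zero, add_zero, one_mul, ws, Pi.zero_apply, om_zero_right, mul_zero]
  rw [fm_apply, fm_apply, Phi, Phi, dg_ws, om_zero_right, add_zero]
  have e3 : ∑ i, x i * om (w.1 i) (w.1 i) = 0 :=
    sum_eq_zero fun i _ => by rw [om_self, mul_zero]
  have e4 : ∑ i, x i * om (w.1 i) ((ws : V ι τ).1 i) = 0 :=
    sum_eq_zero fun i _ => by
      have : (ws : V ι τ).1 i = 0 := rfl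
      rw [this, om_zero_right, mul_zero]
  rw [e3, e4, add_zero, add_zero, ← e1, ← e2]
  exact key

/-! ### The subspaces -/

/-- the vectors supported in `S` -/
def VS (S : Finset ι) : Submodule (ZMod 2) (V ι τ) where
  carrier := {w | ∀ i, i ∉ S → w.1 i = 0}
  add_mem' := by
    intro w w' h h' i hi
    show w.1 i + w'.1 i = 0
    rw [h i hi, h' i hi, add_zero]
  zero_mem' := fun i _ => rfl
  smul_mem' := by
    intro c w h i hi
    show c • w.1 i = 0
    rw [h i hi, smul_zero]

theorem mem_VS {S : Finset ι} {w : V ι τ} : w ∈ VS S ↔ ∀ i, i ∉ S → w.1 i = 0 := Iff.rfl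

theorem ws_mem (S : Finset ι) : (ws : V ι τ) ∈ VS S := fun i _ => rfl

/-- the coordinates at `j` -/
def fe (j : ι) : V ι τ →ₗ[ZMod 2] ZMod 2 where
  toFun w := (w.1 j).1
  map_add' _ _ := rfl
  map_smul' _ _ := rfl

/-- the coordinates at `j` -/
def ff (j : ι) : V ι τ →ₗ[ZMod 2] ZMod 2 where
  toFun w := (w.1 j).2
  map_add' _ _ := rfl
  map_smul' _ _ := rfl

theorem fe_VS {S : Finset ι} {j : ι} (hj : j ∉ S) : ∀ u ∈ VS (τ := τ) S, fe j u = 0 := by
  intro u hu
  show (u.1 j).1 = 0
  rw [hu j hj]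
  rfl

theorem ff_VS {S : Finset ι} {j : ι} (hj : j ∉ S) : ∀ u ∈ VS (τ := τ) S, ff j u = 0 := by
  intro u hu
  show (u.1 j).2 = 0
  rw [hu j hj]
  rfl

theorem fe_e (j : ι) : fe (τ := τ) j (vj j (1, 0)) = 1 := by
  show ((vj (τ := τ) j (1, 0)).1 j).1 = 1
  rw [vj_fst, if_pos rfl]

theorem ff_e (j : ι) : ff (τ := τ) j (vj j (1, 0)) = 0 := by
  show ((vj (τ := τ) j (1, 0)).1 j).2 = 0
  rw [vj_fst, if_pos rfl]

theorem ff_f (j : ι) : ff (τ := τ) j (vj j (0, 1)) = 1 := by
  show ((vj (τ := τ) j (0, 1)).1 j).2 = 1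
  rw [vj_fst, if_pos rfl]

theorem Wc (y : W) : y = 0 ∨ y = (1, 0) ∨ y = (0, 1) ∨ y = (1, 0) + (0, 1) := by
  revert y; decide

theorem VS_insert {S : Finset ι} {j : ι} (hj : j ∉ S) :
    VS (τ := τ) (insert j S) = ex (ex (VS S) (vj j (1, 0))) (vj j (0, 1)) := by
  have hvj : ∀ (y : W) (w : V ι τ), (∀ i, i ∉ insert j S → w.1 i = 0) → w.1 j = y →
      w + vj j y ∈ VS (τ := τ) S := by
    intro y w hw hy i hi
    show w.1 i + (vj (τ := τ) j y).1 i = 0
    rw [vj_fst]
    split_ifs with hij
    · rw [hij, hy, W_add_self]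
    · rw [add_zero]
      exact hw i (by rw [mem_insert]; tauto)
  have hmem : ∀ y : W, vj (τ := τ) j y ∈ VS (τ := τ) (insert j S) := by
    intro y i hi
    rw [vj_fst, if_neg (by rintro rfl; exact hi (mem_insert_self _ _))]
  have hsub : ∀ w ∈ VS (τ := τ) S, w ∈ VS (τ := τ) (insert j S) :=
    fun w hw i hi => hw i fun h => hi (mem_insert_of_mem h)
  have hadd : ∀ y y' : W, vj (τ := τ) j (y + y') = vj j y + vj j y' := by
    intro y y'
    refine Prod.ext ?_ ?_
    · exact Pi.single_add (f := fun _ : ι => W) j y y'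
    · exact (add_zero (0 : τ → ZMod 2)).symm
  ext w
  rw [mem_ex, mem_ex, mem_ex]
  constructor
  · intro hw
    rcases Wc (w.1 j) with h | h | h | h
    · left; left
      intro i hi
      by_cases hij : i = j
      · rw [hij, h]
      · exact hw i (by rw [mem_insert]; tauto)
    · left; right
      exact hvj _ w hw h
    · right; left
      exact hvj _ w hw h
    · right; right
      have := hvj _ w hw h
      rw [hadd, add_comm (vj j (1, 0)), ← add_assoc] at this
      exact this
  · have back : ∀ (y : W), w + vj j y ∈ VS (τ := τ) S → w ∈ VS (τ := τ) (insert j S) := by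
      intro y h
      have := (VS (τ := τ) (insert j S)).add_mem (hsub _ h) (hmem y)
      rw [add_assoc, X_self, add_zero] at this
      exact this
    rintro ((h | h) | (h | h))
    · exact hsub w h
    · exact back _ h
    · exact back _ h
    · rw [add_assoc, ← hadd] at h
      exact back _ h

theorem finrank_VS (S : Finset ι) : finrank (ZMod 2) (VS (τ := τ) S) = 2 * S.card + Fintype.card τ := by
  induction S using Finset.induction_on with
  | empty =>
    rw [card_empty, mul_zero, zero_add]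
    have h1 : finrank (ZMod 2) (τ → ZMod 2) = Fintype.card τ := by
      rw [finrank_fintype_fun_eq_card]
    rw [← h1]
    refine LinearEquiv.finrank_eq (LinearEquiv.ofBijective
      ((LinearMap.snd (ZMod 2) (ι → W) (τ → ZMod 2)).comp (VS (τ := τ) (∅ : Finset ι)).subtype)
      ⟨?_, ?_⟩)
    · rintro ⟨⟨x, z⟩, hx⟩ ⟨⟨x', z'⟩, hx'⟩ h
      have h2 : z = z' := h
      have h3 : x = x' := by
        funext i
        have e1 : x i = 0 := hx i (notMem_empty i)
        have e2 : x' i = 0 := hx' i (notMem_empty i)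
        rw [e1, e2]
      subst h2 h3
      rfl
    · intro z
      exact ⟨⟨(0, z), fun i _ => rfl⟩, rfl⟩
  | insert j S hj ih =>
    have hE : ∀ u ∈ ex (VS (τ := τ) S) (vj j (1, 0)), ff j u = 0 := psi_ex (ff_VS hj) (ff_e j)
    rw [VS_insert hj, finrank_ex hE (ff_f j), finrank_ex (fe_VS hj) (fe_e j), ih,
      card_insert_of_notMem hj]
    ring

theorem card_VS (S : Finset ι) : Fintype.card (VS (τ := τ) S) = 4 ^ S.card * 2 ^ Fintype.card τ := by
  have := Module.card_eq_pow_finrank (K := ZMod 2) (V := VS (τ := τ) S)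
  rw [ZMod.card, finrank_VS, pow_add, pow_mul] at this
  rw [this]
  norm_num

end

end Pool.Agent.V8H26.XL
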