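import Mathlib

/-!
# Symmetric bilinear forms over the field with two elements: one more vector
-/

set_option autoImplicit false
set_option linter.all false

namespace Pool.Agent.V8H26.XL

open Module

theorem F2c (x : ZMod 2) : x = 0 ∨ x = 1 := by revert x; decide

theorem F2s (x : ZMod 2) : x + x = 0 := by revert x; decide

theorem F2n {x : ZMod 2} (h : x ≠ 0) : x = 1 := (F2c x).resolve_left h

/-- the indicator of a proposition -/
noncomputable def ind (p : Prop) : ℝ := @ite ℝ p (Classical.propDecidable p) 1 0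

theorem ind_pos {p : Prop} (h : p) : ind p = 1 := if_pos h

theorem ind_neg {p : Prop} (h : ¬ p) : ind p = 0 := if_neg h

theorem ind_congr {p q : Prop} (h : p ↔ q) : ind p = ind q := by rw [propext h]

theorem ind_nonneg (p : Prop) : 0 ≤ ind p := by
  by_cases h : p
  · rw [ind_pos h]; exact zero_le_one
  · rw [ind_neg h]

theorem ind_le_one (p : Prop) : ind p ≤ 1 := by
  by_cases h : p
  · rw [ind_pos h]
  · rw [ind_neg h]; exact zero_le_one

section
variable {X : Type} [AddCommGroup X] [Module (ZMod 2) X]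

theorem X_self (x : X) : x + x = 0 := by
  have : x + x = (2 : ZMod 2) • x := (two_smul _ x).symm
  rw [this, show (2 : ZMod 2) = 0 from rfl, zero_smul]

/-- the kernel of the restriction of `B` to `U` -/
def kr (B : LinearMap.BilinForm (ZMod 2) X) (U : Submodule (ZMod 2) X) : Submodule (ZMod 2) X where
  carrier := {u | u ∈ U ∧ ∀ v ∈ U, B u v = 0}
  add_mem' := by
    rintro u u' ⟨h1, h2⟩ ⟨h3, h4⟩
    refine ⟨U.add_mem h1 h3, fun v hv => ?_⟩
    rw [map_add, LinearMap.add_apply, h2 v hv, h4 v hv, add_zero]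
  zero_mem' := ⟨U.zero_mem, fun v _ => by rw [map_zero, LinearMap.zero_apply]⟩
  smul_mem' := by
    rintro c u ⟨h1, h2⟩
    refine ⟨U.smul_mem c h1, fun v hv => ?_⟩
    rw [map_smul, LinearMap.smul_apply, h2 v hv, smul_zero]

/-- its dimension -/
noncomputable def rho (B : LinearMap.BilinForm (ZMod 2) X) (U : Submodule (ZMod 2) X) : ℕ :=
  finrank (ZMod 2) (kr B U)

/-- one more vector -/
def ex (U : Submodule (ZMod 2) X) (e : X) : Submodule (ZMod 2) X := U ⊔ Submodule.span (ZMod 2) {e}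

theorem mem_kr {B : LinearMap.BilinForm (ZMod 2) X} {U : Submodule (ZMod 2) X} {u : X} :
    u ∈ kr B U ↔ u ∈ U ∧ ∀ v ∈ U, B u v = 0 := Iff.rfl

theorem mem_ex {U : Submodule (ZMod 2) X} {e x : X} : x ∈ ex U e ↔ x ∈ U ∨ x + e ∈ U := by
  rw [ex, Submodule.mem_sup]
  constructor
  · rintro ⟨u, hu, v, hv, rfl⟩
    obtain ⟨c, rfl⟩ := Submodule.mem_span_singleton.1 hv
    rcases F2c c with rfl | rfl
    · left
      rw [zero_smul, add_zero]
      exact hu
    · right
      rw [one_smul, add_assoc, X_self, add_zero]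
      exact hu
  · rintro (h | h)
    · exact ⟨x, h, 0, Submodule.zero_mem _, add_zero x⟩
    · refine ⟨x + e, h, e, Submodule.mem_span_singleton_self e, ?_⟩
      rw [add_assoc, X_self, add_zero]

theorem ex_le {U : Submodule (ZMod 2) X} {e : X} {u : X} (h : u ∈ U) : u ∈ ex U e :=
  mem_ex.2 (Or.inl h)

theorem self_ex {U : Submodule (ZMod 2) X} {e : X} : e ∈ ex U e :=
  mem_ex.2 (Or.inr (by rw [X_self]; exact U.zero_mem))

variable [FiniteDimensional (ZMod 2) X]

/-- the dimension of the kernel of a functional which is not zero -/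
theorem fin_ker {K K' : Submodule (ZMod 2) X} (φ : X →ₗ[ZMod 2] ZMod 2)
    (hK : ∀ x, x ∈ K' ↔ x ∈ K ∧ φ x = 0) (hne : ∃ x ∈ K, φ x ≠ 0) :
    finrank (ZMod 2) K' + 1 = finrank (ZMod 2) K := by
  have h1 := LinearMap.finrank_range_add_finrank_ker (φ.domRestrict K)
  have h2 : finrank (ZMod 2) (LinearMap.range (φ.domRestrict K)) = 1 := by
    have : LinearMap.range (φ.domRestrict K) = ⊤ := by
      rw [LinearMap.range_eq_top]
      intro c
      obtain ⟨x, hx, hxne⟩ := hne
      rcases F2c c with rfl | rfl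
      · exact ⟨0, map_zero _⟩
      · exact ⟨⟨x, hx⟩, F2n hxne⟩
    rw [this, finrank_top, finrank_self]
  have h3 : finrank (ZMod 2) (LinearMap.ker (φ.domRestrict K)) = finrank (ZMod 2) K' := by
    refine LinearEquiv.finrank_eq (LinearEquiv.ofBijective
      (LinearMap.codRestrict K' (K.subtype.comp (LinearMap.ker (φ.domRestrict K)).subtype) ?_) ?_)
    · rintro ⟨⟨x, hx⟩, hxk⟩
      exact (hK x).2 ⟨hx, LinearMap.mem_ker.1 hxk⟩
    · constructor
      · rintro ⟨⟨x, hx⟩, hxk⟩ ⟨⟨y, hy⟩, hyk⟩ h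
        have h' : x = y := congrArg Subtype.val h
        subst h'
        rfl
      · rintro ⟨x, hx⟩
        exact ⟨⟨⟨x, ((hK x).1 hx).1⟩, LinearMap.mem_ker.2 ((hK x).1 hx).2⟩, rfl⟩
  rw [h2, h3] at h1
  omega

/-- a functional which vanishes on the kernel is represented -/
theorem repr_fun {B : LinearMap.BilinForm (ZMod 2) X} {U : Submodule (ZMod 2) X}
    (φ : X →ₗ[ZMod 2] ZMod 2) (h : ∀ u ∈ kr B U, φ u = 0) : ∃ w ∈ U, ∀ u ∈ U, B u w = φ u := by
  -- the restricted form as a map to the dual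
  set f : U →ₗ[ZMod 2] Dual (ZMod 2) U :=
    ((LinearMap.lcomp (ZMod 2) (ZMod 2) U.subtype).comp B).comp U.subtype with hf
  have hfa : ∀ u v : U, f u v = B u.1 v.1 := fun u v => rfl
  have h1 : φ.comp U.subtype ∈ LinearMap.range f.dualMap := by
    rw [LinearMap.range_dualMap_eq_dualAnnihilator_ker, Submodule.mem_dualAnnihilator]
    rintro ⟨u, hu⟩ huk
    apply h
    refine mem_kr.2 ⟨hu, fun v hv => ?_⟩
    have := LinearMap.congr_fun (LinearMap.mem_ker.1 huk) ⟨v, hv⟩
    exact this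
  obtain ⟨Θ, hΘ⟩ := h1
  obtain ⟨w, rfl⟩ := (Module.evalEquiv (ZMod 2) U).surjective Θ
  refine ⟨w.1, w.2, fun u hu => ?_⟩
  have := LinearMap.congr_fun hΘ ⟨u, hu⟩
  rw [LinearMap.dualMap_apply] at this
  exact this

variable {B : LinearMap.BilinForm (ZMod 2) X} (hs : ∀ u v, B u v = B v u)
  {U : Submodule (ZMod 2) X} {e : X} {φ : X →ₗ[ZMod 2] ZMod 2} (hU : ∀ u ∈ U, φ u = 0) (he : φ e = 1)

include hs in
/-- the new vector is not orthogonal to the kernel: the kernel -/
theorem kr_down {κ : X} (hκ : κ ∈ kr B U) (hne : B κ e ≠ 0) (x : X) :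
    x ∈ kr B (ex U e) ↔ x ∈ kr B U ∧ B x e = 0 := by
  constructor
  · rintro ⟨h1, h2⟩
    have hx : x ∈ U := by
      rcases mem_ex.1 h1 with h | h
      · exact h
      · exfalso
        have h3 := h2 κ (ex_le hκ.1)
        have h4 : B κ (x + e) = 0 := hκ.2 _ h
        rw [map_add] at h4
        rw [hs] at h3
        rw [h3, zero_add] at h4
        exact hne h4
    exact ⟨⟨hx, fun v hv => h2 v (ex_le hv)⟩, h2 e self_ex⟩
  · rintro ⟨⟨h1, h2⟩, h3⟩
    refine ⟨ex_le h1, fun v hv => ?_⟩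
    rcases mem_ex.1 hv with h | h
    · exact h2 v h
    · have h4 := h2 _ h
      rw [map_add, h3, add_zero] at h4
      exact h4

include hs in
theorem rho_down {κ : X} (hκ : κ ∈ kr B U) (hne : B κ e ≠ 0) : rho B (ex U e) + 1 = rho B U := by
  refine fin_ker (B.flip e) (fun x => ?_) ⟨κ, hκ, hne⟩
  exact kr_down hs hκ hne x

include hs hU he in
/-- the new vector is orthogonal to the kernel -/
theorem kr_up {z : X} (hz : z ∈ U) (hd : ∀ u, B u u = B u z) (h0 : ∀ κ ∈ kr B U, B κ e = 0) :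
    ∃ w ∈ U, w + e ∈ kr B (ex U e) ∧ (∀ x, x ∈ kr B U ↔ x ∈ kr B (ex U e) ∧ φ x = 0) := by
  obtain ⟨w, hw, hwe⟩ := repr_fun (B := B) (U := U) (B.flip e) h0
  have hwe' : ∀ u ∈ U, B u w = B u e := hwe
  have hk : w + e ∈ kr B (ex U e) := by
    refine ⟨mem_ex.2 (Or.inr (by rw [add_assoc, X_self, add_zero]; exact hw)), ?_⟩
    have key : ∀ u ∈ U, B (w + e) u = 0 := by
      intro u hu
      rw [hs, map_add, hwe' u hu, F2s]
    have key2 : B (w + e) e = 0 := by
      rw [hs, map_add, hd e]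
      have h1 : B e z = B w z := by rw [hs e z, ← hwe' z hz, hs]
      rw [h1, ← hd w, hs e w, ← hwe' w hw, F2s]
    intro v hv
    rcases mem_ex.1 hv with h | h
    · exact key v h
    · have h4 := key _ h
      rw [map_add, key2, add_zero] at h4
      exact h4
  refine ⟨w, hw, hk, fun x => ⟨?_, ?_⟩⟩
  · rintro ⟨h1, h2⟩
    refine ⟨⟨ex_le h1, fun v hv => ?_⟩, hU x h1⟩
    rcases mem_ex.1 hv with h | h
    · exact h2 v h
    · have h4 := h2 _ h
      rw [map_add, h0 x ⟨h1, h2⟩, add_zero] at h4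
      exact h4
  · rintro ⟨⟨h1, h2⟩, h3⟩
    have hx : x ∈ U := by
      rcases mem_ex.1 h1 with h | h
      · exact h
      · exfalso
        have h4 := hU _ h
        rw [map_add, h3, he, zero_add] at h4
        exact one_ne_zero h4
    exact ⟨hx, fun v hv => h2 v (ex_le hv)⟩

include hs hU he in
theorem rho_up {z : X} (hz : z ∈ U) (hd : ∀ u, B u u = B u z) (h0 : ∀ κ ∈ kr B U, B κ e = 0) :
    rho B (ex U e) = rho B U + 1 := by
  obtain ⟨w, hw, hk, hiff⟩ := kr_up hs hU he hz hd h0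
  refine (fin_ker φ hiff ⟨w + e, hk, ?_⟩).symm
  rw [map_add, hU w hw, he, zero_add]
  exact one_ne_zero

end

end Pool.Agent.V8H26.XL
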