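import Pool.Agent.V8H26.XL.Trv
import Pool.Agent.Y164.PS.Fin

/-!
# Symbols of large primes are equidistributed in a cell
-/

set_option autoImplicit false
set_option linter.all false

namespace Pool.Agent.V8H26.XL

open Finset Polynomial Pool.Agent.H341R2.Sharp
open Pool.Agent.Y164.PS (W Dat V sg sg_add sg_zero sg_one abs_sg L L_comm L_of_not_coprime AT BT AT_comm
  ok cl Cell prod_not_sq coprime_of_not_dvd L_prod_left sg_L sg_sum abs_lam_le sum_update)
open scoped Classical

section
variable {k : Type} [Field k] [Fintype k] [DecidableEq k]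
variable {ι τ : Type} [Fintype ι] [Fintype τ]

/-- the array of symbols -/
noncomputable def arr (hm : IsSquare (-1 : k)) (Q : τ → k[X]) (T : ι → k[X]) : Arr ι τ where
  A := AT T
  B := BT Q T
  symm := AT_comm hm T

/-- the symbols of the prime `p` -/
noncomputable def vp (Q : τ → k[X]) (T : ι → k[X]) (j : ι) (p : k[X]) (x : ι ⊕ τ) : ZMod 2 :=
  if x = Sum.inl j then 0 else L (Sum.elim T Q x) p

theorem arr_update (hm : IsSquare (-1 : k)) (Q : τ → k[X]) (T : ι → k[X]) (j : ι) {p : k[X]}
    (hp : Irreducible p) :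
    arr hm Q (Function.update T j p) = rep j (vp Q T j p) (arr hm Q T) := by
  have hne : ∀ i, i ≠ j → Function.update T j p i = T i := fun i hi => Function.update_of_ne hi _ _
  have hself : Function.update T j p j = p := Function.update_self _ _ _
  have hv : ∀ i, i ≠ j → vp Q T j p (Sum.inl i) = L (T i) p := fun i hi => by
    rw [vp, if_neg (fun h => hi (Sum.inl_injective h))]
    rfl
  have hpp : L p p = 0 := L_of_not_coprime hp.ne_zero fun h => by
    rw [isCoprime_self] at h
    exact hp.not_isUnit h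
  ext i i'
  · show L (Function.update T j p i) (Function.update T j p i') = (if i = j then
      (if i' = j then 0 else vp Q T j p (Sum.inl i')) else
      if i' = j then vp Q T j p (Sum.inl i) else L (T i) (T i'))
    by_cases h : i = j
    · by_cases h' : i' = j
      · rw [if_pos h, if_pos h', h, h', hself, hpp]
      · rw [if_pos h, if_neg h', h, hself, hne i' h', hv i' h', L_comm hm]
    · by_cases h' : i' = j
      · rw [if_neg h, if_pos h', h', hself, hne i h, hv i h]
      · rw [if_neg h, if_neg h', hne i h, hne i' h']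
  · show L (Function.update T j p i) (Q i') = (if i = j then vp Q T j p (Sum.inr i') else L (T i) (Q i'))
    by_cases h : i = j
    · rw [if_pos h, h, hself, vp, if_neg (by simp), L_comm hm]
      rfl
    · rw [if_neg h, hne i h]

variable {D : Dat τ} {Q : τ → k[X]} {𝒞 : ι → Finset k[X]} {lg : Finset ι} {Nd : ℕ}
  {η : ℝ} (hc : Cell D Q 𝒞 lg Nd η)

include hc in
theorem char_bound {T : ι → k[X]} (hT : T ∈ Fintype.piFinset 𝒞) {j : ι} (hj : j ∈ lg)
    {S : Finset (ι ⊕ τ)} (hSj : ∀ x ∈ S, x ≠ Sum.inl j) (hSne : S.Nonempty) :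
    |∑ p ∈ 𝒞 j, (if ok Q (Function.update T j p) then
      ∏ x ∈ S, sg (L (Sum.elim T Q x) p) else 0)| ≤ η * (𝒞 j).card := by
  have hTm : ∀ i, T i ∈ 𝒞 i := Fintype.mem_piFinset.1 hT
  by_cases hok : ∃ p0 ∈ 𝒞 j, ok Q (Function.update T j p0)
  swap
  · push Not at hok
    rw [sum_eq_zero (fun p hp => if_neg (hok p hp)), abs_zero]
    exact mul_nonneg hc.eta0 (Nat.cast_nonneg _)
  obtain ⟨p0, hp0, hok0⟩ := hok
  set R : ι ⊕ τ → k[X] := Sum.elim T Q with hR
  have hRm : ∀ x, (R x).Monic := by
    rintro (i | s)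
    · exact hc.mon i _ (hTm i)
    · exact hc.Qm s
  have hRi : ∀ x, Irreducible (R x) := by
    rintro (i | s)
    · exact hc.irr i _ (hTm i)
    · exact hc.Qi s
  have hup : ∀ p, ∀ x, x ≠ Sum.inl j → Sum.elim (Function.update T j p) Q x = R x := by
    rintro p (i | s) hx
    · have : i ≠ j := fun h => hx (by rw [h])
      show Function.update T j p i = T i
      exact Function.update_of_ne this _ _
    · rfl
  have hupj : ∀ p, Sum.elim (Function.update T j p) Q (Sum.inl j) = p := fun p => by
    show Function.update T j p j = p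
    exact Function.update_self _ _ _
  have hinj : ∀ x y, x ≠ Sum.inl j → y ≠ Sum.inl j → R x = R y → x = y := by
    intro x y hx hy h
    apply hok0
    rw [hup p0 x hx, hup p0 y hy, h]
  set E : Finset k[X] := (univ.erase (Sum.inl j)).image R with hE
  have hokp : ∀ p, ok Q (Function.update T j p) ↔ p ∉ E := by
    intro p
    constructor
    · intro h hp
      rw [hE, mem_image] at hp
      obtain ⟨x, hx, hxp⟩ := hp
      have hx' := ne_of_mem_erase hx
      apply hx'
      apply h
      rw [hup p x hx', hupj, hxp]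
    · intro hp x y hxy
      by_cases hx : x = Sum.inl j
      · by_cases hy : y = Sum.inl j
        · rw [hx, hy]
        · exfalso
          apply hp
          rw [hx, hupj, hup p y hy] at hxy
          rw [hE, mem_image]
          exact ⟨y, mem_erase.2 ⟨hy, mem_univ _⟩, hxy.symm⟩
      · by_cases hy : y = Sum.inl j
        · exfalso
          apply hp
          rw [hy, hupj, hup p x hx] at hxy
          rw [hE, mem_image]
          exact ⟨x, mem_erase.2 ⟨hx, mem_univ _⟩, hxy⟩
        · rw [hup p x hx, hup p y hy] at hxy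
          exact hinj x y hx hy hxy
  set M : k[X] := ∏ x ∈ S, R x with hM
  have hMm : M.Monic := monic_prod_of_monic _ _ fun x _ => hRm x
  have hMns : ∀ (c : k) (h : k[X]), M ≠ C c * h ^ 2 := fun c h =>
    prod_not_sq S hSne R (fun x _ => hRm x) (fun x _ => hRi x)
      (fun x hx y hy => hinj x y (hSj x hx) (hSj y hy)) c h
  have hMd : M.natDegree = ∑ x ∈ S, (R x).natDegree := natDegree_prod_of_monic _ _ fun x _ => hRm x
  have hM1 : 1 ≤ M.natDegree := by
    obtain ⟨x, hx⟩ := hSne
    rw [hMd]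
    calc 1 ≤ (R x).natDegree := (hRi x).natDegree_pos
      _ ≤ _ := single_le_sum (f := fun x => (R x).natDegree) (fun _ _ => Nat.zero_le _) hx
  have hMN : M.natDegree ≤ Nd := by
    rw [hMd]
    calc ∑ x ∈ S, (R x).natDegree ≤ ∑ x, (R x).natDegree :=
          sum_le_sum_of_subset (subset_univ _)
      _ = ∑ i, (T i).natDegree + ∑ s, (Q s).natDegree := by
          rw [Fintype.sum_sum_type]; rfl
      _ ≤ Nd := hc.deg T hT
  have hval : ∀ p ∈ 𝒞 j, p ∉ E → ∏ x ∈ S, sg (L (R x) p) = (lam M p : ℝ) := by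
    intro p hp hpE
    have hpi := hc.irr j p hp
    have hpm := hc.mon j p hp
    have hcop : ∀ x ∈ S, IsCoprime (R x) p := by
      intro x hx
      apply coprime_of_not_dvd hpi
      intro hd
      apply hpE
      rw [hE, mem_image]
      refine ⟨x, mem_erase.2 ⟨hSj x hx, mem_univ _⟩, ?_⟩
      exact (eq_of_monic_of_associated hpm (hRm x) (hpi.associated_of_dvd (hRi x) hd)).symm
    rw [← sg_sum, ← L_prod_left hpi.ne_zero (fun x _ => (hRm x).ne_zero) hcop,
      sg_L hpi.ne_zero (IsCoprime.prod_left hcop)]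
  have h1 : ∑ p ∈ 𝒞 j, (if ok Q (Function.update T j p) then
      ∏ x ∈ S, sg (L (R x) p) else 0) =
      ∑ p ∈ 𝒞 j, (lam M p : ℝ) - ∑ p ∈ (𝒞 j).filter (fun p => p ∈ E), (lam M p : ℝ) := by
    rw [sum_filter, ← sum_sub_distrib]
    refine sum_congr rfl fun p hp => ?_
    by_cases hpE : p ∈ E
    · rw [if_neg (fun h => (hokp p).1 h hpE), if_pos hpE, sub_self]
    · rw [if_pos ((hokp p).2 hpE), if_neg hpE, hval p hp hpE, sub_zero]
  rw [h1]
  refine (abs_sub _ _).trans (le_trans ?_ (hc.eta j hj M hMm hM1 hMN hMns))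
  apply add_le_add le_rfl
  refine (abs_sum_le_sum_abs _ _).trans ?_
  calc ∑ p ∈ (𝒞 j).filter (fun p => p ∈ E), |(lam M p : ℝ)|
      ≤ ∑ p ∈ (𝒞 j).filter (fun p => p ∈ E), (1 : ℝ) := sum_le_sum fun p _ => abs_lam_le _ _
    _ = (((𝒞 j).filter (fun p => p ∈ E)).card : ℝ) := by simp
    _ ≤ ((univ : Finset (ι ⊕ τ)).card : ℝ) := by
        have h2 : ((𝒞 j).filter (fun p => p ∈ E)).card ≤ E.card :=
          card_le_card fun p hp => (mem_filter.1 hp).2
        have h3 : E.card ≤ (univ : Finset (ι ⊕ τ)).card :=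
          card_image_le.trans (card_le_card (erase_subset _ _))
        exact_mod_cast h2.trans h3
    _ = _ := by
        rw [card_univ, Fintype.card_sum]
        push_cast
        rfl

/-- the factors -/
noncomputable def cx (j : ι) (v w : ι ⊕ τ → ZMod 2) (x : ι ⊕ τ) : ℝ :=
  if x = Sum.inl j then 0 else sg (v x + w x)

theorem rep_inl (j : ι) (v : ι ⊕ τ → ZMod 2) (a : Arr ι τ) :
    rep j (v + Pi.single (Sum.inl j) 1) a = rep j v a := by
  have h1 : ∀ i, i ≠ j → (v + (Pi.single (Sum.inl j) 1 : ι ⊕ τ → ZMod 2)) (Sum.inl i) =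
      v (Sum.inl i) := by
    intro i hi
    rw [Pi.add_apply, Pi.single_eq_of_ne (fun h => hi (Sum.inl_injective h)), add_zero]
  have h2 : ∀ s, (v + (Pi.single (Sum.inl j) 1 : ι ⊕ τ → ZMod 2)) (Sum.inr s) = v (Sum.inr s) := by
    intro s
    rw [Pi.add_apply, Pi.single_eq_of_ne (by simp), add_zero]
  ext i i'
  · show (if i = j then (if i' = j then 0 else
      (v + (Pi.single (Sum.inl j) 1 : ι ⊕ τ → ZMod 2)) (Sum.inl i')) else
      if i' = j then (v + (Pi.single (Sum.inl j) 1 : ι ⊕ τ → ZMod 2)) (Sum.inl i) else a.A i i') =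
      (if i = j then (if i' = j then 0 else v (Sum.inl i')) else
      if i' = j then v (Sum.inl i) else a.A i i')
    by_cases h : i = j
    · by_cases h' : i' = j
      · rw [if_pos h, if_pos h, if_pos h', if_pos h']
      · rw [if_pos h, if_pos h, if_neg h', if_neg h', h1 i' h']
    · by_cases h' : i' = j
      · rw [if_neg h, if_neg h, if_pos h', if_pos h', h1 i h]
      · rw [if_neg h, if_neg h, if_neg h', if_neg h']
  · show (if i = j then (v + (Pi.single (Sum.inl j) 1 : ι ⊕ τ → ZMod 2)) (Sum.inr i') else a.B i i') =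
      (if i = j then v (Sum.inr i') else a.B i i')
    rw [h2]

theorem expand_rep (j : ι) (Φ : Arr ι τ → ℝ) (a : Arr ι τ) (w : ι ⊕ τ → ZMod 2) :
    av (fun v : ι ⊕ τ → ZMod 2 => Φ (rep j v a) * ∏ x, (1 + cx j v w x)) = Φ (rep j w a) := by
  rw [← av_shift w]
  have h1 : ∀ v : ι ⊕ τ → ZMod 2, ∏ x, (1 + cx j (v + w) w x) =
      2 ^ (Fintype.card ι + Fintype.card τ) * (1 / 2) *
        (ind (v = 0) + ind (v = Pi.single (Sum.inl j) 1)) := by
    intro v
    have h2 : ∀ x, cx j (v + w) w x = if x = Sum.inl j then 0 else sg (v x) := by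
      intro x
      rw [cx, Pi.add_apply, add_assoc, F2s, add_zero]
    rw [← mul_prod_erase univ _ (mem_univ (Sum.inl j : ι ⊕ τ)), h2, if_pos rfl, add_zero, one_mul]
    by_cases h3 : ∀ x, x ≠ Sum.inl j → v x = 0
    · have h4 : ∏ x ∈ univ.erase (Sum.inl j : ι ⊕ τ), (1 + cx j (v + w) w x) =
          ∏ x ∈ univ.erase (Sum.inl j : ι ⊕ τ), (2 : ℝ) := by
        refine prod_congr rfl fun x hx => ?_
        rw [h2, if_neg (ne_of_mem_erase hx), h3 x (ne_of_mem_erase hx), sg_zero]
        norm_num
      have h5 : (univ.erase (Sum.inl j : ι ⊕ τ)).card + 1 = Fintype.card ι + Fintype.card τ := by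
        rw [card_erase_add_one (mem_univ _), card_univ, Fintype.card_sum]
      have h6 : ind (v = 0) + ind (v = Pi.single (Sum.inl j) 1) = 1 := by
        rcases F2c (v (Sum.inl j)) with h | h
        · have h7 : v = 0 := by
            funext x
            by_cases hx : x = Sum.inl j
            · rw [hx, h]; rfl
            · exact h3 x hx
          rw [ind_pos h7, ind_neg, add_zero]
          intro h8
          rw [h8, Pi.single_eq_same] at h
          exact one_ne_zero h
        · have h7 : v = Pi.single (Sum.inl j) 1 := by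
            funext x
            by_cases hx : x = Sum.inl j
            · rw [hx, h, Pi.single_eq_same]
            · rw [h3 x hx, Pi.single_eq_of_ne hx]
          rw [ind_pos h7, ind_neg, zero_add]
          intro h8
          rw [h8] at h
          exact zero_ne_one h
      rw [h4, prod_const, h6, mul_one, ← h5, pow_succ]
      ring
    · push Not at h3
      obtain ⟨x, hx, hne⟩ := h3
      rw [prod_eq_zero (mem_erase.2 ⟨hx, mem_univ x⟩), ind_neg, ind_neg]
      · ring
      · intro h
        rw [h, Pi.single_eq_of_ne hx] at hne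
        exact hne rfl
      · intro h
        rw [h] at hne
        exact hne rfl
      · rw [h2, if_neg hx, F2n hne, sg_one]
        norm_num
  have h2 : ∀ v : ι ⊕ τ → ZMod 2, Φ (rep j (v + w) a) * ∏ x, (1 + cx j (v + w) w x) =
      2 ^ (Fintype.card ι + Fintype.card τ) * (1 / 2) * Φ (rep j w a) *
        (ind (v = 0) + ind (v = Pi.single (Sum.inl j) 1)) := by
    intro v
    rw [h1]
    by_cases h3 : v = 0
    · rw [h3, zero_add]
      ring
    · by_cases h4 : v = Pi.single (Sum.inl j) 1
      · rw [h4, add_comm _ w, rep_inl]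
        ring
      · rw [ind_neg h3, ind_neg h4]
        ring
  rw [av_congr h2, av_mul, av_add, av_point, av_point, Fintype.card_sum]
  field_simp
  ring

include hc in
/-- one prime -/
theorem hyb_inner {Φ : Arr ι τ → ℝ} (hΦ : ∀ a, |Φ a| ≤ 1) {T : ι → k[X]}
    (hT : T ∈ Fintype.piFinset 𝒞) {j : ι} (hj : j ∈ lg) :
    |∑ p ∈ 𝒞 j, (if ok Q (Function.update T j p) then
      (Φ (arr hc.hm Q (Function.update T j p)) - Mop j Φ (arr hc.hm Q T)) else 0)| ≤
      2 ^ (Fintype.card ι + Fintype.card τ) * (η * (𝒞 j).card) := by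
  set a := arr hc.hm Q T with ha
  have hη := hc.eta0
  have h1 : ∀ p ∈ 𝒞 j, Φ (arr hc.hm Q (Function.update T j p)) - Mop j Φ a =
      av (fun v : ι ⊕ τ → ZMod 2 => Φ (rep j v a) *
        ∑ S ∈ (univ : Finset (ι ⊕ τ)).powerset.erase ∅, ∏ x ∈ S, cx j v (vp Q T j p) x) := by
    intro p hp
    rw [arr_update hc.hm Q T j (hc.irr j p hp), ← ha, ← expand_rep j Φ a (vp Q T j p), Mop, ← av_sub]
    refine av_congr fun v => ?_
    rw [prod_one_add, ← add_sum_erase _ _ (empty_mem_powerset _), prod_empty]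
    ring
  have h2 : ∑ p ∈ 𝒞 j, (if ok Q (Function.update T j p) then
      (Φ (arr hc.hm Q (Function.update T j p)) - Mop j Φ a) else 0) =
      av (fun v : ι ⊕ τ → ZMod 2 => Φ (rep j v a) *
        ∑ S ∈ (univ : Finset (ι ⊕ τ)).powerset.erase ∅, ∑ p ∈ 𝒞 j,
          (if ok Q (Function.update T j p) then ∏ x ∈ S, cx j v (vp Q T j p) x else 0)) := by
    have h3 : ∀ p ∈ 𝒞 j, (if ok Q (Function.update T j p) then
        (Φ (arr hc.hm Q (Function.update T j p)) - Mop j Φ a) else 0) =
        av (fun v : ι ⊕ τ → ZMod 2 => Φ (rep j v a) *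
        ∑ S ∈ (univ : Finset (ι ⊕ τ)).powerset.erase ∅,
          (if ok Q (Function.update T j p) then ∏ x ∈ S, cx j v (vp Q T j p) x else 0)) := by
      intro p hp
      split_ifs with h
      · exact h1 p hp
      · simp only [sum_const_zero, mul_zero]
        exact (av_const 0).symm
    rw [sum_congr rfl h3, ← av_sum]
    refine av_congr fun v => ?_
    rw [← mul_sum, sum_comm]
  rw [h2]
  have h3 : ∀ v : ι ⊕ τ → ZMod 2, |Φ (rep j v a) *
        ∑ S ∈ (univ : Finset (ι ⊕ τ)).powerset.erase ∅, ∑ p ∈ 𝒞 j,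
          (if ok Q (Function.update T j p) then ∏ x ∈ S, cx j v (vp Q T j p) x else 0)| ≤
        2 ^ (Fintype.card ι + Fintype.card τ) * (η * (𝒞 j).card) := by
    intro v
    rw [abs_mul]
    have h4 : |∑ S ∈ (univ : Finset (ι ⊕ τ)).powerset.erase ∅, ∑ p ∈ 𝒞 j,
          (if ok Q (Function.update T j p) then ∏ x ∈ S, cx j v (vp Q T j p) x else 0)| ≤
        2 ^ (Fintype.card ι + Fintype.card τ) * (η * (𝒞 j).card) := by
      refine (abs_sum_le_sum_abs _ _).trans ?_
      have h5 : ∀ S ∈ (univ : Finset (ι ⊕ τ)).powerset.erase ∅, |∑ p ∈ 𝒞 j,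
          (if ok Q (Function.update T j p) then ∏ x ∈ S, cx j v (vp Q T j p) x else 0)| ≤
          η * (𝒞 j).card := by
        intro S hS
        have hSne : S.Nonempty := nonempty_iff_ne_empty.2 (ne_of_mem_erase hS)
        by_cases hSj : ∀ x ∈ S, x ≠ Sum.inl j
        · have h6 : ∀ p ∈ 𝒞 j,
              (if ok Q (Function.update T j p) then ∏ x ∈ S, cx j v (vp Q T j p) x else 0) =
              (∏ x ∈ S, sg (v x)) * (if ok Q (Function.update T j p) then
                ∏ x ∈ S, sg (L (Sum.elim T Q x) p) else 0) := by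
            intro p _
            split_ifs
            · rw [← prod_mul_distrib]
              refine prod_congr rfl fun x hx => ?_
              rw [cx, if_neg (hSj x hx), vp, if_neg (hSj x hx), sg_add]
            · rw [mul_zero]
          rw [sum_congr rfl h6, ← mul_sum, abs_mul, abs_prod,
            prod_congr rfl fun x _ => abs_sg (v x), prod_const_one, one_mul]
          exact char_bound hc hT hj hSj hSne
        · push Not at hSj
          obtain ⟨x, hx, hxj⟩ := hSj
          have h6 : ∀ p ∈ 𝒞 j,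
              (if ok Q (Function.update T j p) then ∏ x ∈ S, cx j v (vp Q T j p) x else 0) = 0 := by
            intro p _
            split_ifs
            · exact prod_eq_zero hx (by rw [cx, if_pos hxj])
            · rfl
          rw [sum_eq_zero h6, abs_zero]
          exact mul_nonneg hη (Nat.cast_nonneg _)
      refine (sum_le_sum h5).trans ?_
      rw [sum_const, nsmul_eq_mul]
      apply mul_le_mul_of_nonneg_right _ (mul_nonneg hη (Nat.cast_nonneg _))
      have h6 : ((univ : Finset (ι ⊕ τ)).powerset.erase ∅).card ≤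
          2 ^ (Fintype.card ι + Fintype.card τ) := by
        refine (card_le_card (erase_subset _ _)).trans (le_of_eq ?_)
        rw [card_powerset, card_univ, Fintype.card_sum]
      exact_mod_cast h6
    calc |Φ (rep j v a)| * _ ≤ 1 * _ := mul_le_mul_of_nonneg_right (hΦ _) (abs_nonneg _)
      _ ≤ _ := by rw [one_mul]; exact h4
  exact (abs_av_le (g := fun _ => 2 ^ (Fintype.card ι + Fintype.card τ) * (η * (𝒞 j).card)) h3).trans
    (le_of_eq (av_const _))

include hc in
/-- one index -/
theorem hyb_one {Φ : Arr ι τ → ℝ} (hΦ : ∀ a, |Φ a| ≤ 1) {j : ι} (hj : j ∈ lg) :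
    |∑ T ∈ Fintype.piFinset 𝒞, (if ok Q T then
      (Φ (arr hc.hm Q T) - Mop j Φ (arr hc.hm Q T)) else 0)| ≤
      2 ^ (Fintype.card ι + Fintype.card τ) * (η * (Fintype.piFinset 𝒞).card) := by
  rcases (𝒞 j).eq_empty_or_nonempty with he | hne
  · have : Fintype.piFinset 𝒞 = ∅ := by
      rw [Fintype.piFinset_eq_empty]
      exact ⟨j, he⟩
    rw [this]
    simp
  · have hpos : (0 : ℝ) < (𝒞 j).card := by exact_mod_cast card_pos.2 hne
    have h1 := sum_update 𝒞 j (fun T => if ok Q T then
      (Φ (arr hc.hm Q T) - Mop j Φ (arr hc.hm Q T)) else 0)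
    have h2 : |((𝒞 j).card : ℝ) * ∑ T ∈ Fintype.piFinset 𝒞, (if ok Q T then
        (Φ (arr hc.hm Q T) - Mop j Φ (arr hc.hm Q T)) else 0)|
        ≤ ∑ T ∈ Fintype.piFinset 𝒞, 2 ^ (Fintype.card ι + Fintype.card τ) * (η * (𝒞 j).card) := by
      rw [h1]
      refine (abs_sum_le_sum_abs _ _).trans (sum_le_sum fun T hT => ?_)
      have h3 : ∑ p ∈ 𝒞 j, (if ok Q (Function.update T j p) then
          (Φ (arr hc.hm Q (Function.update T j p)) -
            Mop j Φ (arr hc.hm Q (Function.update T j p))) else 0) =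
          ∑ p ∈ 𝒞 j, (if ok Q (Function.update T j p) then
          (Φ (arr hc.hm Q (Function.update T j p)) - Mop j Φ (arr hc.hm Q T)) else 0) := by
        refine sum_congr rfl fun p hp => ?_
        have h4 : Mop j Φ (arr hc.hm Q (Function.update T j p)) = Mop j Φ (arr hc.hm Q T) := by
          rw [arr_update hc.hm Q T j (hc.irr j p hp), Mop, Mop]
          exact av_congr fun v => by rw [rep_rep]
        rw [h4]
      rw [h3]
      exact hyb_inner hc hΦ hT hj
    rw [abs_mul, Nat.abs_cast, sum_const, nsmul_eq_mul] at h2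
    have h3 : ((𝒞 j).card : ℝ) * |∑ T ∈ Fintype.piFinset 𝒞, (if ok Q T then
        (Φ (arr hc.hm Q T) - Mop j Φ (arr hc.hm Q T)) else 0)|
        ≤ (𝒞 j).card * (2 ^ (Fintype.card ι + Fintype.card τ) *
          (η * (Fintype.piFinset 𝒞).card)) := by
      linarith
    exact le_of_mul_le_mul_left h3 hpos

theorem Mop_abs {Φ : Arr ι τ → ℝ} (hΦ : ∀ a, |Φ a| ≤ 1) (j : ι) (a : Arr ι τ) :
    |Mop j Φ a| ≤ 1 :=
  (abs_av_le (g := fun _ => 1) fun v => hΦ _).trans (le_of_eq (av_const 1))

include hc in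
/-- **all large primes** -/
theorem hyb (l : List ι) : ∀ {Φ : Arr ι τ → ℝ}, (∀ a, |Φ a| ≤ 1) → (∀ j ∈ l, j ∈ lg) →
    |∑ T ∈ Fintype.piFinset 𝒞, (if ok Q T then
      (Φ (arr hc.hm Q T) - MM l Φ (arr hc.hm Q T)) else 0)| ≤
      l.length * (2 ^ (Fintype.card ι + Fintype.card τ) * (η * (Fintype.piFinset 𝒞).card)) := by
  induction l with
  | nil =>
    intro Φ _ _
    have : ∑ T ∈ Fintype.piFinset 𝒞, (if ok Q T then
      (Φ (arr hc.hm Q T) - MM [] Φ (arr hc.hm Q T)) else 0) = 0 := by
      refine sum_eq_zero fun T _ => ?_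
      show (if ok Q T then (Φ (arr hc.hm Q T) - Φ (arr hc.hm Q T)) else 0) = 0
      simp
    rw [this]
    simp
  | cons j l ih =>
    intro Φ hΦ hl
    have e1 := hyb_one hc hΦ (hl j (by simp))
    have e2 := ih (Φ := Mop j Φ) (Mop_abs hΦ j) fun i hi => hl i (List.mem_cons_of_mem _ hi)
    have e3 : ∑ T ∈ Fintype.piFinset 𝒞, (if ok Q T then
        (Φ (arr hc.hm Q T) - MM (j :: l) Φ (arr hc.hm Q T)) else 0) =
        ∑ T ∈ Fintype.piFinset 𝒞, (if ok Q T then
        (Φ (arr hc.hm Q T) - Mop j Φ (arr hc.hm Q T)) else 0) +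
        ∑ T ∈ Fintype.piFinset 𝒞, (if ok Q T then
        (Mop j Φ (arr hc.hm Q T) - MM l (Mop j Φ) (arr hc.hm Q T)) else 0) := by
      rw [← sum_add_distrib]
      refine sum_congr rfl fun T _ => ?_
      show (if ok Q T then (Φ (arr hc.hm Q T) - MM l (Mop j Φ) (arr hc.hm Q T)) else 0) = _
      split_ifs <;> ring
    rw [e3]
    refine (abs_add_le _ _).trans ?_
    rw [List.length_cons]
    push_cast
    linarith

end

end Pool.Agent.V8H26.XL
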