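import Pool.Agent.Y164.PS.Cls
import Pool.Agent.V8H26.XL.Bil

/-!
# Labels of pairs of kernel vectors
-/

set_option autoImplicit false
set_option linter.all false

namespace Pool.Agent.V8H26.XL

open Module Finset
open Pool.Agent.Y164.PS (W om om_add_left om_add_right om_comm om_self om_zero_left om_zero_right Oq ee
  om_smul_left om_smul_right eq_zero_of_om W_add_self)

/-- labels `((κ₁, w₁), (κ₂, w₂))` -/
abbrev Lb := (W × W) × (W × W)

/-- the polar form -/
def qf (x y : Lb) : ZMod 2 := om x.1.1 y.1.2 + om y.1.1 x.1.2 + om x.2.1 y.2.2 + om y.2.1 x.2.2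

theorem qf_comm (x y : Lb) : qf x y = qf y x := by unfold qf; ring

theorem qf_add_left (x x' y : Lb) : qf (x + x') y = qf x y + qf x' y := by
  simp only [qf, Prod.fst_add, Prod.snd_add, om_add_left, om_add_right]; ring

theorem qf_smul_left (c : ZMod 2) (x y : Lb) : qf (c • x) y = c * qf x y := by
  simp only [qf, Prod.smul_fst, Prod.smul_snd, om_smul_left, om_smul_right]; ring

theorem qf_add_right (x y y' : Lb) : qf x (y + y') = qf x y + qf x y' := by
  rw [qf_comm, qf_add_left, qf_comm y, qf_comm y']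

theorem qf_smul_right (c : ZMod 2) (x y : Lb) : qf x (c • y) = c * qf x y := by
  rw [qf_comm, qf_smul_left, qf_comm]

theorem qf_self (x : Lb) : qf x x = 0 := by
  unfold qf
  rw [F2s, zero_add, F2s]

/-- the polar form as a bilinear form -/
def qB : LinearMap.BilinForm (ZMod 2) Lb :=
  LinearMap.mk₂ (ZMod 2) qf qf_add_left qf_smul_left qf_add_right qf_smul_right

theorem qB_apply (x y : Lb) : qB x y = qf x y := rfl

theorem qB_refl : qB.IsRefl := fun x y h => by
  rw [qB_apply] at h ⊢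
  rw [qf_comm]
  exact h

theorem qB_top : qB.orthogonal ⊤ = ⊥ := by
  rw [eq_bot_iff]
  intro x hx
  have h : ∀ y : Lb, qf y x = 0 := fun y => hx y trivial
  have h1 : x.1.1 = 0 := eq_zero_of_om _ fun y => by
    have := h ((0, y), (0, 0))
    simp only [qf, om_zero_left, om_zero_right, zero_add, add_zero] at this
    exact this
  have h2 : x.1.2 = 0 := eq_zero_of_om _ fun y => by
    have := h ((y, 0), (0, 0))
    simp only [qf, om_zero_left, om_zero_right, zero_add, add_zero] at this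
    rw [om_comm]
    exact this
  have h3 : x.2.1 = 0 := eq_zero_of_om _ fun y => by
    have := h ((0, 0), (0, y))
    simp only [qf, om_zero_left, om_zero_right, zero_add, add_zero] at this
    exact this
  have h4 : x.2.2 = 0 := eq_zero_of_om _ fun y => by
    have := h ((0, 0), (y, 0))
    simp only [qf, om_zero_left, om_zero_right, zero_add, add_zero] at this
    rw [om_comm]
    exact this
  rw [Submodule.mem_bot]
  exact Prod.ext (Prod.ext h1 h2) (Prod.ext h3 h4)

theorem finrank_Lb : finrank (ZMod 2) Lb = 8 := by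
  simp [Lb, W, finrank_prod]

theorem finrank_orth (Z : Submodule (ZMod 2) Lb) :
    finrank (ZMod 2) Z + finrank (ZMod 2) (qB.orthogonal Z) = 8 := by
  have h := LinearMap.BilinForm.finrank_add_finrank_orthogonal qB_refl Z
  rw [qB_top, inf_bot_eq, finrank_bot, add_zero, finrank_Lb] at h
  exact h

/-- the function of the bad prime of type `t` -/
def bet (t : W) (σ₁ ν₁ σ₂ ν₂ : ZMod 2) (x : Lb) : ZMod 2 := ee t σ₁ ν₁ x.1 + ee t σ₂ ν₂ x.2

/-- the operator `v ↦ om v t • t` on all components -/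
def Tt (t : W) (x : Lb) : Lb :=
  ((om x.1.1 t • t, om x.1.2 t • t), (om x.2.1 t • t, om x.2.2 t • t))

theorem bet_polar (t : W) (σ₁ ν₁ σ₂ ν₂ : ZMod 2) (x y : Lb) :
    bet t σ₁ ν₁ σ₂ ν₂ (x + y) + bet t σ₁ ν₁ σ₂ ν₂ x + bet t σ₁ ν₁ σ₂ ν₂ y = qf x (Tt t y) := by
  simp only [bet, ee, qf, Tt, Prod.fst_add, Prod.snd_add, om_add_left, om_add_right, om_smul_left,
    om_smul_right]
  have e := om_comm t
  rw [e x.1.2, e y.1.2, e x.2.2, e y.2.2]
  have h : ∀ a : ZMod 2, a + a = 0 := F2s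
  linear_combination h (om x.1.1 t * om x.1.2 t + σ₁ * om x.1.2 t + ν₁ * om x.1.1 t +
    om y.1.1 t * om y.1.2 t + σ₁ * om y.1.2 t + ν₁ * om y.1.1 t +
    om x.2.1 t * om x.2.2 t + σ₂ * om x.2.2 t + ν₂ * om x.2.1 t +
    om y.2.1 t * om y.2.2 t + σ₂ * om y.2.2 t + ν₂ * om y.2.1 t)

theorem om_indep : ∀ u t t' : W, om u t = 0 → om u t' = 0 → om t t' ≠ 0 → u = 0 := by decide

/-- **few labels** -/
theorem few {τ : Type} {t : τ → W} (h2t : ∀ u : W, u ≠ 0 → ∃ s, om u (t s) ≠ 0) {X : Finset Lb}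
    (hq : ∀ x ∈ X, ∀ y ∈ X, qf x y = 0) {z : Lb} (hz : ∀ x ∈ X, qf x z = 0)
    (hz0 : z.1.1 ≠ 0 ∨ z.2.1 ≠ 0) (hrel : ∀ x ∈ X, x.1.1.2 = x.2.1.1)
    {σ₁ ν₁ σ₂ ν₂ : τ → ZMod 2} (hb : ∀ s, ∀ x ∈ X, bet (t s) (σ₁ s) (ν₁ s) (σ₂ s) (ν₂ s) x = 0) :
    X.card < 16 := by
  classical
  by_contra hlt
  push Not at hlt
  set Z : Submodule (ZMod 2) Lb := Submodule.span (ZMod 2) (X : Set Lb) with hZ
  have hXZ : ∀ x ∈ X, x ∈ Z := fun x hx => Submodule.subset_span hx
  -- the span is isotropic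
  have h1 : ∀ y, (∀ x ∈ X, qf x y = 0) → y ∈ qB.orthogonal Z := by
    intro y hy x hx
    rw [hZ] at hx
    show qf x y = 0
    induction hx using Submodule.span_induction with
    | mem x hx => exact hy x hx
    | zero => simp [qf, om_zero_left, om_zero_right]
    | add a b _ _ h1 h2 => rw [qf_add_left, h1, h2, add_zero]
    | smul c a _ h1 => rw [qf_smul_left, h1, mul_zero]
  have h2 : Z ≤ qB.orthogonal Z := by
    rw [hZ, Submodule.span_le]
    intro y hy
    exact h1 y fun x hx => hq x hx y hy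
  have h3 := finrank_orth Z
  have h4 := Submodule.finrank_mono h2
  have h5 : finrank (ZMod 2) Z ≤ 4 := by omega
  have h6 : Fintype.card Z = 2 ^ finrank (ZMod 2) Z := by
    have := Module.card_eq_pow_finrank (K := ZMod 2) (V := Z)
    rw [ZMod.card] at this
    exact this
  let inj : X → Z := fun x => ⟨x.1, hXZ x.1 x.2⟩
  have hinj : Function.Injective inj := by
    intro x y h
    have h' : (inj x).1 = (inj y).1 := by rw [h]
    exact Subtype.ext h'
  have h7 : X.card ≤ Fintype.card Z := by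
    rw [← Fintype.card_coe]
    exact Fintype.card_le_of_injective inj hinj
  have h8 : finrank (ZMod 2) Z = 4 := by
    by_contra hne
    have h9 : finrank (ZMod 2) Z ≤ 3 := by omega
    have h10 : (2 : ℕ) ^ finrank (ZMod 2) Z ≤ 2 ^ 3 := Nat.pow_le_pow_right (by norm_num) h9
    omega
  have h9 : Z = qB.orthogonal Z := Submodule.eq_of_le_of_finrank_eq h2 (by omega)
  -- all the elements of `Z` are in `X`
  have h10 : ∀ x ∈ Z, x ∈ X := by
    intro x hx
    have h11 : X.card = Fintype.card Z := by rw [h6, h8] at h7 ⊢; omega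
    have h12 : Function.Bijective inj := by
      rw [Fintype.bijective_iff_injective_and_card]
      exact ⟨hinj, by rw [Fintype.card_coe, h11]⟩
    obtain ⟨y, hy⟩ := h12.2 ⟨x, hx⟩
    have h13 : (inj y).1 = x := by rw [hy]
    rw [← h13]
    exact y.2
  have h11 : ∀ y, (∀ x ∈ X, qf x y = 0) → y ∈ Z := fun y hy => by rw [h9]; exact h1 y hy
  -- closed under the operators
  have h12 : ∀ s, ∀ y ∈ Z, Tt (t s) y ∈ Z := by
    intro s y hy
    apply h11
    intro x hx
    rw [← bet_polar (t s) (σ₁ s) (ν₁ s) (σ₂ s) (ν₂ s) x y, hb s x hx, hb s y (h10 y hy),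
      hb s (x + y) (h10 _ (Z.add_mem (hXZ x hx) hy)), add_zero, add_zero]
  have h13 : z ∈ Z := h11 z hz
  obtain ⟨s, hs⟩ : ∃ s, om z.1.1 (t s) ≠ 0 ∨ om z.2.1 (t s) ≠ 0 := by
    rcases hz0 with h | h
    · obtain ⟨s, hs⟩ := h2t _ h
      exact ⟨s, Or.inl hs⟩
    · obtain ⟨s, hs⟩ := h2t _ h
      exact ⟨s, Or.inr hs⟩
  have hts : t s ≠ 0 := by
    intro h
    rw [h, om_zero_right, om_zero_right] at hs
    simp at hs
  obtain ⟨s', hs'⟩ := h2t _ hts
  have r1 := hrel _ (h10 _ (h12 s z h13))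
  have r2 := hrel _ (h10 _ (h12 s' _ (h12 s z h13)))
  have r3 : om (om z.1.1 (t s), om z.2.1 (t s)) (t s) = 0 := by
    have : om z.1.1 (t s) * (t s).2 = om z.2.1 (t s) * (t s).1 := r1
    show om z.1.1 (t s) * (t s).2 + om z.2.1 (t s) * (t s).1 = 0
    rw [this, F2s]
  have r4 : om (om z.1.1 (t s), om z.2.1 (t s)) (t s') = 0 := by
    have : om (om z.1.1 (t s) • t s) (t s') * (t s').2 =
      om (om z.2.1 (t s) • t s) (t s') * (t s').1 := r2
    rw [om_smul_left, om_smul_left, F2n hs', mul_one, mul_one] at this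
    show om z.1.1 (t s) * (t s').2 + om z.2.1 (t s) * (t s').1 = 0
    rw [this, F2s]
  have r5 := om_indep _ _ _ r3 r4 hs'
  have r6 : om z.1.1 (t s) = 0 := congrArg Prod.fst r5
  have r7 : om z.2.1 (t s) = 0 := congrArg Prod.snd r5
  rw [r6, r7] at hs
  simp at hs

theorem om_ex : ∀ t : W, t ≠ 0 → ∃ w : W, om t w = 1 := by decide

/-- few labels, second case -/
theorem few' {t : W} (ht : t ≠ 0) {σ₁ ν₁ σ₂ ν₂ : ZMod 2} (hσ : σ₁ ≠ 0 ∨ σ₂ ≠ 0) {X : Finset Lb}
    (h1 : ∀ x ∈ X, x.1.1 = 0) (h2 : ∀ x ∈ X, x.2.1 = 0) (hb : ∀ x ∈ X, bet t σ₁ ν₁ σ₂ ν₂ x = 0) :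
    X.card < 16 := by
  classical
  obtain ⟨w, hw⟩ := om_ex t ht
  have hcard : (X.image fun x => (x.1.2, x.2.2)).card = X.card := by
    apply card_image_of_injOn
    rintro ⟨⟨a, b⟩, ⟨c, d⟩⟩ hx ⟨⟨a', b'⟩, ⟨c', d'⟩⟩ hy h
    have e1 : a = 0 := h1 _ hx
    have e2 : c = 0 := h2 _ hx
    have e3 : a' = 0 := h1 _ hy
    have e4 : c' = 0 := h2 _ hy
    simp only [Prod.mk.injEq] at h
    rw [e1, e2, e3, e4, h.1, h.2]
  have h3 : ∃ p : W × W, p ∉ X.image fun x => (x.1.2, x.2.2) := by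
    rcases hσ with h | h
    · refine ⟨(w, 0), fun hm => ?_⟩
      obtain ⟨x, hx, hxp⟩ := mem_image.1 hm
      have h4 := hb x hx
      simp only [Prod.mk.injEq] at hxp
      rw [bet, ee, ee, h1 x hx, h2 x hx, hxp.1, hxp.2, F2n h, hw] at h4
      simp only [om_zero_left, om_zero_right, zero_mul, mul_zero, add_zero, zero_add, mul_one] at h4
      exact one_ne_zero h4
    · refine ⟨(0, w), fun hm => ?_⟩
      obtain ⟨x, hx, hxp⟩ := mem_image.1 hm
      have h4 := hb x hx
      simp only [Prod.mk.injEq] at hxp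
      rw [bet, ee, ee, h1 x hx, h2 x hx, hxp.1, hxp.2, F2n h, hw] at h4
      simp only [om_zero_left, om_zero_right, zero_mul, mul_zero, add_zero, zero_add, mul_one] at h4
      exact one_ne_zero h4
  obtain ⟨p, hp⟩ := h3
  rw [← hcard]
  have := card_lt_univ_of_notMem hp
  simpa using this

end Pool.Agent.V8H26.XL
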