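import Pool.Agent.V8H26.XL.Chn

/-!
# The limit law of the random walk
-/

set_option autoImplicit false
set_option linter.all false

namespace Pool.Agent.V8H26.XL

open Finset Filter Topology

/-- the indicator of `e` -/
noncomputable def Fe (e r : ℕ) : ℝ := if r = e then 1 else 0

theorem Fe_zero : Fe 0 = F0 := rfl

theorem Fe_nonneg (e r : ℕ) : 0 ≤ Fe e r := by
  unfold Fe
  split_ifs <;> norm_num

theorem Fe_le (e r : ℕ) : Fe e r ≤ 1 := by
  unfold Fe
  split_ifs <;> norm_num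

/-- the reversible measure -/
noncomputable def pi' : ℕ → ℝ
  | 0 => 1
  | r + 1 => pi' r * (2 / (2 ^ (r + 1) - 1))

theorem two_pow_sub_pos (r : ℕ) : (0 : ℝ) < 2 ^ (r + 1) - 1 := by
  have : (1 : ℝ) < 2 ^ (r + 1) := one_lt_pow₀ (by norm_num) (by omega)
  linarith

theorem pi'_pos (r : ℕ) : 0 < pi' r := by
  induction r with
  | zero => exact one_pos
  | succ r ih => exact mul_pos ih (div_pos two_pos (two_pow_sub_pos r))

/-- detailed balance -/
theorem pi'_bal (r : ℕ) : pi' r * (1 / 2) ^ r = pi' (r + 1) * (1 - (1 / 2) ^ (r + 1)) := by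
  have h1 := two_pow_sub_pos r
  have h2 : (1 - (1 / 2 : ℝ) ^ (r + 1)) = (2 ^ (r + 1) - 1) / 2 ^ (r + 1) := by
    rw [sub_div, div_self (by positivity), one_div_pow]
  show _ = pi' r * (2 / (2 ^ (r + 1) - 1)) * _
  rw [h2, one_div_pow, pow_succ 2 r]
  rw [pow_succ] at h1
  field_simp

theorem gg_comp (F : ℕ → ℝ) (n : ℕ) : ∀ r, gg F (n + 1) r = gg (gg F 1) n r := by
  induction n with
  | zero => exact fun r => rfl
  | succ n ih =>
    intro r
    rw [gg_succ F (n + 1), ih, ih, gg_succ (gg F 1) n]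

theorem gg_lin (F G : ℕ → ℝ) (a b : ℝ) (n : ℕ) :
    ∀ r, gg (fun x => a * F x + b * G x) n r = a * gg F n r + b * gg G n r := by
  induction n with
  | zero => exact fun r => rfl
  | succ n ih =>
    intro r
    rw [gg_succ, ih, ih, gg_succ, gg_succ]
    ring

/-- the forward recursion -/
theorem gg_fwd (e n r : ℕ) : gg (Fe e) (n + 1) r =
    (if e = 0 then 0 else (1 / 2) ^ (e - 1) * gg (Fe (e - 1)) n r) +
      (1 - (1 / 2) ^ (e + 1)) * gg (Fe (e + 1)) n r := by
  rw [gg_comp]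
  rcases Nat.eq_zero_or_pos e with rfl | he
  · rw [if_pos rfl]
    have h1 : gg (Fe 0) 1 = fun x => 0 * Fe 0 x + (1 - (1 / 2) ^ (0 + 1)) * Fe (0 + 1) x := by
      funext x
      rw [gg_succ, gg_zero, gg_zero]
      unfold Fe
      rcases Nat.eq_zero_or_pos x with rfl | hx
      · norm_num
      · rw [if_neg (by omega : ¬ x + 1 = 0)]
        by_cases h : x = 1
        · subst h; norm_num
        · rw [if_neg (by omega : ¬ x - 1 = 0), if_neg (by omega : ¬ x = 0),
            if_neg (by omega : ¬ x = 0 + 1)]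
          ring
    rw [h1, gg_lin]
    ring
  · rw [if_neg (by omega)]
    have h1 : gg (Fe e) 1 = fun x => (1 / 2) ^ (e - 1) * Fe (e - 1) x +
        (1 - (1 / 2) ^ (e + 1)) * Fe (e + 1) x := by
      funext x
      rw [gg_succ, gg_zero, gg_zero]
      unfold Fe
      by_cases h : x = e - 1
      · subst h
        rw [if_neg (by omega), if_pos (by omega), if_pos rfl, if_neg (by omega)]
        ring
      · by_cases h' : x = e + 1
        · subst h'
          rw [if_pos (by omega), if_neg (by omega), if_neg (by omega), if_pos rfl]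
          ring
        · rw [if_neg (by omega), if_neg (by omega), if_neg h, if_neg h']
          ring
    rw [h1, gg_lin]

/-- reversibility -/
theorem gg_rev (n : ℕ) : ∀ e, gg (Fe e) n 0 = pi' e * gg (Fe 0) n e := by
  induction n with
  | zero =>
    intro e
    rw [gg_zero, gg_zero, Fe, Fe]
    rcases Nat.eq_zero_or_pos e with rfl | he
    · simp [pi']
    · rw [if_neg (by omega), if_neg (by omega), mul_zero]
  | succ n ih =>
    intro e
    rw [gg_fwd, ih (e + 1), gg_succ]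
    have h1 := pi'_bal e
    rcases Nat.eq_zero_or_pos e with rfl | he
    · rw [if_pos rfl]
      simp only [pow_zero, sub_self, zero_mul, zero_add, one_mul] at h1 ⊢
      linear_combination (-(gg (Fe 0) n 1)) * h1
    · rw [if_neg (by omega), ih (e - 1)]
      obtain ⟨e', rfl⟩ : ∃ e', e = e' + 1 := ⟨e - 1, by omega⟩
      have h2 := pi'_bal e'
      have e1 : e' + 1 - 1 = e' := by omega
      rw [e1]
      linear_combination (-(gg (Fe 0) n (e' + 1 + 1))) * h1 + gg (Fe 0) n e' * h2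

/-- the limit law -/
noncomputable def al (d : ℕ) : ℝ := pi' (2 * d) * cc

theorem al_zero : al 0 = cc := by
  rw [al, mul_zero]
  show 1 * cc = cc
  rw [one_mul]

theorem start0 (d : ℕ) {ε : ℝ} (hε : 0 < ε) : ∃ k₀ : ℕ, ∀ t : ℕ, k₀ ≤ t →
    |gg (Fe (2 * d)) (2 * t) 0 - al d| ≤ ε := by
  obtain ⟨k₀, hk⟩ := gg_lim (ε := ε / pi' (2 * d)) (div_pos hε (pi'_pos _))
  refine ⟨d + k₀, fun t ht => ?_⟩
  rw [gg_rev, al, Fe_zero, ← mul_sub, abs_mul, abs_of_pos (pi'_pos _)]
  have h1 := hk t d ht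
  rw [le_div_iff₀ (pi'_pos _)] at h1
  linarith

theorem hit {F : ℕ → ℝ} {c : ℝ} (h0 : ∀ r, 0 ≤ F r) (h1 : ∀ r, F r ≤ 1) (hc0 : 0 ≤ c) (hc1 : c ≤ 1)
    {ε : ℝ} (hε : 0 < ε) {N₁ : ℕ} (hN : ∀ t : ℕ, N₁ ≤ t → |gg F (2 * t) 0 - c| ≤ ε) (n : ℕ) :
    ∀ r, Even (n + r) → |gg F (n + 2 * N₁) r - c| ≤ ε + (if r = 0 then 0 else
      (7 / 8) ^ n * (3 / 2) ^ r) := by
  induction n with
  | zero =>
    intro r hr
    by_cases h : r = 0
    · rw [if_pos h, h, add_zero, zero_add]
      exact hN N₁ le_rfl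
    · rw [if_neg h, pow_zero, one_mul]
      have h2 := gg_bd h0 h1 (0 + 2 * N₁) r
      have h3 : (1 : ℝ) ≤ (3 / 2) ^ r := one_le_pow₀ (by norm_num)
      rw [abs_le]
      constructor <;> linarith [h2.1, h2.2]
  | succ n ih =>
    intro r hr
    by_cases h : r = 0
    · rw [if_pos h, h, add_zero]
      obtain ⟨t, ht⟩ : ∃ t, n + 1 = t + t := by
        rw [h, add_zero] at hr
        exact hr
      have h2 : n + 1 + 2 * N₁ = 2 * (t + N₁) := by omega
      rw [h2]
      exact hN _ (by omega)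
    · rw [if_neg h]
      have h2 : n + 1 + 2 * N₁ = n + 2 * N₁ + 1 := by omega
      rw [h2, gg_succ]
      obtain ⟨s, rfl⟩ : ∃ s, r = s + 1 := ⟨r - 1, by omega⟩
      have hev : Even (n + s) := by
        have h3 : n + 1 + (s + 1) = n + s + 2 := by ring
        rw [h3, Nat.even_add] at hr
        exact hr.2 (by decide)
      have i1 := ih s hev
      have i2 := ih (s + 1 + 1) (by
        have h3 : n + (s + 1 + 1) = n + s + 2 := by ring
        rw [h3, Nat.even_add]
        exact ⟨fun _ => by decide, fun _ => hev⟩)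
      rw [if_neg (by omega)] at i2
      have e1 : s + 1 - 1 = s := by omega
      rw [e1]
      set x : ℝ := (1 / 2) ^ (s + 1) with hx
      have hx0 : 0 ≤ x := half_pow_nonneg _
      have hx1 : x ≤ 1 := half_pow_le _
      have e2 : (1 - x) * gg F (n + 2 * N₁) s + x * gg F (n + 2 * N₁) (s + 1 + 1) - c =
          (1 - x) * (gg F (n + 2 * N₁) s - c) + x * (gg F (n + 2 * N₁) (s + 1 + 1) - c) := by ring
      rw [e2]
      refine (abs_add_le _ _).trans ?_
      rw [abs_mul, abs_mul, abs_of_nonneg hx0, abs_of_nonneg (sub_nonneg.2 hx1)]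
      have j1 := mul_le_mul_of_nonneg_left i1 (sub_nonneg.2 hx1)
      have j2 := mul_le_mul_of_nonneg_left i2 hx0
      have e3 : (7 / 8 : ℝ) ^ (n + 1) = 7 / 8 * (7 / 8) ^ n := by rw [pow_succ]; ring
      have e4 : (3 / 2 : ℝ) ^ (s + 1) = 3 / 2 * (3 / 2) ^ s := by rw [pow_succ]; ring
      have e5 : (3 / 2 : ℝ) ^ (s + 1 + 1) = 9 / 4 * (3 / 2) ^ s := by
        rw [pow_succ, pow_succ]; ring
      have hp : (0 : ℝ) ≤ (7 / 8) ^ n * (3 / 2) ^ s := by positivity
      rw [e5] at j2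
      rw [e3, e4]
      by_cases hs : s = 0
      · rw [if_pos hs] at j1
        have hx2 : x = 1 / 2 := by rw [hx, hs]; norm_num
        rw [hx2] at j1 j2 ⊢
        nlinarith
      · rw [if_neg hs] at j1
        have hx2 : x ≤ 1 / 4 := by
          rw [hx]
          calc (1 / 2 : ℝ) ^ (s + 1) ≤ (1 / 2) ^ 2 :=
                pow_le_pow_of_le_one (by norm_num) (by norm_num) (by omega)
            _ = 1 / 4 := by norm_num
        nlinarith

/-- uniform convergence to the limit law -/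
theorem Cv_of_start {F : ℕ → ℝ} {c : ℝ} (h0 : ∀ r, 0 ≤ F r) (h1 : ∀ r, F r ≤ 1) (hc0 : 0 ≤ c)
    (hc1 : c ≤ 1) (h : ∀ ε : ℝ, 0 < ε → ∃ k₀ : ℕ, ∀ t : ℕ, k₀ ≤ t → |gg F (2 * t) 0 - c| ≤ ε) :
    Cv F c := by
  intro ε hε
  obtain ⟨N₁, hN⟩ := h (ε / 2) (by positivity)
  have h3 : Tendsto (fun K : ℕ => (7 / 8 : ℝ) ^ K) atTop (𝓝 0) :=
    tendsto_pow_atTop_nhds_zero_of_lt_one (by norm_num) (by norm_num)
  obtain ⟨K, hK⟩ := (h3.eventually_le_const (show (0 : ℝ) < ε / 2 by positivity)).exists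
  refine ⟨N₁ + K, fun t s hst => ?_⟩
  have h4 := hit h0 h1 hc0 hc1 (show (0 : ℝ) < ε / 2 by positivity) hN (2 * (t - N₁)) (2 * s)
    ⟨t - N₁ + s, by ring⟩
  have e1 : 2 * (t - N₁) + 2 * N₁ = 2 * t := by omega
  rw [e1] at h4
  refine h4.trans ?_
  split_ifs with hs
  · linarith
  · have h5 : (7 / 8 : ℝ) ^ (2 * (t - N₁)) * (3 / 2) ^ (2 * s) ≤ (7 / 8) ^ K := by
      have h6 : (7 / 8 : ℝ) ^ (2 * (t - N₁)) ≤ (7 / 8) ^ (8 * s + K) :=
        pow_le_pow_of_le_one (by norm_num) (by norm_num) (by omega)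
      calc (7 / 8 : ℝ) ^ (2 * (t - N₁)) * (3 / 2) ^ (2 * s) ≤
          (7 / 8) ^ (8 * s + K) * (3 / 2) ^ (2 * s) :=
            mul_le_mul_of_nonneg_right h6 (by positivity)
        _ = (7 / 8) ^ K * (((7 / 8) ^ 8) * (3 / 2) ^ 2) ^ s := by
            rw [pow_add, pow_mul, pow_mul, mul_pow]; ring
        _ ≤ (7 / 8) ^ K * 1 := by
            apply mul_le_mul_of_nonneg_left _ (by positivity)
            exact pow_le_one₀ (by norm_num) (by norm_num)
        _ = _ := mul_one _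
    linarith

theorem al_mem (d : ℕ) : 0 ≤ al d ∧ al d ≤ 1 := by
  have key : ∀ ε : ℝ, 0 < ε → -ε ≤ al d ∧ al d ≤ 1 + ε := by
    intro ε hε
    obtain ⟨k₀, hk⟩ := start0 d hε
    have h1 := hk k₀ le_rfl
    have h2 := gg_bd (Fe_nonneg (2 * d)) (Fe_le (2 * d)) (2 * k₀) 0
    rw [abs_le] at h1
    constructor <;> linarith [h1.1, h1.2, h2.1, h2.2]
  constructor
  · by_contra h
    push Not at h
    have := (key (-al d / 2) (by linarith)).1
    linarith
  · by_contra h
    push Not at h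
    have := (key ((al d - 1) / 2) (by linarith)).2
    linarith

/-- **uniform convergence to the limit law** -/
theorem Cv_Fe (d : ℕ) : Cv (Fe (2 * d)) (al d) :=
  Cv_of_start (Fe_nonneg _) (Fe_le _) (al_mem d).1 (al_mem d).2 fun ε hε => start0 d hε

end Pool.Agent.V8H26.XL
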