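import Pool.Agent.V8H26.XL.Cel
import Pool.Agent.V8H26.XL.Rev
import Pool.Agent.Y164.PS.Lvl2

/-!
# Squarefree polynomials with a given number of prime factors
-/

set_option autoImplicit false
set_option linter.all false

namespace Pool.Agent.V8H26.XL

open Finset Polynomial Pool.Agent.H341R2.Sharp
open Pool.Agent.Y164.PS
open scoped Classical

variable {k : Type} [Field k] [Fintype k] [DecidableEq k]
variable {ι : Type} [Fintype ι]
variable {a b : k[X]} {N : ℕ} (H : Hyp a b N)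

/-- the degrees modulo two -/
noncomputable def dm (T : ι → k[X]) (i : ι) : ZMod 2 := ((T i).natDegree : ZMod 2)

/-- the dimension of the kernel of a tuple -/
noncomputable def rk (T : ι → k[X]) : ℕ := rT H.hm (datum H) (QQ a b) (dm T) T

include H in
theorem tup_law (hq : 4 ≤ Fintype.card k) {F : ℕ → ℝ} {c : ℝ}
    (h0 : ∀ r, 0 ≤ F r) (h1 : ∀ r, F r ≤ 1) (hc0 : 0 ≤ c) (hc1 : c ≤ 1)
    {n z s : ℕ} (hn : (n : F2) + (N : F2) = 1) (hz : 2 ≤ z) {ε : ℝ} (hε : 0 < ε) (hε2 : ε ≤ 1 / 2)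
    {K : ℕ} (hK : ∀ (ι : Type) [Fintype ι] (d : ι → ZMod 2) (l : List ι),
      ∑ i, d i + (datum H).N = 1 → l.Nodup → 254 * (Fintype.card ι - l.length) + K ≤ l.length →
      ∀ a' : Arr ι (Tau a b), |MM l (Ps (datum H) d F c) a'| ≤ ε / 2 ^ Fintype.card (Tau a b))
    (hm : 255 * s + K + 1 ≤ Fintype.card ι)
    (hB : et a b n z * (4 ^ Fintype.card ι * 4 ^ Fintype.card (Tau a b)) ≤ ε) :
    ((c - 4 * ε) * ∑ T ∈ Xt k ι n z s,
        (if ok (QQ a b) T ∧ cl (datum H) (QQ a b) T then (1 : ℝ) else 0) ≤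
      ∑ T ∈ Xt k ι n z s,
        (if ok (QQ a b) T ∧ cl (datum H) (QQ a b) T then F (rk H T) else 0)) ∧
    (∑ T ∈ Xt k ι n z s,
        (if ok (QQ a b) T ∧ cl (datum H) (QQ a b) T then F (rk H T) else 0) ≤
      (c + 4 * ε) * ∑ T ∈ Xt k ι n z s,
        (if ok (QQ a b) T ∧ cl (datum H) (QQ a b) T then (1 : ℝ) else 0)) ∧
    (1 - ε) * ∑ T ∈ Xt k ι n z s, (if ok (QQ a b) T then (1 : ℝ) else 0) ≤
      2 ^ Fintype.card (Tau a b) *
        ∑ T ∈ Xt k ι n z s, (if ok (QQ a b) T ∧ cl (datum H) (QQ a b) T then (1 : ℝ) else 0) := by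
  have key : ∀ T0 ∈ Xt k ι n z s,
      |XF H.hm (datum H) (QQ a b) (dm T0) (cell z T0) F - c * YY (datum H) (QQ a b) (cell z T0)| ≤
        4 * ε * YY (datum H) (QQ a b) (cell z T0) ∧
      (1 - ε) * OK (QQ a b) (cell z T0) ≤
        2 ^ Fintype.card (Tau a b) * YY (datum H) (QQ a b) (cell z T0) := by
    intro T0 h0'
    rw [Xt, mem_filter] at h0'
    have hlm : (lgs z T0).card ≤ Fintype.card ι := card_le_univ _
    have hne : (lgs z T0).Nonempty := by
      rw [← card_pos]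
      omega
    have hc := cell_inst H hq hz h0'.1 hne
    have het := et_nonneg (a := a) (b := b) n z
    have hdN : ∑ i, dm T0 i + (datum H).N = 1 := by
      have h1 : ∑ i, ((T0 i).natDegree : F2) = (n : F2) := by
        rw [← (mem_Tp.1 h0'.1).2]
        push_cast
        rfl
      show ∑ i, ((T0 i).natDegree : F2) + (N : F2) = 1
      rw [h1]
      exact hn
    have h3 : (Fintype.card ι : ℝ) + 1 ≤ 2 ^ Fintype.card ι := by
      have : Fintype.card ι + 1 ≤ 2 ^ Fintype.card ι := Nat.lt_pow_self (by norm_num)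
      exact_mod_cast this
    have h2 : ((lgs z T0).card : ℝ) ≤ Fintype.card ι := by exact_mod_cast hlm
    have h5 : (2 : ℝ) ^ Fintype.card ι * 2 ^ Fintype.card ι = 4 ^ Fintype.card ι := by
      rw [← mul_pow]; norm_num
    have h5' : (2 : ℝ) ^ Fintype.card (Tau a b) * 2 ^ Fintype.card (Tau a b) =
        4 ^ Fintype.card (Tau a b) := by
      rw [← mul_pow]; norm_num
    refine cell_law hc ?_ h0 h1 hc0 hc1 hε hε2 ?_ ?_ ?_
    · intro i hi
      rw [lgs, mem_filter] at hi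
      push Not at hi
      exact ⟨T0 i, by rw [cell, if_pos (hi (mem_univ _))]⟩
    · intro l hl1 hl2 a'
      exact hK ι (dm T0) l hdN hl1 (by omega) a'
    · refine le_trans ?_ hB
      rw [pow_add]
      have h6 : ((lgs z T0).card : ℝ) ≤ 2 ^ Fintype.card ι := by linarith
      have h7 : (0 : ℝ) ≤ et a b n z * (2 ^ Fintype.card ι * 4 ^ Fintype.card (Tau a b)) :=
        mul_nonneg het (by positivity)
      have h8 := mul_le_mul_of_nonneg_right h6 h7
      calc ((lgs z T0).card : ℝ) * (2 ^ Fintype.card ι * 2 ^ Fintype.card (Tau a b) * et a b n z) *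
            2 ^ Fintype.card (Tau a b) = (lgs z T0).card * (et a b n z * (2 ^ Fintype.card ι *
              (2 ^ Fintype.card (Tau a b) * 2 ^ Fintype.card (Tau a b)))) := by ring
        _ = (lgs z T0).card * (et a b n z * (2 ^ Fintype.card ι *
              4 ^ Fintype.card (Tau a b))) := by rw [h5']
        _ ≤ 2 ^ Fintype.card ι * (et a b n z * (2 ^ Fintype.card ι *
              4 ^ Fintype.card (Tau a b))) := h8
        _ = et a b n z * ((2 ^ Fintype.card ι * 2 ^ Fintype.card ι) *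
              4 ^ Fintype.card (Tau a b)) := by ring
        _ = _ := by rw [h5]
    · have h6 : ((lgs z T0).card : ℝ) + 2 ^ Fintype.card (Tau a b) ≤
          4 ^ Fintype.card ι * 4 ^ Fintype.card (Tau a b) := by
        have h4 : (2 : ℝ) ^ Fintype.card (Tau a b) ≤ 4 ^ Fintype.card (Tau a b) :=
          pow_le_pow_left₀ (by norm_num) (by norm_num) _
        have h5 : (1 : ℝ) ≤ 4 ^ Fintype.card (Tau a b) := one_le_pow₀ (by norm_num)
        have h6 : (0 : ℝ) ≤ Fintype.card ι := Nat.cast_nonneg _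
        have h7 : (2 : ℝ) ^ Fintype.card ι ≤ 4 ^ Fintype.card ι :=
          pow_le_pow_left₀ (by norm_num) (by norm_num) _
        nlinarith
      calc ((lgs z T0).card + 2 ^ Fintype.card (Tau a b)) * et a b n z ≤
          (4 ^ Fintype.card ι * 4 ^ Fintype.card (Tau a b)) * et a b n z :=
            mul_le_mul_of_nonneg_right h6 het
        _ ≤ ε := by rw [mul_comm]; exact hB
  have hXF : ∀ T0 ∈ Xt k ι n z s, ∑ T ∈ Fintype.piFinset (cell z T0),
      (if ok (QQ a b) T ∧ cl (datum H) (QQ a b) T then F (rk H T) else 0) =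
      XF H.hm (datum H) (QQ a b) (dm T0) (cell z T0) F := by
    intro T0 _
    rw [XF]
    refine sum_congr rfl fun T hT => ?_
    have : dm T = dm T0 := by
      funext i
      rw [dm, dm, cell_deg hT]
    rw [rk, this]
  refine ⟨?_, ?_, ?_⟩
  · have h2 := cells_nonneg (z := z) (X := Xt k ι n z s) Xt_closed Xt_self
      (fun T => (if ok (QQ a b) T ∧ cl (datum H) (QQ a b) T then F (rk H T) else 0) -
        (c - 4 * ε) * (if ok (QQ a b) T ∧ cl (datum H) (QQ a b) T then (1 : ℝ) else 0)) (by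
        intro T0 hT0
        have h2 := (key T0 hT0).1
        rw [sum_sub_distrib, ← mul_sum, hXF T0 hT0]
        rw [abs_le] at h2
        have h3 := h2.1
        have h4 : (c - 4 * ε) * YY (datum H) (QQ a b) (cell z T0) ≤
          XF H.hm (datum H) (QQ a b) (dm T0) (cell z T0) F := by linarith
        exact sub_nonneg.2 h4)
    rw [sum_sub_distrib, ← mul_sum] at h2
    exact sub_nonneg.1 h2
  · have h2 := cells_nonneg (z := z) (X := Xt k ι n z s) Xt_closed Xt_self
      (fun T => (c + 4 * ε) * (if ok (QQ a b) T ∧ cl (datum H) (QQ a b) T then (1 : ℝ) else 0) -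
        (if ok (QQ a b) T ∧ cl (datum H) (QQ a b) T then F (rk H T) else 0)) (by
        intro T0 hT0
        have h2 := (key T0 hT0).1
        rw [sum_sub_distrib, ← mul_sum, hXF T0 hT0]
        rw [abs_le] at h2
        have h3 := h2.2
        have h4 : XF H.hm (datum H) (QQ a b) (dm T0) (cell z T0) F ≤
          (c + 4 * ε) * YY (datum H) (QQ a b) (cell z T0) := by linarith
        exact sub_nonneg.2 h4)
    rw [sum_sub_distrib, ← mul_sum] at h2
    exact sub_nonneg.1 h2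
  · have h2 := cells_nonneg (z := z) (X := Xt k ι n z s) Xt_closed Xt_self
      (fun T => 2 ^ Fintype.card (Tau a b) *
        (if ok (QQ a b) T ∧ cl (datum H) (QQ a b) T then (1 : ℝ) else 0) -
        (1 - ε) * (if ok (QQ a b) T then (1 : ℝ) else 0)) (by
        intro T0 hT0
        have h2 := (key T0 hT0).2
        rw [sum_sub_distrib, ← mul_sum, ← mul_sum]
        exact sub_nonneg.2 h2)
    rw [sum_sub_distrib, ← mul_sum, ← mul_sum] at h2
    exact sub_nonneg.1 h2

/-- `G` holds for the polynomials with dimension `r` of the kernel -/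
def Imp1 (H : Hyp a b N) (r : ℕ) (G : k[X] → Prop) : Prop :=
  ∀ (ι : Type) [Fintype ι] (T : ι → k[X]), Fam (Sum.elim T (QQ a b)) →
    cl (datum H) (QQ a b) T → ∑ i, ((T i).natDegree : F2) + (N : F2) = 1 →
    rk H T = r → G (∏ i, T i)

/-- `G` holds only for the polynomials with dimension `r` of the kernel -/
def Imp2 (H : Hyp a b N) (r : ℕ) (G : k[X] → Prop) : Prop :=
  ∀ (ι : Type) [Fintype ι] (T : ι → k[X]), Fam (Sum.elim T (QQ a b)) →
    cl (datum H) (QQ a b) T → ∑ i, ((T i).natDegree : F2) + (N : F2) = 1 →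
    G (∏ i, T i) → rk H T = r

include H in
theorem lvl_law' (ι : Type) [Fintype ι] {G : k[X] → Prop} (hq : 4 ≤ Fintype.card k) {r : ℕ} {c : ℝ}
    (hc0 : 0 ≤ c) (hc1 : c ≤ 1)
    {n m z s : ℕ} (hcm : Fintype.card ι = m) (hn : (n : F2) + (N : F2) = 1) (hz : 2 ≤ z) {ε : ℝ}
    (hε : 0 < ε) (hε2 : ε ≤ 1 / 2)
    {K : ℕ} (hK : ∀ (ι : Type) [Fintype ι] (d : ι → ZMod 2) (l : List ι),
      ∑ i, d i + (datum H).N = 1 → l.Nodup → 254 * (Fintype.card ι - l.length) + K ≤ l.length →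
      ∀ a' : Arr ι (Tau a b), |MM l (Ps (datum H) d (Fe r) c) a'| ≤ ε / 2 ^ Fintype.card (Tau a b))
    (hm : 255 * s + K + 1 ≤ m)
    (hB : et a b n z * (4 ^ m * 4 ^ Fintype.card (Tau a b)) ≤ ε) :
    (Imp1 H r G → (c - 4 * ε) * (((Sf k n).filter fun D => (pf D).card = m ∧ sm z D ≤ s ∧
        P1 a b D).card : ℝ) ≤ (((Sf k n).filter fun D => (pf D).card = m ∧ sm z D ≤ s ∧
        P2 G a b D).card : ℝ)) ∧
    (Imp2 H r G → (((Sf k n).filter fun D => (pf D).card = m ∧ sm z D ≤ s ∧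
        P2 G a b D).card : ℝ) ≤ (c + 4 * ε) * (((Sf k n).filter fun D => (pf D).card = m ∧
        sm z D ≤ s ∧ P1 a b D).card : ℝ)) ∧
    (1 - ε) * (((Sf k n).filter fun D => (pf D).card = m ∧ sm z D ≤ s ∧ nb a b D).card : ℝ) ≤
      2 ^ Fintype.card (Tau a b) * (((Sf k n).filter fun D => (pf D).card = m ∧ sm z D ≤ s ∧
        P1 a b D).card : ℝ) := by
  have h0 := tup_law (ι := ι) H hq (Fe_nonneg r) (Fe_le r) hc0 hc1 hn hz hε hε2 hK
    (by rw [hcm]; exact hm) (by rw [hcm]; exact hB)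
  have hf : (0 : ℝ) < ((Fintype.card ι).factorial : ℝ) := by
    exact_mod_cast Nat.factorial_pos _
  have c1 := conv (k := k) (ι := ι) n z s (P1 a b)
  have c2 := conv (k := k) (ι := ι) n z s (nb a b)
  have c3 := conv (k := k) (ι := ι) n z s (P2 G a b)
  rw [hcm] at c1 c2 c3
  rw [hcm] at hf
  have h1 : ∀ T ∈ Xt k ι n z s,
      ((ok (QQ a b) T ∧ cl (datum H) (QQ a b) T) ↔ (Function.Injective T ∧ P1 a b (∏ i, T i))) := by
    intro T hT
    rw [Xt, mem_filter] at hT
    constructor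
    · rintro ⟨h2, h3⟩
      have h4 := (ok_iff H hT.1).1 h2
      exact ⟨h4.1, h4.2, (cl_iff H hT.1 h4.2).1 h3⟩
    · rintro ⟨h2, h3, h4⟩
      exact ⟨(ok_iff H hT.1).2 ⟨h2, h3⟩, (cl_iff H hT.1 h3).2 h4⟩
  have e1 : ∑ T ∈ Xt k ι n z s, (if ok (QQ a b) T ∧ cl (datum H) (QQ a b) T then (1 : ℝ) else 0)
      = ∑ T ∈ Xt k ι n z s, (if Function.Injective T ∧ P1 a b (∏ i, T i) then (1 : ℝ) else 0) := by
    refine sum_congr rfl fun T hT => ?_
    simp only [h1 T hT]
  have e2 : ∑ T ∈ Xt k ι n z s, (if ok (QQ a b) T then (1 : ℝ) else 0)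
      = ∑ T ∈ Xt k ι n z s, (if Function.Injective T ∧ nb a b (∏ i, T i)
        then (1 : ℝ) else 0) := by
    refine sum_congr rfl fun T hT => ?_
    rw [Xt, mem_filter] at hT
    simp only [ok_iff H hT.1]
  have hfam : ∀ T ∈ Xt k ι n z s, ok (QQ a b) T → Fam (Sum.elim T (QQ a b)) ∧
      ∑ i, ((T i).natDegree : F2) + (N : F2) = 1 := by
    intro T hT h2
    rw [Xt, mem_filter] at hT
    have h7 := (mem_Tp.1 hT.1)
    refine ⟨⟨?_, ?_, h2⟩, ?_⟩
    · rintro (i | s)
      · exact (h7.1 i).1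
      · exact H.fam.mon s
    · rintro (i | s)
      · exact (h7.1 i).2
      · exact H.fam.irr s
    · have h9 : ∑ i, ((T i).natDegree : F2) = (n : F2) := by
        rw [← h7.2]
        push_cast
        rfl
      rw [h9]
      exact hn
  have e3 : Imp1 H r G → ∑ T ∈ Xt k ι n z s,
      (if ok (QQ a b) T ∧ cl (datum H) (QQ a b) T then Fe r (rk H T) else 0)
      ≤ ∑ T ∈ Xt k ι n z s, (if Function.Injective T ∧ P2 G a b (∏ i, T i) then (1 : ℝ) else 0) := by
    intro hG
    apply sum_le_sum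
    intro T hT
    by_cases h2 : ok (QQ a b) T ∧ cl (datum H) (QQ a b) T
    · rw [if_pos h2]
      by_cases h3 : rk H T = r
      · have h4 := (h1 T hT).1 h2
        have h5 := hfam T hT h2.1
        have h6 := hG ι T h5.1 h2.2 h5.2 h3
        rw [if_pos ⟨h4.1, h4.2, h6⟩]
        exact Fe_le _ _
      · rw [Fe, if_neg h3]
        split_ifs <;> norm_num
    · rw [if_neg h2]
      split_ifs <;> norm_num
  have e4 : Imp2 H r G → ∑ T ∈ Xt k ι n z s,
      (if Function.Injective T ∧ P2 G a b (∏ i, T i) then (1 : ℝ) else 0) ≤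
      ∑ T ∈ Xt k ι n z s,
      (if ok (QQ a b) T ∧ cl (datum H) (QQ a b) T then Fe r (rk H T) else 0) := by
    intro hG
    apply sum_le_sum
    intro T hT
    by_cases h2 : Function.Injective T ∧ P2 G a b (∏ i, T i)
    · rw [if_pos h2]
      have h3 := (h1 T hT).2 ⟨h2.1, h2.2.1⟩
      have h5 := hfam T hT h3.1
      have h6 := hG ι T h5.1 h3.2 h5.2 h2.2.2
      rw [if_pos h3, Fe, if_pos h6]
    · rw [if_neg h2]
      split_ifs
      · exact Fe_nonneg _ _
      · exact le_rfl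
  rw [e1, e2, c1, c2] at h0
  rw [c3] at e3 e4
  refine ⟨fun hG => ?_, fun hG => ?_, ?_⟩
  · have h2 := h0.1.trans (e3 hG)
    have h1 : (m.factorial : ℝ) * ((c - 4 * ε) * (((Sf k n).filter fun D => (pf D).card = m ∧
        sm z D ≤ s ∧ P1 a b D).card : ℝ)) ≤ (m.factorial : ℝ) *
        (((Sf k n).filter fun D => (pf D).card = m ∧ sm z D ≤ s ∧
        P2 G a b D).card : ℝ) := by
      linarith
    exact le_of_mul_le_mul_left h1 hf
  · have h2 := (e4 hG).trans h0.2.1
    have h1 : (m.factorial : ℝ) *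
        (((Sf k n).filter fun D => (pf D).card = m ∧ sm z D ≤ s ∧
        P2 G a b D).card : ℝ) ≤ (m.factorial : ℝ) * ((c + 4 * ε) *
        (((Sf k n).filter fun D => (pf D).card = m ∧ sm z D ≤ s ∧ P1 a b D).card : ℝ)) := by
      linarith
    exact le_of_mul_le_mul_left h1 hf
  · have h1 : (m.factorial : ℝ) * ((1 - ε) * (((Sf k n).filter fun D => (pf D).card = m ∧
        sm z D ≤ s ∧ nb a b D).card : ℝ)) ≤ (m.factorial : ℝ) *
        (2 ^ Fintype.card (Tau a b) * (((Sf k n).filter fun D => (pf D).card = m ∧ sm z D ≤ s ∧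
        P1 a b D).card : ℝ)) := by
      have h2 := h0.2.2
      linarith
    exact le_of_mul_le_mul_left h1 hf

include H in
/-- squarefree polynomials with a given number of prime factors -/
theorem lvl_law {G : k[X] → Prop} (hq : 4 ≤ Fintype.card k) {r : ℕ} {c : ℝ}
    (hc0 : 0 ≤ c) (hc1 : c ≤ 1)
    {n m z s : ℕ} (hn : (n : F2) + (N : F2) = 1) (hz : 2 ≤ z) {ε : ℝ}
    (hε : 0 < ε) (hε2 : ε ≤ 1 / 2)
    {K : ℕ} (hK : ∀ (ι : Type) [Fintype ι] (d : ι → ZMod 2) (l : List ι),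
      ∑ i, d i + (datum H).N = 1 → l.Nodup → 254 * (Fintype.card ι - l.length) + K ≤ l.length →
      ∀ a' : Arr ι (Tau a b), |MM l (Ps (datum H) d (Fe r) c) a'| ≤ ε / 2 ^ Fintype.card (Tau a b))
    (hm : 255 * s + K + 1 ≤ m)
    (hB : et a b n z * (4 ^ m * 4 ^ Fintype.card (Tau a b)) ≤ ε) :
    (Imp1 H r G → (c - 4 * ε) * (((Sf k n).filter fun D => (pf D).card = m ∧ sm z D ≤ s ∧
        P1 a b D).card : ℝ) ≤ (((Sf k n).filter fun D => (pf D).card = m ∧ sm z D ≤ s ∧
        P2 G a b D).card : ℝ)) ∧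
    (Imp2 H r G → (((Sf k n).filter fun D => (pf D).card = m ∧ sm z D ≤ s ∧
        P2 G a b D).card : ℝ) ≤ (c + 4 * ε) * (((Sf k n).filter fun D => (pf D).card = m ∧
        sm z D ≤ s ∧ P1 a b D).card : ℝ)) ∧
    (1 - ε) * (((Sf k n).filter fun D => (pf D).card = m ∧ sm z D ≤ s ∧ nb a b D).card : ℝ) ≤
      2 ^ Fintype.card (Tau a b) * (((Sf k n).filter fun D => (pf D).card = m ∧ sm z D ≤ s ∧
        P1 a b D).card : ℝ) :=
  lvl_law' H (Fin m) hq hc0 hc1 (Fintype.card_fin m) hn hz hε hε2 hK hm hB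

end Pool.Agent.V8H26.XL
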