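import Pool.Agent.V8H26.XL.Stp
import Pool.Agent.V8H26.XL.Lab

/-!
# Kernels are generic with high probability
-/

set_option autoImplicit false
set_option linter.all false

namespace Pool.Agent.V8H26.XL

open Module Finset
open Pool.Agent.Y164.PS (W om om_add_left om_add_right om_comm om_self om_zero_left om_zero_right Oq ee
  om_smul_left om_smul_right eq_zero_of_om W_add_self Dat V ks dg ws dg_ws lab ks_add dg_add sg sg_add
  sg_zero sg_one abs_sg FF_split)
open Pool.Agent.V8H64.FF (Phi phi_comm phi_add_left phi_smul_left)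
open scoped Classical

section
variable {ι τ : Type} [Fintype ι] [Fintype τ]

theorem MM_sum {γ : Type} (l : List ι) (s : Finset γ) (f : γ → Arr ι τ → ℝ) (a : Arr ι τ) :
    MM l (fun a => ∑ c ∈ s, f c a) a = ∑ c ∈ s, MM l (f c) a := by
  induction s using Finset.induction_on with
  | empty =>
    simp only [sum_empty]
    exact MM_const l 0 a
  | insert c s hc ih =>
    simp only [sum_insert hc]
    rw [MM_add l (f c) (fun a => ∑ c ∈ s, f c a), ih]

variable (D : Dat τ) (d : ι → ZMod 2)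

/-- the value of two pairs -/
noncomputable def Lf (c : (V ι τ × V ι τ) × (V ι τ × V ι τ)) (a : Arr ι τ) (x : ι → ZMod 2) : ZMod 2 :=
  fm D d a x c.1.1 c.2.1 + fm D d a x c.1.2 c.2.2

/-- the coefficients of `j` -/
noncomputable def cj (c : (V ι τ × V ι τ) × (V ι τ × V ι τ)) (j : ι) : ι ⊕ τ → ZMod 2 :=
  fun y => co D j c.1.1 c.2.1 y + co D j c.1.2 c.2.2 y

/-- the coefficients of the diagonal -/
def cq (c : (V ι τ × V ι τ) × (V ι τ × V ι τ)) : ι → ZMod 2 :=
  fun i => om (c.1.1.1 i) (c.2.1.1 i) + om (c.1.2.1 i) (c.2.2.1 i)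

variable {D d}

theorem Lf_rep (c : (V ι τ × V ι τ) × (V ι τ × V ι τ)) (j : ι) (v : ι ⊕ τ → ZMod 2) (a : Arr ι τ)
    (x : ι → ZMod 2) : Lf D d c (rep j v a) x = Lf D d c (rep j 0 a) x + ∑ y, cj D c j y * v y := by
  rw [Lf, Lf, fm_rep, fm_rep D d j v a x c.1.2 c.2.2]
  simp only [cj, add_mul, sum_add_distrib]
  ring

theorem Lf_self (c : (V ι τ × V ι τ) × (V ι τ × V ι τ)) (j : ι) (a : Arr ι τ)
    (x : ι → ZMod 2) (h : cj D c j = 0) : Lf D d c a x = Lf D d c (rep j 0 a) x := by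
  have h1 : Lf D d c a x = Lf D d c (rep j 0 a) x + ∑ y, cj D c j y * va j a y := by
    rw [Lf, Lf, fm_self D d j a, fm_self D d j a x c.1.2 c.2.2]
    simp only [cj, add_mul, sum_add_distrib]
    ring
  rw [h1, h]
  simp

theorem Lf_x (c : (V ι τ × V ι τ) × (V ι τ × V ι τ)) (a : Arr ι τ) (x : ι → ZMod 2) :
    Lf D d c a x = Lf D d c a 0 + ∑ i, cq c i * x i := by
  have h1 := fm_x D d a 0 x c.1.1 c.2.1
  have h2 := fm_x D d a 0 x c.1.2 c.2.2
  rw [zero_add] at h1 h2
  rw [Lf, Lf, h1, h2]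
  have h3 : ∑ i, cq c i * x i = ∑ i, x i * om (c.1.1.1 i) (c.2.1.1 i) +
      ∑ i, x i * om (c.1.2.1 i) (c.2.2.1 i) := by
    rw [← sum_add_distrib]
    exact sum_congr rfl fun i _ => by rw [cq]; ring
  rw [h3]
  ring

/-- the average over the diagonal -/
noncomputable def Ph (c : (V ι τ × V ι τ) × (V ι τ × V ι τ)) (D : Dat τ) (d : ι → ZMod 2)
    (a : Arr ι τ) : ℝ := av fun x : ι → ZMod 2 => sg (Lf D d c a x)

theorem Ph_eq (c : (V ι τ × V ι τ) × (V ι τ × V ι τ)) (a : Arr ι τ) :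
    Ph c D d a = ind (cq c = 0) * sg (Lf D d c a 0) := by
  have h1 : ∀ x : ι → ZMod 2, sg (Lf D d c a x) = sg (Lf D d c a 0) * sg (∑ i, cq c i * x i) :=
    fun x => by rw [Lf_x, sg_add]
  rw [Ph, av_congr h1, av_mul, av_char]
  by_cases h : cq c = 0
  · rw [if_pos h, ind_pos h]; ring
  · rw [if_neg h, ind_neg h]; ring

theorem Mop_Ph (c : (V ι τ × V ι τ) × (V ι τ × V ι τ)) (j : ι) :
    Mop j (Ph c D d) = fun a => ind (cj D c j = 0) * Ph c D d a := by
  funext a
  have h1 : ∀ v : ι ⊕ τ → ZMod 2, Ph c D d (rep j v a) =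
      (ind (cq c = 0) * sg (Lf D d c (rep j 0 a) 0)) * sg (∑ y, cj D c j y * v y) := by
    intro v
    rw [Ph_eq, Lf_rep, sg_add, mul_assoc]
  rw [Mop, av_congr h1, av_mul, av_char, Ph_eq]
  by_cases h : cj D c j = 0
  · rw [if_pos h, ind_pos h, mul_one, one_mul, Lf_self c j a 0 h]
  · rw [if_neg h, ind_neg h, mul_zero, zero_mul]

theorem MM_Ph (l : List ι) (c : (V ι τ × V ι τ) × (V ι τ × V ι τ)) (a : Arr ι τ) :
    MM l (Ph c D d) a = ind (∀ j ∈ l, cj D c j = 0) * Ph c D d a := by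
  induction l with
  | nil =>
    rw [ind_pos (by simp), one_mul]
    rfl
  | cons j l ih =>
    show MM l (Mop j (Ph c D d)) a = _
    rw [Mop_Ph, MM_mul, ih, ← mul_assoc]
    congr 1
    by_cases h : cj D c j = 0
    · rw [ind_pos h, one_mul]
      apply ind_congr
      simp [h]
    · rw [ind_neg h, zero_mul, ind_neg]
      intro h'
      exact h (h' j (by simp))

theorem MM_Ph_le (l : List ι) (c : (V ι τ × V ι τ) × (V ι τ × V ι τ)) (a : Arr ι τ) :
    MM l (Ph c D d) a ≤ ind ((∀ j ∈ l, cj D c j = 0) ∧ cq c = 0) := by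
  rw [MM_Ph, Ph_eq]
  have h1 : sg (Lf D d c a 0) ≤ 1 := by
    have := abs_sg (Lf D d c a 0)
    exact (le_abs_self _).trans this.le
  by_cases h2 : ∀ j ∈ l, cj D c j = 0
  · by_cases h3 : cq c = 0
    · rw [ind_pos h2, ind_pos h3, ind_pos ⟨h2, h3⟩, one_mul, one_mul]
      exact h1
    · rw [ind_neg h3, zero_mul, mul_zero]
      exact ind_nonneg _
  · rw [ind_neg h2, zero_mul]
    exact ind_nonneg _

/-! ### The configurations -/

variable (D) in
/-- the pairs which can occur -/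
noncomputable def RR (S : Finset ι) : Finset (V ι τ × V ι τ) :=
  univ.filter fun p => (p.1 ∈ VS S ∧ p.2 ∈ VS S) ∧ Rel D p.1 p.2 ∧
    ∀ s, D.t s = 0 → p.1.2 s = 0 ∧ p.2.2 s = 0

theorem kr_zero {S : Finset ι} {a : Arr ι τ} {x : ι → ZMod 2} {κ : V ι τ}
    (hκ : κ ∈ kr (fm D d a x) (VS S)) {s : τ} (hs : D.t s = 0) : κ.2 s = 0 := by
  have h := hκ.2 ((0, Pi.single s 1) : V ι τ) (fun i _ => rfl)
  rw [fm_apply, Phi] at h
  have e1 : dg D d ((0, Pi.single s 1) : V ι τ) = 0 := by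
    unfold dg
    have a1 : ∑ i, d i • ((0, Pi.single s 1) : V ι τ).1 i = 0 :=
      sum_eq_zero fun i _ => smul_zero _
    rw [a1, zero_add]
    refine sum_eq_zero fun s' _ => ?_
    show (D.e s' * (Pi.single s 1 : τ → ZMod 2) s') • D.t s' = 0
    by_cases h' : s' = s
    · rw [h', hs, smul_zero]
    · rw [Pi.single_eq_of_ne h', mul_zero, zero_smul]
  have e2 : ∑ i, x i * om (κ.1 i) (((0, Pi.single s 1) : V ι τ).1 i) = 0 :=
    sum_eq_zero fun i _ => by
      have : ((0, Pi.single s 1) : V ι τ).1 i = 0 := rfl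
      rw [this, om_zero_right, mul_zero]
  have e3 : Pool.Agent.Y164.PS.FF D a.A a.B d κ ((0, Pi.single s 1) : V ι τ) = κ.2 s := by
    have z1 : ∀ i, ((0, Pi.single s 1) : V ι τ).1 i = 0 := fun _ => rfl
    have z2 : ∀ s', ((0, Pi.single s 1) : V ι τ).2 s' = (Pi.single s 1 : τ → ZMod 2) s' :=
      fun _ => rfl
    unfold Pool.Agent.Y164.PS.FF
    simp only [z1, z2, Pi.zero_apply, om_zero_right, om_zero_left, mul_zero, add_zero,
      sum_const_zero, zero_add]
    have a1 : ∑ i, ∑ s', a.B i s' * ((Pi.single s 1 : τ → ZMod 2) s' * om (κ.1 i) (D.t s')) = 0 := by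
      refine sum_eq_zero fun i _ => sum_eq_zero fun s' _ => ?_
      by_cases h' : s' = s
      · rw [h', hs, om_zero_right, mul_zero, mul_zero]
      · rw [Pi.single_eq_of_ne h', zero_mul, mul_zero]
    have a2 : ∑ s₁, ∑ s₂, D.G s₁ s₂ * (κ.2 s₂ * (Pi.single s 1 : τ → ZMod 2) s₁ *
        om (D.t s₂) (D.t s₁)) = 0 := by
      refine sum_eq_zero fun s₁ _ => sum_eq_zero fun s₂ _ => ?_
      by_cases h' : s₁ = s
      · rw [h', hs, om_zero_right, mul_zero, mul_zero]
      · rw [Pi.single_eq_of_ne h', mul_zero, zero_mul, mul_zero]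
    have a3 : ∑ s', κ.2 s' * (Pi.single s 1 : τ → ZMod 2) s' = κ.2 s := by
      rw [sum_eq_single s]
      · rw [Pi.single_eq_same, mul_one]
      · intro b _ hb
        rw [Pi.single_eq_of_ne hb, mul_zero]
      · intro h
        exact absurd (mem_univ _) h
    rw [a1, a2, a3, zero_add, zero_add]
  rw [e1, e2, e3, om_zero_right, add_zero, add_zero] at h
  exact h

/-- the vectors of a subspace -/
noncomputable def Vf (S : Finset ι) : Finset (V ι τ) := univ.filter fun w => w ∈ VS S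

theorem card_Vf (S : Finset ι) : ((Vf S : Finset (V ι τ)).card : ℝ) =
    4 ^ S.card * 2 ^ Fintype.card τ := by
  have h1 := card_VS (τ := τ) S
  have h2 : (Vf S : Finset (V ι τ)).card = Fintype.card (VS (τ := τ) S) := by
    rw [Fintype.card_subtype]
    rfl
  rw [h2, h1]
  push_cast
  rfl

theorem ind_kr {S : Finset ι} (a : Arr ι τ) (x : ι → ZMod 2) {κ : V ι τ} (hκ : κ ∈ VS S) :
    ind (κ ∈ kr (fm D d a x) (VS S)) * (Vf S : Finset (V ι τ)).card =
      ∑ w ∈ (Vf S : Finset (V ι τ)), sg (fm D d a x κ w) := by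
  have h1 := sum_hom (((fm D d a x) κ).toAddMonoidHom.comp (VS (τ := τ) S).subtype.toAddMonoidHom)
  have h2 : ∑ w ∈ (Vf S : Finset (V ι τ)), sg (fm D d a x κ w) =
      ∑ g : VS (τ := τ) S, sg ((((fm D d a x) κ).toAddMonoidHom.comp
        (VS (τ := τ) S).subtype.toAddMonoidHom) g) := by
    exact sum_subtype (p := fun w => w ∈ VS (τ := τ) S) (Vf S)
      (fun w => by rw [Vf, mem_filter]; exact ⟨fun h => h.2, fun h => ⟨mem_univ _, h⟩⟩)
      fun w => sg (fm D d a x κ w)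
  have h3 : (Vf S : Finset (V ι τ)).card = Fintype.card (VS (τ := τ) S) := by
    rw [Fintype.card_subtype]
    rfl
  rw [h2, h1, h3]
  by_cases h : κ ∈ kr (fm D d a x) (VS S)
  · rw [ind_pos h, one_mul, if_pos]
    intro g
    exact h.2 g.1 g.2
  · rw [ind_neg h, zero_mul, if_neg]
    intro h'
    exact h ⟨hκ, fun w hw => h' ⟨w, hw⟩⟩

theorem ind_NG (S : Finset ι) (a : Arr ι τ) (x : ι → ZMod 2) :
    ind (NG D d S a x) * ((Vf S : Finset (V ι τ)).card : ℝ) ^ 2 ≤
      ∑ p ∈ RR D S, ∑ q ∈ (Vf S : Finset (V ι τ)) ×ˢ (Vf S : Finset (V ι τ)),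
        sg (Lf D d (p, q) a x) := by
  have h1 : ∀ p ∈ RR D S, ∑ q ∈ (Vf S : Finset (V ι τ)) ×ˢ (Vf S : Finset (V ι τ)),
      sg (Lf D d (p, q) a x) = (ind (p.1 ∈ kr (fm D d a x) (VS S)) *
        ind (p.2 ∈ kr (fm D d a x) (VS S))) * ((Vf S : Finset (V ι τ)).card : ℝ) ^ 2 := by
    intro p hp
    have hp' := (mem_filter.1 hp).2.1
    have e1 := ind_kr (D := D) (d := d) a x hp'.1
    have e2 := ind_kr (D := D) (d := d) a x hp'.2
    calc ∑ q ∈ (Vf S : Finset (V ι τ)) ×ˢ (Vf S : Finset (V ι τ)), sg (Lf D d (p, q) a x) =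
        (∑ w ∈ (Vf S : Finset (V ι τ)), sg (fm D d a x p.1 w)) *
          (∑ w ∈ (Vf S : Finset (V ι τ)), sg (fm D d a x p.2 w)) := by
          rw [sum_mul_sum, sum_product]
          refine sum_congr rfl fun w _ => sum_congr rfl fun w' _ => ?_
          rw [Lf, sg_add]
      _ = _ := by rw [← e1, ← e2]; ring
  rw [sum_congr rfl h1, ← sum_mul]
  apply mul_le_mul_of_nonneg_right _ (by positivity)
  by_cases h : NG D d S a x
  · obtain ⟨κ₁, h2, κ₂, h3, h4⟩ := h
    rw [ind_pos ⟨κ₁, h2, κ₂, h3, h4⟩]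
    have h5 : (κ₁, κ₂) ∈ RR D S := mem_filter.2 ⟨mem_univ _, ⟨h2.1, h3.1⟩, h4,
      fun s hs => ⟨kr_zero h2 hs, kr_zero h3 hs⟩⟩
    refine le_trans ?_ (single_le_sum (f := fun p : V ι τ × V ι τ =>
      ind (p.1 ∈ kr (fm D d a x) (VS S)) * ind (p.2 ∈ kr (fm D d a x) (VS S)))
      (fun p _ => mul_nonneg (ind_nonneg _) (ind_nonneg _)) h5)
    show 1 ≤ ind (κ₁ ∈ kr (fm D d a x) (VS S)) * ind (κ₂ ∈ kr (fm D d a x) (VS S))
    rw [ind_pos h2, ind_pos h3, one_mul]
  · rw [ind_neg h]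
    exact sum_nonneg fun p _ => mul_nonneg (ind_nonneg _) (ind_nonneg _)

/-- the label of a configuration -/
def zz (c : (V ι τ × V ι τ) × (V ι τ × V ι τ)) (i : ι) : Lb :=
  ((c.1.1.1 i, c.2.1.1 i), (c.1.2.1 i, c.2.2.1 i))

variable (D) in
/-- the configurations -/
noncomputable def Cfs (S : Finset ι) (l : List ι) : Finset ((V ι τ × V ι τ) × (V ι τ × V ι τ)) :=
  (RR D S ×ˢ ((Vf S : Finset (V ι τ)) ×ˢ (Vf S : Finset (V ι τ)))).filter fun c =>
    (∀ j ∈ l, cj D c j = 0) ∧ cq c = 0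

/-- the small sets of labels -/
noncomputable def XS : Finset (Finset Lb) := univ.filter fun X => X.card ≤ 15

theorem mem_XS {X : Finset Lb} : X ∈ XS ↔ X.card ≤ 15 := by
  rw [XS, mem_filter]
  exact ⟨fun h => h.2, fun h => ⟨mem_univ _, h⟩⟩

theorem CX_ex : ∃ C : ℕ, XS.card ≤ C := ⟨_, le_rfl⟩

/-- a bound for the number of sets of labels -/
noncomputable def CX : ℕ := CX_ex.choose

theorem card_XS : XS.card ≤ CX := CX_ex.choose_spec

theorem labels_few (h2t : ∀ u : W, u ≠ 0 → ∃ s, om u (D.t s) ≠ 0) {S : Finset ι} {l : List ι}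
    {c : (V ι τ × V ι τ) × (V ι τ × V ι τ)} (hc : c ∈ Cfs D S l) :
    (l.toFinset.image (zz c)).card < 16 := by
  rw [Cfs, mem_filter, mem_product] at hc
  obtain ⟨⟨hR, -⟩, hcj, hcq⟩ := hc
  obtain ⟨-, -, ⟨hne, hrel, -⟩, hz⟩ := mem_filter.1 hR
  have q0 : ∀ i, Oq (zz c i).1 + Oq (zz c i).2 = 0 := fun i => congrFun hcq i
  have key : ∀ j ∈ l, ∀ i, qf (zz c j) (zz c i) = 0 := by
    intro j hj i
    by_cases hij : i = j
    · rw [hij]
      exact qf_self _
    · have h1 : cj D c j (Sum.inl i) = 0 := by rw [hcj j hj]; rfl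
      have h2 : Oq ((zz c i).1 + (zz c j).1) + Oq ((zz c i).2 + (zz c j).2) = 0 := by
        have : cj D c j (Sum.inl i) = (if i = j then 0 else Oq ((zz c i).1 + (zz c j).1)) +
          (if i = j then 0 else Oq ((zz c i).2 + (zz c j).2)) := rfl
        rw [this, if_neg hij, if_neg hij] at h1
        exact h1
      have h3 := q0 i
      have h4 := q0 j
      have h5 : qf (zz c j) (zz c i) = (Oq ((zz c i).1 + (zz c j).1) + Oq ((zz c i).2 + (zz c j).2)) +
          (Oq (zz c i).1 + Oq (zz c i).2) + (Oq (zz c j).1 + Oq (zz c j).2) := by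
        simp only [qf, Oq, Prod.fst_add, Prod.snd_add, om_add_left, om_add_right]
        have h : ∀ x : ZMod 2, x + x = 0 := F2s
        linear_combination -(h (om (zz c i).1.1 (zz c i).1.2) + h (om (zz c j).1.1 (zz c j).1.2) +
          h (om (zz c i).2.1 (zz c i).2.2) + h (om (zz c j).2.1 (zz c j).2.2))
      rw [h5, h2, h3, h4, add_zero, add_zero]
  have kb : ∀ s, ∀ x ∈ l.toFinset.image (zz c),
      bet (D.t s) (c.1.1.2 s) (c.2.1.2 s) (c.1.2.2 s) (c.2.2.2 s) x = 0 := by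
    intro s x hx
    obtain ⟨j, hj, rfl⟩ := mem_image.1 hx
    have h1 : cj D c j (Sum.inr s) = 0 := by rw [hcj j (List.mem_toFinset.1 hj)]; rfl
    exact h1
  by_cases hex : ∃ i, c.1.1.1 i ≠ 0 ∨ c.1.2.1 i ≠ 0
  · obtain ⟨i, hi⟩ := hex
    refine few h2t ?_ (z := zz c i) ?_ hi ?_ kb
    · intro x hx y hy
      obtain ⟨j, hj, rfl⟩ := mem_image.1 hx
      obtain ⟨j', hj', rfl⟩ := mem_image.1 hy
      exact key j (List.mem_toFinset.1 hj) j'
    · intro x hx
      obtain ⟨j, hj, rfl⟩ := mem_image.1 hx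
      exact key j (List.mem_toFinset.1 hj) i
    · intro x hx
      obtain ⟨j, hj, rfl⟩ := mem_image.1 hx
      exact hrel j
  · push Not at hex
    have h1 : ∃ s, c.1.1.2 s ≠ 0 ∨ c.1.2.2 s ≠ 0 := by
      by_contra hno
      push Not at hno
      rcases hne with h | h
      · exact h (Prod.ext (funext fun i => (hex i).1) (funext fun s => (hno s).1))
      · exact h (Prod.ext (funext fun i => (hex i).2) (funext fun s => (hno s).2))
    obtain ⟨s, hs⟩ := h1
    have hts : D.t s ≠ 0 := by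
      intro h
      obtain ⟨h2, h3⟩ := hz s h
      rcases hs with h4 | h4
      · exact h4 h2
      · exact h4 h3
    refine few' hts hs ?_ ?_ (kb s)
    · intro x hx
      obtain ⟨j, -, rfl⟩ := mem_image.1 hx
      exact (hex j).1
    · intro x hx
      obtain ⟨j, -, rfl⟩ := mem_image.1 hx
      exact (hex j).2

theorem card_Cfs (h2t : ∀ u : W, u ≠ 0 → ∃ s, om u (D.t s) ≠ 0) {S : Finset ι} {l : List ι}
    (hl : l.Nodup) (hlS : ∀ j ∈ l, j ∈ S) :
    (Cfs D S l).card ≤ CX * 16 ^ Fintype.card τ * (15 ^ l.length * 256 ^ (S.card - l.length)) := by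
  set P : Finset Lb → ι → Finset Lb := fun X i =>
    if i ∈ S then (if i ∈ l then X else univ) else {0} with hP
  have hcard : ∀ X : Finset Lb, X.card ≤ 15 →
      (Fintype.piFinset (P X)).card ≤ 15 ^ l.length * 256 ^ (S.card - l.length) := by
    intro X hX
    rw [Fintype.card_piFinset]
    have h1 : ∏ i, (P X i).card ≤ ∏ i, (if i ∈ l.toFinset then 15 else
        if i ∈ S \ l.toFinset then 256 else 1) := by
      apply prod_le_prod'
      intro i _
      by_cases h2 : i ∈ l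
      · rw [if_pos (List.mem_toFinset.2 h2)]
        show (if i ∈ S then (if i ∈ l then X else univ) else {0}).card ≤ 15
        rw [if_pos (hlS i h2), if_pos h2]
        exact hX
      · rw [if_neg (fun h => h2 (List.mem_toFinset.1 h))]
        show (if i ∈ S then (if i ∈ l then X else univ) else {0}).card ≤ _
        by_cases h3 : i ∈ S
        · rw [if_pos h3, if_neg h2, if_pos (mem_sdiff.2 ⟨h3, fun h => h2 (List.mem_toFinset.1 h)⟩)]
          rw [card_univ]
          simp [Lb, W]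
        · rw [if_neg h3, if_neg (fun h => h3 (mem_sdiff.1 h).1), card_singleton]
    refine h1.trans (le_of_eq ?_)
    have h2 : ∏ i, (if i ∈ l.toFinset then 15 else if i ∈ S \ l.toFinset then 256 else 1) =
        (∏ i, (if i ∈ l.toFinset then 15 else 1)) *
          ∏ i, (if i ∈ S \ l.toFinset then 256 else 1) := by
      rw [← prod_mul_distrib]
      refine prod_congr rfl fun i _ => ?_
      by_cases h3 : i ∈ l.toFinset
      · rw [if_pos h3, if_pos h3, if_neg (fun h => (mem_sdiff.1 h).2 h3), mul_one]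
      · rw [if_neg h3, if_neg h3, one_mul]
    have h3 : (S \ l.toFinset).card = S.card - l.length := by
      rw [card_sdiff_of_subset (fun i hi => hlS i (List.mem_toFinset.1 hi)),
        List.toFinset_card_of_nodup hl]
    rw [h2, prod_ite_mem, prod_ite_mem, univ_inter, univ_inter, prod_const, prod_const, h3,
      List.toFinset_card_of_nodup hl]
  have hsub : (Cfs D S l).card ≤ ((XS.biUnion fun X => Fintype.piFinset (P X)) ×ˢ
      (univ : Finset (((τ → ZMod 2) × (τ → ZMod 2)) × ((τ → ZMod 2) × (τ → ZMod 2))))).card := by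
    apply card_le_card_of_injOn (fun c => (zz c, ((c.1.1.2, c.1.2.2), (c.2.1.2, c.2.2.2))))
    · intro c hc
      have hc' := mem_coe.1 hc
      rw [mem_coe, mem_product]
      refine ⟨?_, mem_univ _⟩
      show zz c ∈ XS.biUnion fun X => Fintype.piFinset (P X)
      rw [mem_biUnion]
      refine ⟨l.toFinset.image (zz c), mem_XS.2 ?_, ?_⟩
      · have := labels_few h2t hc'
        omega
      · rw [Fintype.mem_piFinset]
        intro i
        show zz c i ∈ (if i ∈ S then (if i ∈ l then l.toFinset.image (zz c) else univ) else {0})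
        rw [Cfs, mem_filter, mem_product, mem_product] at hc'
        obtain ⟨⟨hR, hw1, hw2⟩, -⟩ := hc'
        obtain ⟨-, ⟨hk1, hk2⟩, -⟩ := mem_filter.1 hR
        split_ifs with h1 h2
        · exact mem_image_of_mem _ (List.mem_toFinset.2 h2)
        · exact mem_univ _
        · rw [mem_singleton, zz, hk1 i h1, hk2 i h1, (mem_filter.1 hw1).2 i h1,
            (mem_filter.1 hw2).2 i h1]
          rfl
    · rintro ⟨⟨⟨a1, b1⟩, ⟨a2, b2⟩⟩, ⟨⟨a3, b3⟩, ⟨a4, b4⟩⟩⟩ _
        ⟨⟨⟨a1', b1'⟩, ⟨a2', b2'⟩⟩, ⟨⟨a3', b3'⟩, ⟨a4', b4'⟩⟩⟩ _ h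
      simp only [Prod.mk.injEq] at h
      obtain ⟨h1, ⟨h2, h3⟩, h4, h5⟩ := h
      have e1 : a1 = a1' := funext fun i => congrArg (fun z : Lb => z.1.1) (congrFun h1 i)
      have e2 : a2 = a2' := funext fun i => congrArg (fun z : Lb => z.2.1) (congrFun h1 i)
      have e3 : a3 = a3' := funext fun i => congrArg (fun z : Lb => z.1.2) (congrFun h1 i)
      have e4 : a4 = a4' := funext fun i => congrArg (fun z : Lb => z.2.2) (congrFun h1 i)
      rw [e1, e2, e3, e4, h2, h3, h4, h5]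
  refine hsub.trans ?_
  rw [card_product]
  have h1 : ((XS.biUnion fun X => Fintype.piFinset (P X))).card ≤ CX * (15 ^ l.length * 256 ^ (S.card - l.length)) := by
    refine card_biUnion_le.trans ?_
    refine (sum_le_sum fun X hX => hcard X (mem_XS.1 hX)).trans ?_
    rw [sum_const, smul_eq_mul]
    exact Nat.mul_le_mul_right _ card_XS
  have h2 : (univ : Finset (((τ → ZMod 2) × (τ → ZMod 2)) × ((τ → ZMod 2) × (τ → ZMod 2)))).card =
      16 ^ Fintype.card τ := by
    rw [card_univ, Fintype.card_prod, Fintype.card_prod, Fintype.card_fun, ZMod.card, ← mul_pow,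
      ← mul_pow]
    norm_num
  rw [h2]
  calc _ ≤ CX * (15 ^ l.length * 256 ^ (S.card - l.length)) * 16 ^ Fintype.card τ :=
        Nat.mul_le_mul_right _ h1
    _ = _ := by ring

/-- **kernels are generic** -/
theorem ng_bound (h2t : ∀ u : W, u ≠ 0 → ∃ s, om u (D.t s) ≠ 0) {S : Finset ι} {l : List ι}
    (hl : l.Nodup) (hlS : ∀ j ∈ l, j ∈ S) (a : Arr ι τ) :
    MM l (fun a => av fun x : ι → ZMod 2 => ind (NG D d S a x)) a ≤
      CX * 4 ^ Fintype.card τ * ((15 / 16) ^ l.length * 16 ^ (S.card - l.length)) := by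
  set v : ℝ := ((Vf S : Finset (V ι τ)).card : ℝ) with hv
  have hvp : 0 < v := by
    rw [hv, card_Vf]
    positivity
  have h1 : ∀ a : Arr ι τ, v ^ 2 * av (fun x : ι → ZMod 2 => ind (NG D d S a x)) ≤
      ∑ c ∈ RR D S ×ˢ ((Vf S : Finset (V ι τ)) ×ˢ (Vf S : Finset (V ι τ))), Ph c D d a := by
    intro a
    rw [← av_mul]
    have h2 : ∀ x : ι → ZMod 2, v ^ 2 * ind (NG D d S a x) ≤
        ∑ c ∈ RR D S ×ˢ ((Vf S : Finset (V ι τ)) ×ˢ (Vf S : Finset (V ι τ))),
          sg (Lf D d c a x) := by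
      intro x
      rw [sum_product, mul_comm]
      exact ind_NG S a x
    refine (av_mono h2).trans (le_of_eq ?_)
    exact av_sum _ fun c (x : ι → ZMod 2) => sg (Lf D d c a x)
  have h2 := MM_mono l h1 a
  rw [MM_mul, MM_sum] at h2
  have h3 : ∑ c ∈ RR D S ×ˢ ((Vf S : Finset (V ι τ)) ×ˢ (Vf S : Finset (V ι τ))),
      MM l (Ph c D d) a ≤ ((Cfs D S l).card : ℝ) := by
    refine (sum_le_sum fun c _ => MM_Ph_le l c a).trans (le_of_eq ?_)
    rw [Cfs, card_filter]
    push_cast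
    refine sum_congr rfl fun c _ => ?_
    by_cases h : (∀ j ∈ l, cj D c j = 0) ∧ cq c = 0
    · rw [ind_pos h, if_pos h]
    · rw [ind_neg h, if_neg h]
  have h4 : ((Cfs D S l).card : ℝ) ≤
      CX * 16 ^ Fintype.card τ * (15 ^ l.length * 256 ^ (S.card - l.length)) := by
    exact_mod_cast card_Cfs h2t hl hlS
  have h5 : l.length ≤ S.card := by
    rw [← List.toFinset_card_of_nodup hl]
    exact card_le_card fun i hi => hlS i (List.mem_toFinset.1 hi)
  have h6 : (CX : ℝ) * 16 ^ Fintype.card τ * (15 ^ l.length * 256 ^ (S.card - l.length)) =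
      v ^ 2 * (CX * 4 ^ Fintype.card τ * ((15 / 16) ^ l.length * 16 ^ (S.card - l.length))) := by
    rw [hv, card_Vf]
    obtain ⟨m, hm⟩ : ∃ m, S.card = l.length + m := ⟨S.card - l.length, by omega⟩
    rw [hm, Nat.add_sub_cancel_left]
    have e1 : (4 : ℝ) ^ (l.length + m) = 4 ^ l.length * 4 ^ m := pow_add _ _ _
    have e2 : (256 : ℝ) ^ m = (4 ^ m) ^ 2 * 16 ^ m := by
      rw [← pow_mul, mul_comm m 2, pow_mul, ← mul_pow]; norm_num
    have e3 : (15 : ℝ) ^ l.length = (4 ^ l.length) ^ 2 * (15 / 16) ^ l.length := by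
      rw [← pow_mul, mul_comm l.length 2, pow_mul, ← mul_pow]; norm_num
    have e4 : (16 : ℝ) ^ Fintype.card τ = (2 ^ Fintype.card τ) ^ 2 * 4 ^ Fintype.card τ := by
      rw [← pow_mul, mul_comm (Fintype.card τ) 2, pow_mul, ← mul_pow]; norm_num
    rw [e1, e2, e3, e4]
    ring
  have h7 := h2.trans (h3.trans h4)
  rw [h6] at h7
  exact le_of_mul_le_mul_left h7 (by positivity)

end

end Pool.Agent.V8H26.XL
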