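import Mathlib

/-!
# The random walk of the dimension of the kernel
-/

set_option autoImplicit false
set_option linter.all false

namespace Pool.Agent.V8H26.XL

open Finset Filter Topology

/-- the expected value of `F` after `n` steps -/
noncomputable def gg (F : ℕ → ℝ) : ℕ → ℕ → ℝ
  | 0, r => F r
  | n + 1, r => (1 - (1 / 2) ^ r) * gg F n (r - 1) + (1 / 2) ^ r * gg F n (r + 1)

theorem gg_zero (F : ℕ → ℝ) (r : ℕ) : gg F 0 r = F r := rfl

theorem gg_succ (F : ℕ → ℝ) (n r : ℕ) : gg F (n + 1) r =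
    (1 - (1 / 2) ^ r) * gg F n (r - 1) + (1 / 2) ^ r * gg F n (r + 1) := rfl

theorem half_pow_le (r : ℕ) : (1 / 2 : ℝ) ^ r ≤ 1 := pow_le_one₀ (by norm_num) (by norm_num)

theorem half_pow_nonneg (r : ℕ) : (0 : ℝ) ≤ (1 / 2 : ℝ) ^ r := by positivity

theorem gg_bd {F : ℕ → ℝ} (h0 : ∀ r, 0 ≤ F r) (h1 : ∀ r, F r ≤ 1) (n : ℕ) :
    ∀ r, 0 ≤ gg F n r ∧ gg F n r ≤ 1 := by
  induction n with
  | zero => exact fun r => ⟨h0 r, h1 r⟩
  | succ n ih =>
    intro r
    rw [gg_succ]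
    have a := half_pow_le r
    have b := half_pow_nonneg r
    obtain ⟨c1, c2⟩ := ih (r - 1)
    obtain ⟨d1, d2⟩ := ih (r + 1)
    constructor
    · have := mul_nonneg (sub_nonneg.2 a) c1
      have := mul_nonneg b d1
      linarith
    · have := mul_le_mul_of_nonneg_left c2 (sub_nonneg.2 a)
      have := mul_le_mul_of_nonneg_left d2 b
      linarith

/-- two steps -/
theorem gg_two (F : ℕ → ℝ) (n r : ℕ) : gg F (n + 2) r =
    (1 - 3 * (1 / 2) ^ r + 2 * ((1 / 2) ^ r) ^ 2) * gg F n (r - 2) +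
    (3 * (1 / 2) ^ r - 5 / 2 * ((1 / 2) ^ r) ^ 2) * gg F n r +
    1 / 2 * ((1 / 2) ^ r) ^ 2 * gg F n (r + 2) := by
  rw [gg_succ, gg_succ, gg_succ]
  rcases Nat.eq_zero_or_pos r with rfl | hr
  · simp only [pow_zero, zero_add, Nat.sub_self, Nat.zero_sub]
    norm_num
  · obtain ⟨s, rfl⟩ : ∃ s, r = s + 1 := ⟨r - 1, by omega⟩
    have e1 : s + 1 - 1 = s := by omega
    have e2 : s + 1 + 1 - 1 = s + 1 := by omega
    have e3 : s + 1 - 2 = s - 1 := by omega
    have e4 : s + 1 + 1 + 1 = s + 1 + 2 := rfl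
    rw [e1, e2, e3, e4]
    rw [pow_succ, pow_succ]
    ring

/-- the partial products -/
noncomputable def PP (k : ℕ) : ℝ := ∏ j ∈ range k, (1 - (1 / 2 : ℝ) ^ (2 * j + 1))

theorem PP_succ (k : ℕ) : PP (k + 1) = PP k * (1 - (1 / 2) ^ (2 * k + 1)) := prod_range_succ _ _

/-- the indicator of zero -/
noncomputable def F0 (r : ℕ) : ℝ := if r = 0 then 1 else 0

theorem gg_lt (n : ℕ) : ∀ r, n < r → gg F0 n r = 0 := by
  induction n with
  | zero =>
    intro r hr
    exact if_neg (by omega)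
  | succ n ih =>
    intro r hr
    rw [gg_succ, ih _ (by omega), ih _ (by omega)]
    ring

/-- the closed form -/
theorem gg_closed (n : ℕ) : (∀ k, n = 2 * k → gg F0 n 0 = PP k) ∧
    ∀ r q, 1 ≤ r → n + 2 = r + 2 * q →
      gg F0 n r = PP q * ∏ j ∈ Ico (2 * q) (2 * q + r - 1), (1 - (1 / 2 : ℝ) ^ j) := by
  have hzero : ∀ m : ℕ, 1 ≤ m → ∏ j ∈ Ico 0 m, (1 - (1 / 2 : ℝ) ^ j) = 0 := by
    intro m hm
    apply prod_eq_zero (i := 0) (mem_Ico.2 ⟨le_rfl, hm⟩)
    norm_num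
  induction n with
  | zero =>
    refine ⟨?_, ?_⟩
    · intro k hk
      have : k = 0 := by omega
      subst this
      rw [gg_zero, F0, if_pos rfl, PP, prod_range_zero]
    · intro r q hr h
      have h1 : q = 0 := by omega
      subst h1
      rw [gg_lt 0 r (by omega), mul_zero, zero_add, hzero _ (by omega), mul_zero]
  | succ n ih =>
    obtain ⟨ih1, ih2⟩ := ih
    refine ⟨?_, ?_⟩
    · intro k hk
      rw [gg_succ, pow_zero, sub_self, zero_mul, zero_add, one_mul,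
        ih2 (0 + 1) k le_rfl (by omega)]
      simp
    · intro r q hr h
      rcases Nat.eq_zero_or_pos q with rfl | hq
      · rw [gg_lt (n + 1) r (by omega), mul_zero, zero_add, hzero _ (by omega), mul_zero]
      · obtain ⟨q, rfl⟩ : ∃ q', q = q' + 1 := ⟨q - 1, by omega⟩
        rcases Nat.lt_or_ge 1 r with hr2 | hr2
        · -- `r ≥ 2`
          obtain ⟨s, rfl⟩ : ∃ s, r = s + 2 := ⟨r - 2, by omega⟩
          rw [gg_succ, ih2 (s + 2 - 1) (q + 1) (by omega) (by omega),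
            ih2 (s + 2 + 1) q (by omega) (by omega)]
          have e1 : 2 * (q + 1) + (s + 2 - 1) - 1 = 2 * q + 2 + s := by omega
          have e2 : 2 * q + (s + 2 + 1) - 1 = 2 * q + 2 + s := by omega
          have e3 : 2 * (q + 1) + (s + 2) - 1 = 2 * q + 2 + s + 1 := by omega
          have e4 : 2 * (q + 1) = 2 * q + 2 := by ring
          rw [e1, e2, e3, e4, prod_Ico_succ_top (by omega),
            prod_eq_prod_Ico_succ_bot (a := 2 * q) (by omega),
            prod_eq_prod_Ico_succ_bot (a := 2 * q + 1) (by omega), PP_succ]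
          have e5 : (1 / 2 : ℝ) ^ (2 * q + 2 + s) = (1 / 2) ^ (s + 2) * (1 / 2) ^ (2 * q) := by
            rw [← pow_add]
            congr 1
            ring
          rw [e5]
          ring
        · have : r = 1 := by omega
          subst this
          rw [gg_succ, show 1 - 1 = 0 from rfl, ih1 q (by omega),
            ih2 (1 + 1) q (by omega) (by omega)]
          have e1 : 2 * q + (1 + 1) - 1 = 2 * q + 1 := by omega
          have e2 : 2 * (q + 1) + 1 - 1 = 2 * (q + 1) := by omega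
          rw [e1, e2, Ico_self, prod_empty, Nat.Ico_succ_singleton, prod_singleton, PP_succ,
            pow_succ]
          ring

/-- the limit -/
noncomputable def cc : ℝ := ∏' i : ℕ, (1 - (1 / 2 : ℝ) ^ (2 * i + 1))

theorem tendsto_PP : Tendsto PP atTop (𝓝 cc) := by
  have h1 : Summable fun i : ℕ => (-(1 / 2 : ℝ) ^ (2 * i + 1)) := by
    apply Summable.neg
    have h2 : Summable fun i : ℕ => (1 / 2 : ℝ) * (1 / 4) ^ i :=
      (summable_geometric_of_lt_one (by norm_num) (by norm_num)).mul_left _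
    refine h2.congr fun i => ?_
    rw [pow_succ, pow_mul]
    norm_num
    ring
  have h2 : Multipliable fun i : ℕ => (1 - (1 / 2 : ℝ) ^ (2 * i + 1)) := by
    have := Real.multipliable_one_add_of_summable h1
    simpa [sub_eq_add_neg] using this
  exact h2.hasProd.tendsto_prod_nat

theorem prod_ge (a m : ℕ) : 1 - 2 * (1 / 2 : ℝ) ^ a ≤ ∏ j ∈ Ico a (a + m), (1 - (1 / 2 : ℝ) ^ j) ∧
    0 ≤ ∏ j ∈ Ico a (a + m), (1 - (1 / 2 : ℝ) ^ j) ∧
    ∏ j ∈ Ico a (a + m), (1 - (1 / 2 : ℝ) ^ j) ≤ 1 := by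
  have h0 : ∀ j, 0 ≤ 1 - (1 / 2 : ℝ) ^ j := fun j => sub_nonneg.2 (half_pow_le j)
  have h1 : ∀ j, 1 - (1 / 2 : ℝ) ^ j ≤ 1 := fun j => by
    have := half_pow_nonneg j
    linarith
  refine ⟨?_, prod_nonneg fun j _ => h0 j, prod_le_one (fun j _ => h0 j) fun j _ => h1 j⟩
  have key : ∀ m : ℕ, 1 - 2 * (1 / 2 : ℝ) ^ a + 2 * (1 / 2) ^ (a + m) ≤
      ∏ j ∈ Ico a (a + m), (1 - (1 / 2 : ℝ) ^ j) := by
    intro m
    induction m with
    | zero => simp
    | succ m ih =>
      rw [← add_assoc, prod_Ico_succ_top (by omega)]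
      have h2 : ∏ j ∈ Ico a (a + m), (1 - (1 / 2 : ℝ) ^ j) ≤ 1 :=
        prod_le_one (fun j _ => h0 j) fun j _ => h1 j
      have h3 := half_pow_nonneg (a + m)
      have h4 : (1 / 2 : ℝ) ^ (a + m + 1) = (1 / 2) * (1 / 2) ^ (a + m) := by rw [pow_succ]; ring
      rw [h4]
      nlinarith
  have := key m
  have h3 := half_pow_nonneg (a + m)
  linarith

/-- uniform convergence -/
theorem gg_lim {ε : ℝ} (hε : 0 < ε) : ∃ k₀ : ℕ, ∀ t s : ℕ, s + k₀ ≤ t →
    |gg F0 (2 * t) (2 * s) - cc| ≤ ε := by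
  have h1 : ∀ᶠ k : ℕ in atTop, |PP k - cc| ≤ ε / 2 := by
    have := (Metric.tendsto_nhds.1 tendsto_PP) (ε / 2) (by positivity)
    filter_upwards [this] with k hk
    rw [Real.dist_eq] at hk
    exact hk.le
  have h2 : ∀ᶠ k : ℕ in atTop, 2 * (1 / 2 : ℝ) ^ k ≤ ε / 2 := by
    have h3 : Tendsto (fun k : ℕ => 2 * (1 / 2 : ℝ) ^ k) atTop (𝓝 (2 * 0)) :=
      (tendsto_pow_atTop_nhds_zero_of_lt_one (by norm_num) (by norm_num)).const_mul 2
    rw [mul_zero] at h3
    exact h3.eventually_le_const (by positivity)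
  obtain ⟨k₀, hk⟩ := eventually_atTop.1 (h1.and h2)
  refine ⟨k₀, fun t s hst => ?_⟩
  rcases Nat.eq_zero_or_pos s with rfl | hs
  · rw [mul_zero, (gg_closed (2 * t)).1 t rfl]
    exact (hk t (by omega)).1.trans (by linarith)
  · have h3 := (gg_closed (2 * t)).2 (2 * s) (t - s + 1) (by omega) (by omega)
    have e1 : 2 * (t - s + 1) + 2 * s - 1 = 2 * (t - s + 1) + (2 * s - 1) := by omega
    rw [h3, e1]
    obtain ⟨p1, p2, p3⟩ := prod_ge (2 * (t - s + 1)) (2 * s - 1)
    set pr := ∏ j ∈ Ico (2 * (t - s + 1)) (2 * (t - s + 1) + (2 * s - 1)), (1 - (1 / 2 : ℝ) ^ j)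
    have h4 := (hk (t - s + 1) (by omega)).1
    have h5 : 2 * (1 / 2 : ℝ) ^ (2 * (t - s + 1)) ≤ ε / 2 := by
      refine le_trans ?_ (hk (t - s + 1) (by omega)).2
      apply mul_le_mul_of_nonneg_left _ (by norm_num)
      exact pow_le_pow_of_le_one (by norm_num) (by norm_num) (by omega)
    have h6 : 0 ≤ PP (t - s + 1) ∧ PP (t - s + 1) ≤ 1 := by
      constructor
      · exact prod_nonneg fun j _ => sub_nonneg.2 (half_pow_le _)
      · exact prod_le_one (fun j _ => sub_nonneg.2 (half_pow_le _)) fun j _ => by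
          have := half_pow_nonneg (2 * j + 1)
          linarith
    have h7 : PP (t - s + 1) * pr - cc = (PP (t - s + 1) - cc) - PP (t - s + 1) * (1 - pr) := by ring
    rw [h7]
    refine (abs_sub _ _).trans ?_
    have h8 : |PP (t - s + 1) * (1 - pr)| ≤ ε / 2 := by
      rw [abs_of_nonneg (mul_nonneg h6.1 (by linarith))]
      calc PP (t - s + 1) * (1 - pr) ≤ 1 * (1 - pr) := mul_le_mul_of_nonneg_right h6.2 (by linarith)
        _ ≤ ε / 2 := by linarith
    linarith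

end Pool.Agent.V8H26.XL
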