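import Pool.Agent.V8H26.XL.Arr
import Pool.Agent.V8H26.XL.Rec

/-!
# Averages over the symbols of one index
-/

set_option autoImplicit false
set_option linter.all false

namespace Pool.Agent.V8H26.XL

open Module Finset
open Pool.Agent.Y164.PS (W om om_add_left om_add_right om_comm om_self om_zero_left om_zero_right Oq ee
  om_smul_left om_smul_right eq_zero_of_om W_add_self Dat V ks dg ws dg_ws lab ks_add dg_add sg sg_add
  sg_zero sg_one abs_sg FF_split)
open Pool.Agent.V8H64.FF (Phi phi_comm phi_add_left phi_smul_left)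
open scoped Classical

/-- the average -/
noncomputable def av {α : Type} [Finite α] (f : α → ℝ) : ℝ :=
  (∑ x ∈ (Set.toFinite (Set.univ : Set α)).toFinset, f x) / Nat.card α

theorem av_eq {α : Type} [Fintype α] (f : α → ℝ) : av f = (∑ x, f x) / Fintype.card α := by
  rw [av, Nat.card_eq_fintype_card]
  congr 2
  ext x
  simp

section av
variable {α β : Type} [Fintype α] [Fintype β]

theorem av_congr {f g : α → ℝ} (h : ∀ x, f x = g x) : av f = av g := by
  rw [show f = g from funext h]

theorem av_add (f g : α → ℝ) : av (fun x => f x + g x) = av f + av g := by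
  rw [av_eq, av_eq, av_eq, sum_add_distrib, add_div]

theorem av_sub (f g : α → ℝ) : av (fun x => f x - g x) = av f - av g := by
  rw [av_eq, av_eq, av_eq, sum_sub_distrib, sub_div]

theorem av_mul (c : ℝ) (f : α → ℝ) : av (fun x => c * f x) = c * av f := by
  rw [av_eq, av_eq, ← mul_sum, mul_div_assoc]

theorem av_mul' (c : ℝ) (f : α → ℝ) : av (fun x => f x * c) = av f * c := by
  rw [av_eq, av_eq, ← sum_mul, div_mul_eq_mul_div]

theorem av_const [Nonempty α] (c : ℝ) : av (fun _ : α => c) = c := by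
  rw [av_eq, sum_const, card_univ, nsmul_eq_mul]
  have : (Fintype.card α : ℝ) ≠ 0 := by exact_mod_cast Fintype.card_ne_zero
  field_simp

theorem av_mono {f g : α → ℝ} (h : ∀ x, f x ≤ g x) : av f ≤ av g := by
  rw [av_eq, av_eq]
  exact div_le_div_of_nonneg_right (sum_le_sum fun x _ => h x) (Nat.cast_nonneg _)

theorem av_nonneg {f : α → ℝ} (h : ∀ x, 0 ≤ f x) : 0 ≤ av f := by
  rw [av_eq]
  exact div_nonneg (sum_nonneg fun x _ => h x) (Nat.cast_nonneg _)

theorem abs_av_le {f g : α → ℝ} (h : ∀ x, |f x| ≤ g x) : |av f| ≤ av g := by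
  rw [av_eq, av_eq, abs_div, Nat.abs_cast]
  exact div_le_div_of_nonneg_right ((abs_sum_le_sum_abs _ _).trans (sum_le_sum fun x _ => h x))
    (Nat.cast_nonneg _)

theorem av_comm (f : α → β → ℝ) : av (fun x => av (f x)) = av (fun y => av fun x => f x y) := by
  simp only [av_eq]
  rw [← sum_div, ← sum_div, sum_comm, div_div, div_div, mul_comm]

theorem av_equiv (e : α ≃ β) (f : β → ℝ) : av (fun x => f (e x)) = av f := by
  rw [av_eq, av_eq, Equiv.sum_comp e f, Fintype.card_congr e]

theorem av_sum {γ : Type} (s : Finset γ) (f : γ → α → ℝ) :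
    av (fun x => ∑ c ∈ s, f c x) = ∑ c ∈ s, av (f c) := by
  simp only [av_eq]
  rw [sum_comm, sum_div]

theorem av_shift {κ : Type} [Fintype κ] (x₀ : κ → ZMod 2) (f : (κ → ZMod 2) → ℝ) :
    av (fun x => f (x + x₀)) = av f := av_equiv (Equiv.addRight x₀) f

end av

theorem av_half {α β : Type} [Fintype α] [Fintype β] (f g : α → β → ℝ) :
    av (fun x => 1 / 2 * av (fun v => f x v + g x v)) =
      1 / 2 * (av (fun x => av (f x)) + av (fun x => av (g x))) := by
  rw [av_mul, ← av_add]
  congr 1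
  exact av_congr fun x => av_add _ _

/-! ### Characters -/

theorem fun_self {κ : Type} (x : κ → ZMod 2) : x + x = 0 := funext fun _ => F2s _

/-- the average of a character -/
theorem av_char {κ : Type} [Fintype κ] (c : κ → ZMod 2) :
    av (fun v : κ → ZMod 2 => sg (∑ z, c z * v z)) = if c = 0 then 1 else 0 := by
  split_ifs with h
  · subst h
    simp only [Pi.zero_apply, zero_mul, sum_const_zero, sg_zero]
    exact av_const 1
  · obtain ⟨z, hz⟩ : ∃ z, c z ≠ 0 := by
      by_contra hno
      push Not at hno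
      exact h (funext hno)
    have h1 := av_shift (Pi.single z 1 : κ → ZMod 2) (fun v : κ → ZMod 2 => sg (∑ z, c z * v z))
    have h2 : ∀ v : κ → ZMod 2, sg (∑ z', c z' * (v + (Pi.single z 1 : κ → ZMod 2)) z') =
        (-1) * sg (∑ z, c z * v z) := by
      intro v
      have h3 : ∑ z', c z' * (v + (Pi.single z 1 : κ → ZMod 2)) z' = ∑ z, c z * v z + 1 := by
        simp only [Pi.add_apply, mul_add, sum_add_distrib]
        congr 1
        rw [sum_eq_single z]
        · rw [Pi.single_eq_same, mul_one, F2n hz]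
        · intro b _ hb
          rw [Pi.single_eq_of_ne hb, mul_zero]
        · intro h
          exact absurd (mem_univ _) h
      rw [h3, sg_add, sg_one]
      ring
    rw [av_congr h2, av_mul] at h1
    linarith

/-- orthogonality over a group of exponent two -/
theorem sum_hom {G : Type} [AddCommGroup G] [Fintype G] (h : G →+ ZMod 2) :
    (∑ g, sg (h g)) = if ∀ g, h g = 0 then (Fintype.card G : ℝ) else 0 := by
  split_ifs with h0
  · rw [sum_congr rfl fun g _ => by rw [h0 g, sg_zero], sum_const, card_univ, nsmul_eq_mul, mul_one]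
  · push Not at h0
    obtain ⟨g₀, hg⟩ := h0
    have h1 : ∑ g, sg (h (g + g₀)) = ∑ g, sg (h g) :=
      Equiv.sum_comp (Equiv.addRight g₀) fun g => sg (h g)
    have h2 : ∀ g, sg (h (g + g₀)) = - sg (h g) := by
      intro g
      rw [map_add, sg_add, F2n hg, sg_one]
      ring
    rw [sum_congr rfl fun g _ => h2 g, sum_neg_distrib] at h1
    linarith

/-- the probability that a random functional vanishes -/
theorem av_ind {G κ : Type} [AddCommGroup G] [Fintype G] [Fintype κ] (L : G →+ (κ → ZMod 2))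
    (c : G →+ ZMod 2) (hL : ∀ g, L g = 0 → g = 0) :
    av (fun v : κ → ZMod 2 => ind (∀ g, (∑ z, L g z * v z) + c g = 0)) =
      1 / Fintype.card G := by
  have hG : (Fintype.card G : ℝ) ≠ 0 := by exact_mod_cast Fintype.card_ne_zero
  have h1 : ∀ v : κ → ZMod 2, ind (∀ g, (∑ z, L g z * v z) + c g = 0) =
      1 / Fintype.card G * ∑ g, sg ((∑ z, L g z * v z) + c g) := by
    intro v
    let h : G →+ ZMod 2 :=
      { toFun := fun g => (∑ z, L g z * v z) + c g
        map_zero' := by simp
        map_add' := fun g g' => by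
          simp only [map_add, Pi.add_apply, add_mul, sum_add_distrib]
          ring }
    have h2 := sum_hom h
    have h3 : ∀ g, h g = (∑ z, L g z * v z) + c g := fun _ => rfl
    simp only [h3] at h2
    rw [h2]
    split_ifs with h4
    · rw [ind_pos h4]
      field_simp
    · rw [ind_neg h4, mul_zero]
  rw [av_congr h1, av_mul, av_sum univ (fun g (v : κ → ZMod 2) => sg ((∑ z, L g z * v z) + c g))]
  have h2 : ∀ g ∈ (univ : Finset G), av (fun v : κ → ZMod 2 => sg ((∑ z, L g z * v z) + c g)) =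
      if g = 0 then 1 else 0 := by
    intro g _
    have h3 : ∀ v : κ → ZMod 2, sg ((∑ z, L g z * v z) + c g) =
        sg (c g) * sg (∑ z, L g z * v z) := fun v => by rw [sg_add, mul_comm]
    rw [av_congr h3, av_mul, av_char]
    by_cases hg : g = 0
    · subst hg
      rw [if_pos (map_zero L), if_pos rfl, map_zero, sg_zero, mul_one]
    · rw [if_neg (fun h => hg (hL g h)), if_neg hg, mul_zero]
  rw [sum_congr rfl h2, sum_ite_eq' univ (0 : G) (fun _ => (1 : ℝ)), if_pos (mem_univ _), mul_one]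

section
variable {ι τ : Type} [Fintype ι] [Fintype τ]

/-- the average over the symbols of `j` -/
noncomputable def Mop (j : ι) (Φ : Arr ι τ → ℝ) (a : Arr ι τ) : ℝ :=
  av fun v : ι ⊕ τ → ZMod 2 => Φ (rep j v a)

/-- the average over the symbols of the indices of a list -/
noncomputable def MM : List ι → (Arr ι τ → ℝ) → Arr ι τ → ℝ
  | [], Φ => Φ
  | j :: l, Φ => MM l (Mop j Φ)

theorem MM_mono (l : List ι) : ∀ {Φ Ψ : Arr ι τ → ℝ}, (∀ a, Φ a ≤ Ψ a) → ∀ a, MM l Φ a ≤ MM l Ψ a := by
  induction l with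
  | nil => exact fun h a => h a
  | cons j l ih => exact fun h a => ih (fun b => av_mono fun v => h _) a

theorem MM_add (l : List ι) : ∀ (Φ Ψ : Arr ι τ → ℝ) (a : Arr ι τ),
    MM l (fun a => Φ a + Ψ a) a = MM l Φ a + MM l Ψ a := by
  induction l with
  | nil => exact fun _ _ _ => rfl
  | cons j l ih =>
    intro Φ Ψ a
    have h : Mop j (fun a => Φ a + Ψ a) = fun a => Mop j Φ a + Mop j Ψ a := by
      funext b
      exact av_add _ _
    show MM l (Mop j fun a => Φ a + Ψ a) a = _
    rw [h, ih]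
    rfl

theorem MM_mul (l : List ι) (c : ℝ) : ∀ (Φ : Arr ι τ → ℝ) (a : Arr ι τ),
    MM l (fun a => c * Φ a) a = c * MM l Φ a := by
  induction l with
  | nil => exact fun _ _ => rfl
  | cons j l ih =>
    intro Φ a
    have h : Mop j (fun a => c * Φ a) = fun a => c * Mop j Φ a := by
      funext b
      exact av_mul _ _
    show MM l (Mop j fun a => c * Φ a) a = _
    rw [h, ih]
    rfl

theorem MM_sub (l : List ι) (Φ Ψ : Arr ι τ → ℝ) (a : Arr ι τ) :
    MM l (fun a => Φ a - Ψ a) a = MM l Φ a - MM l Ψ a := by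
  have h : (fun a => Φ a - Ψ a) = fun a => Φ a + (-1) * Ψ a := by
    funext b; ring
  rw [h, MM_add, MM_mul]
  ring

theorem MM_const (l : List ι) (c : ℝ) (a : Arr ι τ) : MM l (fun _ => c) a = c := by
  induction l with
  | nil => rfl
  | cons j l ih =>
    have h : Mop j (fun _ : Arr ι τ => c) = fun _ => c := by
      funext b
      exact av_const c
    show MM l (Mop j fun _ => c) a = c
    rw [h, ih]

theorem MM_abs (l : List ι) {Φ Ψ Θ : Arr ι τ → ℝ} (h : ∀ a, |Φ a - Ψ a| ≤ Θ a) (a : Arr ι τ) :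
    |MM l Φ a - MM l Ψ a| ≤ MM l Θ a := by
  rw [abs_le, ← MM_sub]
  constructor
  · have h1 : ∀ a, (-1) * Θ a ≤ Φ a - Ψ a := fun a => by
      have := (abs_le.1 (h a)).1
      linarith
    have := MM_mono l h1 a
    rw [MM_mul] at this
    linarith
  · exact MM_mono l (fun a => (abs_le.1 (h a)).2) a

theorem MM_append (l l' : List ι) : ∀ (Φ : Arr ι τ → ℝ), MM (l ++ l') Φ = MM l' (MM l Φ) := by
  induction l with
  | nil => exact fun _ => rfl
  | cons j l ih => exact fun Φ => ih (Mop j Φ)

/-! ### The step -/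

variable (D : Dat τ) (d : ι → ZMod 2)

/-- the symbols of `j` -/
noncomputable def va (j : ι) (a : Arr ι τ) : ι ⊕ τ → ZMod 2 :=
  Sum.elim (fun i => a.A i j) (fun s => a.B j s)

theorem fm_self (j : ι) (a : Arr ι τ) (x : ι → ZMod 2) (w w' : V ι τ) :
    fm D d a x w w' = fm D d (rep j 0 a) x w w' + ∑ y, co D j w w' y * va j a y := by
  rw [fm_apply, fm_apply, Phi, Phi, FF_split D _ d a.symm w w' j]
  have e1 : (fun i i' => if i = j ∨ i' = j then (0 : ZMod 2) else a.A i i') =
      (rep j 0 a).A := by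
    funext i i'
    by_cases h : i = j <;> by_cases h' : i' = j <;> simp [rep, h, h']
  have e2 : (fun i s => if i = j then (0 : ZMod 2) else a.B i s) = (rep j 0 a).B := by
    funext i s
    by_cases h : i = j <;> simp [rep, h]
  have e3 : ∑ i ∈ univ.erase j, a.A i j * Oq (lab w w' i + lab w w' j) =
      ∑ i, (if i = j then 0 else Oq (lab w w' i + lab w w' j)) * a.A i j := by
    rw [← add_sum_erase univ _ (mem_univ j), if_pos rfl, zero_mul, zero_add]
    refine sum_congr rfl fun i hi => ?_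
    rw [if_neg (ne_of_mem_erase hi)]
    ring
  have e4 : ∑ s, a.B j s * ee (D.t s) (w.2 s) (w'.2 s) (lab w w' j) =
      ∑ s, ee (D.t s) (w.2 s) (w'.2 s) (lab w w' j) * a.B j s :=
    sum_congr rfl fun s _ => by ring
  rw [e1, e2, e3, e4, Fintype.sum_sum_type]
  simp only [co, va, Sum.elim_inl, Sum.elim_inr]
  ring

theorem fm_va (j : ι) (a : Arr ι τ) (x : ι → ZMod 2) (w w' : V ι τ) :
    fm D d a x w w' = fm D d (rep j (va j a) a) x w w' := by
  rw [fm_self D d j a, fm_rep D d j (va j a) a]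

/-- the expected value -/
noncomputable def EE (F : ℕ → ℝ) (S : Finset ι) (n : ℕ) (a : Arr ι τ) : ℝ :=
  av fun x : ι → ZMod 2 => gg F n (rho (fm D d a x) (VS S))

theorem EE_rep (F : ℕ → ℝ) {S : Finset ι} {j : ι} (hj : j ∉ S) (n : ℕ) (v : ι ⊕ τ → ZMod 2)
    (a : Arr ι τ) : EE D d F S n (rep j v a) = EE D d F S n (rep j 0 a) := by
  rw [EE, EE, ← av_shift (vh j v)]
  refine av_congr fun x => ?_
  congr 1
  apply rho_congr
  intro u hu w hw
  exact fm_rest D d j v a x u w (hu j hj) (hw j hj)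

theorem EE_self (F : ℕ → ℝ) {S : Finset ι} {j : ι} (hj : j ∉ S) (n : ℕ) (a : Arr ι τ) :
    EE D d F S n a = EE D d F S n (rep j 0 a) := by
  rw [← EE_rep D d F hj n (va j a) a, EE, EE]
  refine av_congr fun x => ?_
  congr 1
  apply rho_congr
  intro u hu w hw
  exact fm_va D d j a x u w

/-- the pairs which are not generic -/
def Rel (κ₁ κ₂ : V ι τ) : Prop := (κ₁ ≠ 0 ∨ κ₂ ≠ 0) ∧ (∀ i, (κ₁.1 i).2 = (κ₂.1 i).1) ∧
  ∀ s, κ₁.2 s * (D.t s).2 = κ₂.2 s * (D.t s).1

/-- the kernel is not generic -/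
def NG (S : Finset ι) (a : Arr ι τ) (x : ι → ZMod 2) : Prop :=
  ∃ κ₁ ∈ kr (fm D d a x) (VS S), ∃ κ₂ ∈ kr (fm D d a x) (VS S), Rel D κ₁ κ₂

theorem NG_congr {S : Finset ι} {a a' : Arr ι τ} {x x' : ι → ZMod 2}
    (h : ∀ u ∈ VS (τ := τ) S, ∀ w ∈ VS S, fm D d a x u w = fm D d a' x' u w) :
    NG D d S a x ↔ NG D d S a' x' := by
  rw [NG, NG, kr_congr h]

theorem co_add (j : ι) (w w' u : V ι τ) : co D j (w + w') u = co D j w u + co D j w' u := by
  funext y
  rcases y with i | s
  · show (if i = j then 0 else Oq (lab (w + w') u i + lab (w + w') u j)) =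
      (if i = j then 0 else Oq (lab w u i + lab w u j)) +
        (if i = j then 0 else Oq (lab w' u i + lab w' u j))
    split_ifs
    · rw [add_zero]
    · simp only [Oq, lab, Prod.fst_add, Prod.snd_add, Pi.add_apply, om_add_left, om_add_right]
      ring
  · show ee (D.t s) ((w + w').2 s) (u.2 s) (lab (w + w') u j) =
      ee (D.t s) (w.2 s) (u.2 s) (lab w u j) + ee (D.t s) (w'.2 s) (u.2 s) (lab w' u j)
    simp only [ee, lab, Prod.fst_add, Prod.snd_add, Pi.add_apply, om_add_left]
    ring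

theorem co_inl {j : ι} {w : V ι τ} (h : w.1 j = 0) (y : W) (i : ι) :
    co D j w (vj j y) (Sum.inl i) = om (w.1 i) y := by
  show (if i = j then 0 else Oq (lab w (vj j y) i + lab w (vj j y) j)) = _
  split_ifs with hij
  · rw [hij, h, om_zero_left]
  · show om (w.1 i + w.1 j) ((vj (τ := τ) j y).1 i + (vj (τ := τ) j y).1 j) = _
    rw [h, add_zero, vj_fst, vj_fst, if_neg hij, if_pos rfl, zero_add]

theorem co_inr {j : ι} {w : V ι τ} (h : w.1 j = 0) (y : W) (s : τ) :
    co D j w (vj j y) (Sum.inr s) = w.2 s * om (D.t s) y := by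
  show ee (D.t s) (w.2 s) ((vj (ι := ι) j y).2 s) (w.1 j, (vj (τ := τ) j y).1 j) = _
  rw [h, vj_fst, if_pos rfl, vj_snd, ee]
  simp only [om_zero_left, zero_mul, zero_add, add_zero]

end

end Pool.Agent.V8H26.XL
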