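import Pool.Agent.V8H26.XL.Chn
import Pool.Agent.V8H64.FF.Opt

/-!
# The kernel of the form and the class condition
-/

set_option autoImplicit false
set_option linter.all false

namespace Pool.Agent.V8H26.XL

open Module Finset
open Pool.Agent.Y164.PS (W om om_add_left om_add_right om_comm om_self om_zero_left om_zero_right Oq ee
  om_smul_left om_smul_right eq_zero_of_om W_add_self Dat V ks dg ws dg_ws lab ks_add dg_add sg sg_add
  sg_zero sg_one abs_sg FF_split FF_add_left FF_add_right FF_comm TT dg_TT FF_eq E1_TT E2_TT Triv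
  om_ks_comm FF_zero_left)
open Pool.Agent.V8H64.FF (Phi phi_comm phi_add_left phi_smul_left om_odd)
open scoped Classical

section
variable {ι τ : Type} [Fintype ι] [Fintype τ] (D : Dat τ) (d : ι → ZMod 2)

/-- the degree as a linear map -/
def dL : V ι τ →ₗ[ZMod 2] W where
  toFun w := dg D d w
  map_add' w w' := dg_add D d w w'
  map_smul' c w := by
    have h0 : dg D d (0 : V ι τ) = 0 := by simp [dg]
    rcases F2c c with rfl | rfl
    · rw [zero_smul, h0]
      simp
    · rw [one_smul]
      simp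

/-- the vectors of degree zero -/
def V0 : Submodule (ZMod 2) (V ι τ) := LinearMap.ker (dL D d)

theorem mem_V0 {w : V ι τ} : w ∈ V0 D d ↔ dg D d w = 0 := LinearMap.mem_ker

/-- the original form of an array -/
noncomputable def FB (a : Arr ι τ) : LinearMap.BilinForm (ZMod 2) (V ι τ) :=
  LinearMap.mk₂ (ZMod 2) (Pool.Agent.Y164.PS.FF D a.A a.B d) (FF_add_left D a.A a.B d)
    (fun c w w' => by
      rcases F2c c with rfl | rfl
      · rw [zero_smul, FF_zero_left, zero_smul]
      · rw [one_smul, one_smul])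
    (FF_add_right D a.B d a.symm)
    (fun c w w' => by
      rcases F2c c with rfl | rfl
      · rw [zero_smul, FF_comm D a.B d a.symm, FF_zero_left, zero_smul]
      · rw [one_smul, one_smul])

theorem FB_apply (a : Arr ι τ) (w w' : V ι τ) :
    FB D d a w w' = Pool.Agent.Y164.PS.FF D a.A a.B d w w' := rfl

/-- the dimension of the kernel -/
noncomputable def r0 (a : Arr ι τ) : ℕ := rho (FB D d a) (V0 D d)

/-- the class condition -/
def clA (a : Arr ι τ) : Prop := ∀ s, 1 + ∑ i, a.B i s + D.g s = 0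

/-- the correction -/
def cor : V ι τ →ₗ[ZMod 2] V ι τ where
  toFun w := w + TT D (dg D d w)
  map_add' w w' := by
    have h : (TT D (dg D d (w + w')) : V ι τ) = TT D (dg D d w) + TT D (dg D d w') := by
      rw [dg_add]
      refine Prod.ext (funext fun i => rfl) (funext fun s => ?_)
      exact om_add_left _ _ _
    show w + w' + TT D (dg D d (w + w')) = w + TT D (dg D d w) + (w' + TT D (dg D d w'))
    rw [h]
    abel
  map_smul' c w := by
    have h0 : dg D d (0 : V ι τ) = 0 := by simp [dg]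
    have h1 : (TT D 0 : V ι τ) = 0 :=
      Prod.ext rfl (funext fun s => om_zero_left _)
    rcases F2c c with rfl | rfl
    · rw [zero_smul, h0, h1, add_zero]
      simp
    · rw [one_smul]
      simp

variable {D d}

theorem cor_apply (w : V ι τ) : cor D d w = w + TT D (dg D d w) := rfl

theorem triv_iff_r0 (a : Arr ι τ) : Triv D a.A a.B d ↔ r0 D d a = 0 := by
  rw [r0, rho, Submodule.finrank_eq_zero]
  constructor
  · intro h
    rw [eq_bot_iff]
    intro w hw
    rw [Submodule.mem_bot]
    exact h w ((mem_V0 D d).1 hw.1) fun w' hw' => hw.2 w' ((mem_V0 D d).2 hw')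
  · intro h w hw hw'
    have : w ∈ kr (FB D d a) (V0 D d) :=
      ⟨(mem_V0 D d).2 hw, fun v hv => hw' v ((mem_V0 D d).1 hv)⟩
    rw [h, Submodule.mem_bot] at this
    exact this

/-- **the kernel, with one index eliminated** -/
theorem r0_eq {a : Arr ι τ} (hcl : clA D a) (hN : ∑ i, d i + D.N = 1) (j : ι) :
    r0 D d a = rho (fm D d a 0) (VS (univ.erase j)) := by
  have hdT : ∀ y : W, dg D d (TT D y) = y := fun y => by rw [dg_TT, hN, one_smul]
  have hFT : ∀ (y : W) (w' : V ι τ),
      Pool.Agent.Y164.PS.FF D a.A a.B d (TT D y) w' = om (ks D.l y) (dg D d w') := fun y w' =>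
    FF_eq D a.B d _ _ (fun i => E1_TT D a.B d y i) (fun s => E2_TT D a.B hcl y s) w'
  have key : ∀ w w' : V ι τ, FB D d a (cor D d w) (cor D d w') = fm D d a 0 w w' := by
    intro w w'
    rw [FB_apply, cor_apply, cor_apply, FF_add_left, FF_add_right D a.B d a.symm,
      FF_add_right D a.B d a.symm, FF_comm D a.B d a.symm w (TT D _), hFT, hFT, hFT, hdT,
      om_ks_comm D.l (dg D d w')]
    rw [fm_apply, Phi]
    have h0 : ∑ i, (0 : ι → ZMod 2) i * om (w.1 i) (w'.1 i) = 0 := by simp
    have := om_odd D.l (dg D d w) (dg D d w')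
    rw [h0]
    linear_combination this
  have hdg : ∀ w : V ι τ, cor D d w ∈ V0 D d := fun w => by
    rw [mem_V0, cor_apply, dg_add, hdT, W_add_self]
  have hsurj : ∀ v ∈ V0 D d, ∃ w ∈ VS (τ := τ) (univ.erase j), cor D d w = v := by
    intro v hv
    refine ⟨v + TT D (v.1 j), ?_, ?_⟩
    · intro i hi
      have hij : i = j := by
        by_contra h
        exact hi (mem_erase.2 ⟨h, mem_univ _⟩)
      rw [hij]
      exact W_add_self _
    · rw [cor_apply, dg_add, hdT, (mem_V0 D d).1 hv, zero_add, add_assoc, X_self, add_zero]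
  have hinj : ∀ w ∈ VS (τ := τ) (univ.erase j), cor D d w = 0 → w = 0 := by
    intro w hw h
    have h1 : dg D d w = 0 := by
      have h2 : (cor D d w).1 j = dg D d w := by
        show w.1 j + dg D d w = _
        rw [hw j (notMem_erase j _), zero_add]
      rw [← h2, h]
      rfl
    rw [cor_apply, h1] at h
    have h3 : (TT D 0 : V ι τ) = 0 := Prod.ext rfl (funext fun s => om_zero_left _)
    rw [h3, add_zero] at h
    exact h
  rw [r0, rho, rho]
  symm
  refine LinearEquiv.finrank_eq (LinearEquiv.ofBijective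
    (LinearMap.codRestrict (kr (FB D d a) (V0 D d))
      ((cor D d).comp (kr (fm D d a 0) (VS (univ.erase j))).subtype) ?_) ⟨?_, ?_⟩)
  · rintro ⟨w, hw⟩
    refine ⟨hdg w, fun v hv => ?_⟩
    obtain ⟨w', hw', rfl⟩ := hsurj v hv
    show FB D d a (cor D d w) (cor D d w') = 0
    rw [key]
    exact hw.2 w' hw'
  · rintro ⟨w, hw⟩ ⟨w', hw'⟩ h
    have h1 : cor D d w = cor D d w' := congrArg Subtype.val h
    have h2 : w - w' = 0 := by
      apply hinj _ ((VS (τ := τ) (univ.erase j)).sub_mem hw.1 hw'.1)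
      rw [map_sub, h1, sub_self]
    exact Subtype.ext (sub_eq_zero.1 h2)
  · rintro ⟨v, hv⟩
    obtain ⟨w, hw, rfl⟩ := hsurj v hv.1
    refine ⟨⟨w, hw, fun w' hw' => ?_⟩, rfl⟩
    rw [← key]
    exact hv.2 _ (hdg w')

theorem av_prod {α β : Type} [Fintype α] [Fintype β] (f : α × β → ℝ) :
    av f = av fun x => av fun y => f (x, y) := by
  rw [av_eq, av_eq]
  simp only [av_eq]
  rw [← sum_div, Fintype.sum_prod_type, Fintype.card_prod]
  push_cast
  rw [div_div, mul_comm]

theorem av_point {κ : Type} [Fintype κ] (b : κ → ZMod 2) :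
    av (fun y : κ → ZMod 2 => ind (y = b)) = 1 / 2 ^ Fintype.card κ := by
  rw [av_eq]
  have h1 : ∀ y : κ → ZMod 2, ind (y = b) = if y = b then 1 else 0 := fun y => by
    by_cases h : y = b
    · rw [ind_pos h, if_pos h]
    · rw [ind_neg h, if_neg h]
  simp only [h1]
  rw [sum_ite_eq' univ b (fun _ => (1 : ℝ)), if_pos (mem_univ _), Fintype.card_fun, ZMod.card]
  push_cast
  rfl

/-- the function of an array -/
noncomputable def Ps (D : Dat τ) (d : ι → ZMod 2) (F : ℕ → ℝ) (c : ℝ) (a : Arr ι τ) : ℝ :=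
  ind (clA D a) * (F (r0 D d a) - c)

theorem Mop_Ps (hN : ∑ i, d i + D.N = 1) (F : ℕ → ℝ) (c : ℝ) (j : ι) (a : Arr ι τ) :
    Mop j (Ps D d F c) a = 1 / 2 ^ Fintype.card τ * (EE D d F (univ.erase j) 0 a - c) := by
  set b : τ → ZMod 2 := fun s => 1 + ∑ i ∈ univ.erase j, a.B i s + D.g s with hb
  set G : (ι → ZMod 2) → ℝ := fun x => F (rho (fm D d (rep j 0 a) x) (VS (univ.erase j))) - c with hG
  have hcl : ∀ v : ι ⊕ τ → ZMod 2, clA D (rep j v a) ↔ (fun s => v (Sum.inr s)) = b := by
    intro v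
    rw [funext_iff]
    apply forall_congr'
    intro s
    have h1 : ∑ i, (rep j v a).B i s = v (Sum.inr s) + ∑ i ∈ univ.erase j, a.B i s := by
      rw [← add_sum_erase univ _ (mem_univ j)]
      congr 1
      · simp [rep]
      · refine sum_congr rfl fun i hi => ?_
        simp [rep, ne_of_mem_erase hi]
    rw [h1, hb]
    have h2 : ∀ x y z : ZMod 2, 1 + (x + y) + z = 0 ↔ x = 1 + y + z := by decide
    exact h2 _ _ _
  have h1 : ∀ v : ι ⊕ τ → ZMod 2, Ps D d F c (rep j v a) =
      ind ((fun s => v (Sum.inr s)) = b) * G (fun i => v (Sum.inl i)) := by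
    intro v
    rw [Ps]
    by_cases h : clA D (rep j v a)
    · rw [ind_pos h, ind_pos ((hcl v).1 h), one_mul, one_mul, r0_eq h hN j, hG]
      show F _ - c = F _ - c
      congr 2
      apply rho_congr
      intro u hu w hw
      have hu' := hu j (notMem_erase j _)
      have hw' := hw j (notMem_erase j _)
      have h2 := fm_rest D d j v a (vh j v) u w hu' hw'
      rw [fun_self] at h2
      rw [h2]
      have h3 := fm_x D d (rep j 0 a) 0 (vh j v) u w
      have h4 := fm_x D d (rep j 0 a) 0 (fun i => v (Sum.inl i)) u w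
      rw [zero_add] at h3 h4
      rw [h3, h4]
      congr 1
      refine sum_congr rfl fun i _ => ?_
      by_cases hij : i = j
      · rw [hij, hu', om_zero_left, mul_zero, mul_zero]
      · rw [vh, if_neg hij]
    · rw [ind_neg h, ind_neg (fun h' => h ((hcl v).2 h')), zero_mul, zero_mul]
  rw [Mop, av_congr h1]
  have h2 := av_equiv (Equiv.sumArrowEquivProdArrow ι τ (ZMod 2))
    (fun p : (ι → ZMod 2) × (τ → ZMod 2) => ind (p.2 = b) * G p.1)
  have h3 : av (fun v : ι ⊕ τ → ZMod 2 => ind ((fun s => v (Sum.inr s)) = b) *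
      G (fun i => v (Sum.inl i))) = av (fun p : (ι → ZMod 2) × (τ → ZMod 2) =>
        ind (p.2 = b) * G p.1) := h2
  rw [h3, av_prod]
  have h4 : ∀ x : ι → ZMod 2, av (fun y : τ → ZMod 2 => ind (y = b) * G x) =
      1 / 2 ^ Fintype.card τ * G x := fun x => by rw [av_mul', av_point]
  have h5 : av (fun x : ι → ZMod 2 => av fun y : τ → ZMod 2 =>
      ind ((x, y).2 = b) * G (x, y).1) = av fun x : ι → ZMod 2 => 1 / 2 ^ Fintype.card τ * G x :=
    av_congr h4
  rw [h5, av_mul, hG]
  congr 1
  rw [av_sub, av_const, EE_self D d F (notMem_erase j univ)]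
  rfl

/-- **the random model for the class** -/
theorem model_cl (h2t : ∀ u : W, u ≠ 0 → ∃ s, om u (D.t s) ≠ 0) {F : ℕ → ℝ} {c : ℝ}
    (h0 : ∀ r, 0 ≤ F r) (h1 : ∀ r, F r ≤ 1) (hc : Cv F c) {ε : ℝ} (hε : 0 < ε) :
    ∃ K : ℕ, ∀ (ι : Type) [Fintype ι] (d : ι → ZMod 2) (l : List ι), ∑ i, d i + D.N = 1 →
      l.Nodup → 254 * (Fintype.card ι - l.length) + K ≤ l.length →
      ∀ a : Arr ι τ, |MM l (Ps D d F c) a| ≤ ε / 2 ^ Fintype.card τ := by
  obtain ⟨K, hK⟩ := model (D := D) h2t h0 h1 hc hε
  refine ⟨K + 1, fun ι _ d l hN hnd hlen a => ?_⟩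
  cases l with
  | nil => simp at hlen
  | cons j l =>
    have h2 : MM (j :: l) (Ps D d F c) a =
        1 / 2 ^ Fintype.card τ * (MM l (EE D d F (univ.erase j) 0) a - c) := by
      show MM l (Mop j (Ps D d F c)) a = _
      have h3 : Mop j (Ps D d F c) = fun a => 1 / 2 ^ Fintype.card τ *
          (EE D d F (univ.erase j) 0 a - (fun _ => c) a) := by
        funext b
        exact Mop_Ps hN F c j b
      rw [h3, MM_mul, MM_sub, MM_const]
    have hnd' := (List.nodup_cons.1 hnd)
    have h4 := hK ι d (univ.erase j) l hnd'.2 (fun i hi => mem_erase.2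
      ⟨fun h => hnd'.1 (h ▸ hi), mem_univ _⟩) (by
        rw [card_erase_of_mem (mem_univ _), card_univ]
        rw [List.length_cons] at hlen
        omega) a
    rw [h2, abs_mul, abs_of_nonneg (by positivity : (0 : ℝ) ≤ 1 / 2 ^ Fintype.card τ)]
    rw [div_mul_eq_mul_div, one_mul]
    exact div_le_div_of_nonneg_right h4 (by positivity)

end

end Pool.Agent.V8H26.XL
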